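import Mathlib
import Pool.Agent.H855R2.SF.Gam

/-!
Lower bound for the Gamma quotient of the functional equation, and a growth lemma.
-/

open Complex Filter Topology Set

namespace Pool.Agent.TH809.MZ

/-- `|Γ(v+x)| ≥ |v|^x |Γ(v)| / 4` for `Re v ≥ 1`, `0 ≤ x ≤ 1` -/
theorem gamma_low {v : ℂ} {x : ℝ} (hx0 : 0 ≤ x) (hx1 : x ≤ 1) (hv : 1 ≤ v.re) :
    ‖v‖ ^ x * ‖Complex.Gamma v‖ ≤ 4 * ‖Complex.Gamma (v + x)‖ := by
  have hv0 : v ≠ 0 := by
    intro h; rw [h, zero_re] at hv; linarith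
  have hvn : 1 ≤ ‖v‖ := hv.trans (re_le_norm v)
  have h1 := H855R2.SF.gamma_quot (z := v + x) (y := 1 - x) (by linarith) (by linarith)
    (by simp; linarith)
  have e1 : v + (x:ℂ) + ((1 - x : ℝ) : ℂ) = v + 1 := by push_cast; ring
  rw [e1, Complex.Gamma_add_one v hv0, norm_mul] at h1
  have h2 : ‖v + x‖ ≤ 2 * ‖v‖ := by
    refine (norm_add_le _ _).trans ?_
    rw [Complex.norm_real, Real.norm_eq_abs, abs_of_nonneg hx0]
    linarith
  have h3 : ‖v + x‖ ^ (1 - x) ≤ 2 * ‖v‖ ^ (1 - x) := by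
    calc ‖v + x‖ ^ (1 - x) ≤ (2 * ‖v‖) ^ (1 - x) :=
          Real.rpow_le_rpow (norm_nonneg _) h2 (by linarith)
      _ = 2 ^ (1 - x) * ‖v‖ ^ (1 - x) := Real.mul_rpow (by norm_num) (norm_nonneg _)
      _ ≤ 2 ^ (1:ℝ) * ‖v‖ ^ (1 - x) := by
          apply mul_le_mul_of_nonneg_right _ (by positivity)
          exact Real.rpow_le_rpow_of_exponent_le (by norm_num) (by linarith)
      _ = _ := by rw [Real.rpow_one]
  have h4 : ‖v‖ * ‖Complex.Gamma v‖ ≤ 4 * ‖v‖ ^ (1 - x) * ‖Complex.Gamma (v + x)‖ := by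
    refine h1.trans ?_
    apply mul_le_mul_of_nonneg_right _ (norm_nonneg _)
    linarith
  have hpos : 0 < ‖v‖ ^ (1 - x) := by positivity
  have h5 : ‖v‖ ^ x * ‖v‖ ^ (1 - x) = ‖v‖ := by
    rw [← Real.rpow_add (by linarith)]; simp
  have h6 : (‖v‖ ^ x * ‖Complex.Gamma v‖) * ‖v‖ ^ (1 - x) ≤
      (4 * ‖Complex.Gamma (v + x)‖) * ‖v‖ ^ (1 - x) := by
    calc (‖v‖ ^ x * ‖Complex.Gamma v‖) * ‖v‖ ^ (1 - x) =
        (‖v‖ ^ x * ‖v‖ ^ (1 - x)) * ‖Complex.Gamma v‖ := by ring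
      _ = ‖v‖ * ‖Complex.Gamma v‖ := by rw [h5]
      _ ≤ _ := h4
      _ = _ := by ring
  exact le_of_mul_le_mul_right h6 hpos

/-- lower bound for the quotient of the functional equation: for `Re w ≥ -1/4 - 3/4...` -/
theorem gammaR_low {w : ℂ} {x : ℝ} (hx0 : 0 ≤ x) (hx1 : x ≤ 1) (hw : -2 ≤ w.re)
    (hw1 : 1 ≤ |w.im|) :
    |w.im| ^ x ≤ 1000 * (‖Gammaℝ (w + 2 * x)‖ * ‖(Gammaℝ w)⁻¹‖) := by
  have hpi := Real.pi_pos
  have hpi4 : Real.pi < 4 := by linarith [Real.pi_lt_d2]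
  set u : ℂ := w / 2 with hu
  have hure : u.re = w.re / 2 := by simp [hu]
  have huim : u.im = w.im / 2 := by simp [hu]
  have him : ∀ (v : ℂ), v.im = u.im → 1 / 2 ≤ ‖v‖ ∧ v ≠ 0 := by
    intro v hv
    have h1 := abs_im_le_norm v
    rw [hv, huim, abs_div, abs_two] at h1
    have h2 : 1 / 2 ≤ ‖v‖ := by linarith
    refine ⟨h2, ?_⟩
    intro h; rw [h, norm_zero] at h2; linarith
  have hstep : ∀ v : ℂ, v.im = u.im → ‖v + x‖ ≤ 3 * ‖v‖ := by
    intro v hv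
    have h1 := (him v hv).1
    refine (norm_add_le _ _).trans ?_
    rw [Complex.norm_real, Real.norm_eq_abs, abs_of_nonneg hx0]
    linarith
  have hG : Complex.Gamma (u + 2) = (u + 1) * (u * Complex.Gamma u) := by
    rw [← Complex.Gamma_add_one u (him u rfl).2, ← Complex.Gamma_add_one (u + 1) (him _ (by simp)).2]
    congr 1; ring
  have hGx : Complex.Gamma (u + 2 + x) = (u + 1 + x) * ((u + x) * Complex.Gamma (u + x)) := by
    rw [← Complex.Gamma_add_one (u + x) (him _ (by simp)).2]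
    have e : u + (1:ℂ) + x = u + x + 1 := by ring
    rw [e, ← Complex.Gamma_add_one (u + x + 1) (him _ (by simp)).2]
    congr 1; ring
  have h1 := gamma_low (v := u + 2) hx0 hx1 (by simp; linarith)
  rw [hG, hGx, norm_mul, norm_mul, norm_mul, norm_mul] at h1
  have hu2 : |w.im| / 2 ≤ ‖u + 2‖ := by
    have := abs_im_le_norm (u + 2)
    have e : (u + 2).im = w.im / 2 := by simp [huim]
    rw [e, abs_div, abs_two] at this
    exact this
  have h2 : (|w.im| / 2) ^ x ≤ ‖u + 2‖ ^ x := Real.rpow_le_rpow (by positivity) hu2 hx0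
  have h3 : |w.im| ^ x ≤ 2 * (|w.im| / 2) ^ x := by
    have e : |w.im| = 2 * (|w.im| / 2) := by ring
    calc |w.im| ^ x = (2 * (|w.im| / 2)) ^ x := by rw [← e]
      _ = 2 ^ x * (|w.im| / 2) ^ x := Real.mul_rpow (by norm_num) (by positivity)
      _ ≤ 2 ^ (1:ℝ) * (|w.im| / 2) ^ x := by
          apply mul_le_mul_of_nonneg_right _ (by positivity)
          exact Real.rpow_le_rpow_of_exponent_le (by norm_num) hx1
      _ = _ := by rw [Real.rpow_one]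
  have hu0 := (him u rfl)
  have hu1 := (him (u + 1) (by simp))
  have hs1 := hstep u rfl
  have hs2 := hstep (u + 1) (by simp)
  have hGu : 0 ≤ ‖Complex.Gamma u‖ := norm_nonneg _
  -- `|u+2|^x |Γ(u)| ≤ 36 |Γ(u+x)|`
  have h4 : ‖u + 2‖ ^ x * ‖Complex.Gamma u‖ ≤ 36 * ‖Complex.Gamma (u + x)‖ := by
    have hpos : 0 < ‖u + 1‖ * ‖u‖ := mul_pos (norm_pos_iff.2 hu1.2) (norm_pos_iff.2 hu0.2)
    have h5 : (‖u + 2‖ ^ x * ‖Complex.Gamma u‖) * (‖u + 1‖ * ‖u‖) ≤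
        (36 * ‖Complex.Gamma (u + x)‖) * (‖u + 1‖ * ‖u‖) := by
      calc (‖u + 2‖ ^ x * ‖Complex.Gamma u‖) * (‖u + 1‖ * ‖u‖)
          = ‖u + 2‖ ^ x * (‖u + 1‖ * (‖u‖ * ‖Complex.Gamma u‖)) := by ring
        _ ≤ 4 * (‖u + 1 + x‖ * (‖u + x‖ * ‖Complex.Gamma (u + x)‖)) := h1
        _ ≤ 4 * ((3 * ‖u + 1‖) * ((3 * ‖u‖) * ‖Complex.Gamma (u + x)‖)) := by gcongr
        _ = _ := by ring
    exact le_of_mul_le_mul_right h5 hpos
  by_cases hz : Gammaℝ w = 0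
  · -- impossible, as the imaginary part is not zero
    exfalso
    rw [Gammaℝ_eq_zero_iff] at hz
    obtain ⟨n, hn⟩ := hz
    rw [hn] at hw1
    simp at hw1
    linarith
  · have hgz : Complex.Gamma u ≠ 0 := by
      intro h
      apply hz
      rw [Gammaℝ_def, ← hu, h, mul_zero]
    rw [Gammaℝ_def, Gammaℝ_def, norm_inv, norm_mul, norm_mul,
      Complex.norm_cpow_eq_rpow_re_of_pos hpi, Complex.norm_cpow_eq_rpow_re_of_pos hpi]
    have e1 : (w + 2 * (x:ℂ)) / 2 = u + x := by rw [hu]; ring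
    rw [e1, ← hu]
    have e2 : (-(w + 2 * (x:ℂ)) / 2).re = (-w / 2).re + -x := by
      simp; ring
    rw [e2, Real.rpow_add hpi]
    have hp1 : 0 < Real.pi ^ ((-w / 2).re) := by positivity
    have hgpos : 0 < ‖Complex.Gamma u‖ := norm_pos_iff.2 hgz
    have e3 : Real.pi ^ (-w / 2).re * Real.pi ^ (-x) * ‖Complex.Gamma (u + x)‖ *
        (Real.pi ^ (-w / 2).re * ‖Complex.Gamma u‖)⁻¹ =
        Real.pi ^ (-x) * (‖Complex.Gamma (u + x)‖ / ‖Complex.Gamma u‖) := by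
      field_simp
    rw [e3]
    have h6 : (1:ℝ) / 4 ≤ Real.pi ^ (-x) := by
      rw [Real.rpow_neg hpi.le, one_div]
      apply inv_anti₀ (by positivity)
      calc Real.pi ^ x ≤ Real.pi ^ (1:ℝ) :=
            Real.rpow_le_rpow_of_exponent_le (by linarith [Real.pi_gt_three]) hx1
        _ ≤ 4 := by rw [Real.rpow_one]; exact hpi4.le
    have h7 : ‖u + 2‖ ^ x ≤ 36 * (‖Complex.Gamma (u + x)‖ / ‖Complex.Gamma u‖) := by
      rw [mul_div_assoc', le_div_iff₀ hgpos]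
      exact h4
    have h8 : 0 ≤ ‖Complex.Gamma (u + x)‖ / ‖Complex.Gamma u‖ := by positivity
    calc |w.im| ^ x ≤ 2 * ‖u + 2‖ ^ x := by linarith
      _ ≤ 72 * (‖Complex.Gamma (u + x)‖ / ‖Complex.Gamma u‖) := by linarith
      _ ≤ 1000 * (1 / 4 * (‖Complex.Gamma (u + x)‖ / ‖Complex.Gamma u‖)) := by linarith
      _ ≤ _ := by
          apply mul_le_mul_of_nonneg_left _ (by norm_num)
          exact mul_le_mul_of_nonneg_right h6 h8

theorem pow_gauss {r : ℝ} (hr : 0 ≤ r) (y : ℝ) :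
    (1 + |y|) ^ r * Real.exp (-y ^ 2) ≤ Real.exp (r ^ 2) := by
  have h1 : 1 + |y| ≤ Real.exp |y| := by linarith [Real.add_one_le_exp |y|]
  have h2 : (1 + |y|) ^ r ≤ Real.exp (r * |y|) := by
    calc (1 + |y|) ^ r ≤ (Real.exp |y|) ^ r := Real.rpow_le_rpow (by positivity) h1 hr
      _ = _ := by rw [← Real.exp_mul, mul_comm]
  calc (1 + |y|) ^ r * Real.exp (-y ^ 2) ≤ Real.exp (r * |y|) * Real.exp (-y ^ 2) :=
        mul_le_mul_of_nonneg_right h2 (Real.exp_pos _).le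
    _ = Real.exp (r * |y| + -y ^ 2) := (Real.exp_add _ _).symm
    _ ≤ _ := by
        apply Real.exp_le_exp.2
        rw [← sq_abs y]
        nlinarith [sq_nonneg (r - |y|), sq_nonneg (r + |y|), sq_nonneg r]

end Pool.Agent.TH809.MZ
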