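import Mathlib

/-!
Even analytic functions as functions of the square, and the inverse sine on `Re t² < 1`.
-/

open Complex Filter Topology Set

namespace Pool.Agent.TH809.MZ

theorem sq_half (w : ℂ) : (w ^ (1 / 2 : ℂ)) ^ 2 = w := by
  have h := Complex.cpow_nat_inv_pow w (n := 2) (by norm_num)
  rw [one_div]
  exact h

theorem even_sqrt {g : ℂ → ℂ} {Om : Set ℂ} (hO : IsOpen Om)
    (hg : DifferentiableOn ℂ g {t | t ^ 2 ∈ Om}) (hev : ∀ t, t ^ 2 ∈ Om → g (-t) = g t) :
    DifferentiableOn ℂ (fun u => g (u ^ (1 / 2 : ℂ))) Om := by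
  have hV : IsOpen {t : ℂ | t ^ 2 ∈ Om} := hO.preimage (by fun_prop : Continuous fun t : ℂ => t ^ 2)
  have hne : ∀ u ∈ Om, u ≠ 0 → DifferentiableAt ℂ (fun u => g (u ^ (1 / 2 : ℂ))) u := by
    intro u0 hu0 h0
    set r0 : ℂ := u0 ^ (1 / 2 : ℂ) with hr0
    have hr0sq : r0 ^ 2 = u0 := sq_half u0
    set r : ℂ → ℂ := fun u => r0 * (u / u0) ^ (1 / 2 : ℂ) with hr
    have hrsq : ∀ u, r u ^ 2 = u := by
      intro u
      simp only [hr]
      rw [mul_pow, hr0sq, sq_half]
      field_simp
    have hru0 : r u0 = r0 := by simp [hr, div_self h0]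
    have hrd : DifferentiableAt ℂ r u0 := by
      apply DifferentiableAt.const_mul
      have h1 : u0 / u0 ∈ slitPlane := by rw [div_self h0]; exact one_mem_slitPlane
      exact (differentiableAt_id.div_const u0).cpow_const h1
    have hgd : DifferentiableAt ℂ g (r u0) := by
      apply hg.differentiableAt
      apply hV.mem_nhds
      show r u0 ^ 2 ∈ Om
      rw [hrsq]; exact hu0
    have hcomp : DifferentiableAt ℂ (fun u => g (r u)) u0 :=
      DifferentiableAt.comp (g := g) (f := r) u0 hgd hrd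
    apply hcomp.congr_of_eventuallyEq
    filter_upwards [hO.mem_nhds hu0] with u hu
    have h2 : (u ^ (1 / 2 : ℂ)) ^ 2 = r u ^ 2 := by rw [sq_half, hrsq]
    rcases sq_eq_sq_iff_eq_or_eq_neg.1 h2 with h | h
    · rw [h]
    · rw [h]
      apply hev
      rw [hrsq]; exact hu
  intro u hu
  by_cases h0 : u = 0
  · subst h0
    apply DifferentiableAt.differentiableWithinAt
    apply AnalyticAt.differentiableAt
    apply Complex.analyticAt_of_differentiable_on_punctured_nhds_of_continuousAt
    · have h1 : ∀ᶠ z in 𝓝[≠] (0:ℂ), z ∈ Om := nhdsWithin_le_nhds (hO.mem_nhds hu)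
      filter_upwards [h1, self_mem_nhdsWithin] with z hz hz0
      exact hne z hz hz0
    · have h2 : ContinuousAt (fun u : ℂ => u ^ (1 / 2 : ℂ)) 0 :=
        Complex.continuousAt_cpow_const_of_re_pos (Or.inl le_rfl) (by norm_num)
      have h3 : (0:ℂ) ^ (1 / 2 : ℂ) = 0 := by
        rw [Complex.zero_cpow]; norm_num
      have h4 : ContinuousAt g ((0:ℂ) ^ (1 / 2 : ℂ)) := by
        rw [h3]
        apply (hg.differentiableAt (hV.mem_nhds _)).continuousAt
        show (0:ℂ) ^ 2 ∈ Om
        simpa using hu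
      exact ContinuousAt.comp (g := g) (f := fun u : ℂ => u ^ (1 / 2 : ℂ)) h4 h2
  · exact (hne u hu h0).differentiableWithinAt

/-- the square root with positive real part on the slit plane -/
theorem half_re_pos {w : ℂ} (hw : w ∈ slitPlane) : 0 < (w ^ (1 / 2 : ℂ)).re := by
  have h0 : w ≠ 0 := slitPlane_ne_zero hw
  rw [Complex.cpow_def_of_ne_zero h0, Complex.exp_re]
  apply mul_pos (Real.exp_pos _)
  have h1 : (Complex.log w * (1 / 2)).im = w.arg / 2 := by
    simp [Complex.mul_im, Complex.log_im]; ring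
  rw [h1]
  apply Real.cos_pos_of_mem_Ioo
  have h2 := Complex.neg_pi_lt_arg w
  have h3 := Complex.arg_le_pi w
  have h4 : w.arg ≠ Real.pi := (mem_slitPlane_iff_arg.1 hw).1
  have h5 : w.arg < Real.pi := lt_of_le_of_ne h3 h4
  constructor <;> linarith

/-- `cos θ` as a function of `sin θ` -/
noncomputable def RR (t : ℂ) : ℂ := (1 - t ^ 2) ^ (1 / 2 : ℂ)

/-- `exp (i θ)` as a function of `sin θ` -/
noncomputable def WW (t : ℂ) : ℂ := I * t + RR t

/-- the inverse sine -/
noncomputable def th (t : ℂ) : ℂ := -I * log (WW t)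

theorem RR_neg (t : ℂ) : RR (-t) = RR t := by simp [RR]

theorem RR_sq (t : ℂ) : RR t ^ 2 = 1 - t ^ 2 := sq_half _

theorem WW_mul (t : ℂ) : WW t * WW (-t) = 1 := by
  unfold WW
  rw [RR_neg]
  have := RR_sq t
  linear_combination this - t ^ 2 * I_sq

theorem WW_ne (t : ℂ) : WW t ≠ 0 := by
  intro h
  have := WW_mul t
  rw [h, zero_mul] at this
  exact zero_ne_one this

theorem RR_re {t : ℂ} (ht : (t ^ 2).re < 1) : 0 < (RR t).re := by
  apply half_re_pos
  left
  simp only [sub_re, one_re]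
  linarith

/-- `exp (i θ)` has positive real part -/
theorem WW_re {t : ℂ} (ht : (t ^ 2).re < 1) : 0 < (WW t).re := by
  have h1 := WW_mul t
  have h2 : WW (-t) = (WW t)⁻¹ := eq_inv_of_mul_eq_one_right h1
  have h3 : WW t + WW (-t) = 2 * RR t := by
    unfold WW; rw [RR_neg]; ring
  have h4 : (WW t + (WW t)⁻¹).re = (WW t).re * (1 + (normSq (WW t))⁻¹) := by
    rw [add_re, inv_re]; ring
  have h5 : 0 < (WW t).re * (1 + (normSq (WW t))⁻¹) := by
    rw [← h4, ← h2, h3]
    have := RR_re ht
    simpa using this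
  have h6 : 0 < 1 + (normSq (WW t))⁻¹ := by
    have := normSq_nonneg (WW t)
    positivity
  exact (pos_iff_pos_of_mul_pos h5).2 h6

theorem WW_slit {t : ℂ} (ht : (t ^ 2).re < 1) : WW t ∈ slitPlane := Or.inl (WW_re ht)

theorem exp_th (t : ℂ) : exp (I * th t) = WW t := by
  have : I * th t = log (WW t) := by
    unfold th
    linear_combination (-log (WW t)) * I_sq
  rw [this, exp_log (WW_ne t)]

theorem th_neg {t : ℂ} (ht : (t ^ 2).re < 1) : th (-t) = -th t := by
  have h1 := WW_mul t
  have h2 : WW (-t) = (WW t)⁻¹ := eq_inv_of_mul_eq_one_right h1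
  unfold th
  rw [h2, Complex.log_inv _ (mem_slitPlane_iff_arg.1 (WW_slit ht)).1]
  ring

theorem sin_th (t : ℂ) : sin (th t) = t := by
  have h1 := exp_th t
  have h2 : exp (-(I * th t)) = WW (-t) := by
    rw [exp_neg, h1]
    exact (eq_inv_of_mul_eq_one_right (WW_mul t)).symm
  have e : sin (th t) = (exp (-(I * th t)) - exp (I * th t)) * I / 2 := by
    unfold Complex.sin
    congr 3
    · congr 1; ring
    · congr 1; ring
  rw [e, h1, h2]
  unfold WW
  rw [RR_neg]
  linear_combination (-t) * I_sq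

theorem cos_two_th (t : ℂ) : cos (2 * th t) = 1 - 2 * t ^ 2 := by
  rw [Complex.cos_two_mul, Complex.cos_sq', sin_th]
  ring

theorem th_re {t : ℂ} (ht : (t ^ 2).re < 1) : |(th t).re| < Real.pi / 2 := by
  have h1 : (th t).re = arg (WW t) := by
    unfold th
    simp [Complex.log_im]
  rw [h1]
  exact abs_arg_lt_pi_div_two_iff.2 (Or.inl (WW_re ht))

theorem th_diff : DifferentiableOn ℂ th {t | (t ^ 2).re < 1} := by
  intro t ht
  apply DifferentiableAt.differentiableWithinAt
  have ht' : (t ^ 2).re < 1 := ht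
  unfold th
  apply DifferentiableAt.const_mul
  apply DifferentiableAt.clog _ (WW_slit ht')
  unfold WW RR
  apply DifferentiableAt.add
  · fun_prop
  · apply DifferentiableAt.cpow_const
    · fun_prop
    · left
      simp only [sub_re, one_re]
      linarith

theorem re_cos (z : ℂ) : (cos z).re = Real.cos z.re * Real.cosh z.im := by
  have := Complex.cos_eq z
  rw [this]
  simp [← Complex.ofReal_cos, ← Complex.ofReal_cosh, ← Complex.ofReal_sin, ← Complex.ofReal_sinh]

theorem im_cos (z : ℂ) : (cos z).im = -(Real.sin z.re * Real.sinh z.im) := by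
  have := Complex.cos_eq z
  rw [this]
  simp [← Complex.ofReal_cos, ← Complex.ofReal_cosh, ← Complex.ofReal_sin, ← Complex.ofReal_sinh]

/-- if moreover `Re t² ≤ 1/2` then `|Re θ| ≤ π/4` -/
theorem th_re_le {t : ℂ} (ht : (t ^ 2).re ≤ 1 / 2) : |(th t).re| ≤ Real.pi / 4 := by
  have ht1 : (t ^ 2).re < 1 := by linarith
  have h1 := th_re ht1
  have h2 := congrArg re (cos_two_th t)
  rw [re_cos] at h2
  have h3 : (1 - 2 * t ^ 2).re = 1 - 2 * (t ^ 2).re := by simp
  rw [h3] at h2
  have h4 : 0 ≤ Real.cos (2 * th t).re * Real.cosh (2 * th t).im := by rw [h2]; linarith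
  have h5 : 0 ≤ Real.cos (2 * th t).re := nonneg_of_mul_nonneg_left h4 (Real.cosh_pos _)
  have h6 : (2 * th t).re = 2 * (th t).re := by simp
  rw [h6] at h5
  by_contra hc
  rw [not_le] at hc
  have h7 : Real.cos (2 * (th t).re) < 0 := by
    rw [← Real.cos_abs, abs_mul, abs_two]
    apply Real.cos_neg_of_pi_div_two_lt_of_lt
    · linarith
    · have := abs_nonneg (th t).re
      linarith
  linarith

end Pool.Agent.TH809.MZ
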