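import Mathlib
import Pool.Agent.TH809.MZ.Theta

/-!
The map of the strip `0 ≤ Re ϕ ≤ π/2` onto half of the slit strip: `cos (a z) = K cos ϕ`.
-/

open Complex Filter Topology Set

namespace Pool.Agent.TH809.MZ

/-- `sin² (a z / 2)` in terms of `ϕ` -/
noncomputable def uu (K : ℝ) (p : ℂ) : ℂ := (1 - K * cos p) / 2

/-- the variable `z` in terms of `ϕ` (determined up to its sign) -/
noncomputable def zt (a K : ℝ) (p : ℂ) : ℂ := (2 / a : ℝ) * th (uu K p ^ (1 / 2 : ℂ))

theorem uu_re {K : ℝ} (hK : 0 ≤ K) {p : ℂ} (h0 : 0 ≤ p.re) (h1 : p.re ≤ Real.pi / 2) :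
    (uu K p).re ≤ 1 / 2 := by
  have h2 : (uu K p).re = (1 - K * (cos p).re) / 2 := by
    unfold uu
    have : (1 - (K:ℂ) * cos p) / 2 = (((1 / 2 : ℝ)) : ℂ) * (1 - (K:ℂ) * cos p) := by push_cast; ring
    rw [this, re_ofReal_mul, sub_re, one_re, re_ofReal_mul]
    ring
  have h3 : 0 ≤ (cos p).re := by
    rw [re_cos]
    apply mul_nonneg _ (Real.cosh_pos _).le
    apply Real.cos_nonneg_of_mem_Icc
    constructor <;> linarith [Real.pi_pos]
  rw [h2]
  have := mul_nonneg hK h3
  linarith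

theorem hat_diff {a K : ℝ} (ha : 0 < a) {H : ℂ → ℂ}
    (hH : DifferentiableOn ℂ H {z | |z.re| < Real.pi / a})
    (hev : ∀ z : ℂ, |z.re| < Real.pi / a → H (-z) = H z) :
    DifferentiableOn ℂ (fun p => H (zt a K p)) {p | (uu K p).re < 1} := by
  have hre : ∀ t : ℂ, (t ^ 2).re < 1 → |(((2 / a : ℝ) : ℂ) * th t).re| < Real.pi / a := by
    intro t ht
    have h1 := th_re ht
    rw [re_ofReal_mul, abs_mul, abs_of_pos (by positivity : (0:ℝ) < 2 / a)]
    calc 2 / a * |(th t).re| < 2 / a * (Real.pi / 2) := mul_lt_mul_of_pos_left h1 (by positivity)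
      _ = Real.pi / a := by ring
  set g : ℂ → ℂ := fun t => H (((2 / a : ℝ) : ℂ) * th t) with hg
  have hgd : DifferentiableOn ℂ g {t | t ^ 2 ∈ {u : ℂ | u.re < 1}} := by
    intro t ht
    have ht' : (t ^ 2).re < 1 := ht
    apply DifferentiableAt.differentiableWithinAt
    have h1 : DifferentiableAt ℂ th t := by
      apply th_diff.differentiableAt
      apply IsOpen.mem_nhds _ ht
      exact (isOpen_lt (Complex.continuous_re.comp (continuous_pow 2)) continuous_const)
    have h2 : DifferentiableAt ℂ H (((2 / a : ℝ) : ℂ) * th t) := by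
      apply hH.differentiableAt
      have hO : IsOpen {z : ℂ | |z.re| < Real.pi / a} :=
        isOpen_lt (Complex.continuous_re.abs) continuous_const
      exact hO.mem_nhds (hre t ht')
    exact DifferentiableAt.comp (g := H) (f := fun t => ((2 / a : ℝ) : ℂ) * th t) t h2 (h1.const_mul _)
  have hgev : ∀ t : ℂ, t ^ 2 ∈ {u : ℂ | u.re < 1} → g (-t) = g t := by
    intro t ht
    have ht' : (t ^ 2).re < 1 := ht
    simp only [hg]
    rw [th_neg ht', mul_neg]
    exact hev _ (hre t ht')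
  have hO : IsOpen {u : ℂ | u.re < 1} := isOpen_lt Complex.continuous_re continuous_const
  have hmain := even_sqrt hO hgd hgev
  intro p hp
  apply DifferentiableAt.differentiableWithinAt
  have h1 : DifferentiableAt ℂ (fun u : ℂ => g (u ^ (1 / 2 : ℂ))) (uu K p) :=
    hmain.differentiableAt (hO.mem_nhds hp)
  have h2 : DifferentiableAt ℂ (uu K) p := by
    unfold uu
    fun_prop
  exact DifferentiableAt.comp (g := fun u : ℂ => g (u ^ (1 / 2 : ℂ))) (f := uu K) p h1 h2

theorem a_zt {a K : ℝ} (ha : 0 < a) (p : ℂ) : (a : ℂ) * zt a K p = 2 * th (uu K p ^ (1 / 2 : ℂ)) := by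
  unfold zt
  have : (a:ℂ) ≠ 0 := by exact_mod_cast ha.ne'
  push_cast
  field_simp

theorem cos_zt {a K : ℝ} (ha : 0 < a) (p : ℂ) : cos (a * zt a K p) = K * cos p := by
  rw [a_zt ha, cos_two_th, sq_half]
  unfold uu
  ring

/-- `|Re z| < π / a` as long as `Re u < 1` -/
theorem zt_re_lt {a K : ℝ} (ha : 0 < a) {p : ℂ} (hp : (uu K p).re < 1) :
    |(zt a K p).re| < Real.pi / a := by
  have h1 := th_re (t := uu K p ^ (1 / 2 : ℂ)) (by rw [sq_half]; exact hp)
  unfold zt
  rw [re_ofReal_mul, abs_mul, abs_of_pos (by positivity : (0:ℝ) < 2 / a)]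
  calc 2 / a * |(th (uu K p ^ (1 / 2 : ℂ))).re| < 2 / a * (Real.pi / 2) :=
        mul_lt_mul_of_pos_left h1 (by positivity)
    _ = Real.pi / a := by ring

theorem zt_re_le {a K : ℝ} (ha : 0 < a) (hK : 0 ≤ K) {p : ℂ} (h0 : 0 ≤ p.re)
    (h1 : p.re ≤ Real.pi / 2) : |(zt a K p).re| ≤ Real.pi / (2 * a) := by
  have h1 := th_re_le (t := uu K p ^ (1 / 2 : ℂ)) (by rw [sq_half]; exact uu_re hK h0 h1)
  unfold zt
  rw [re_ofReal_mul, abs_mul, abs_of_pos (by positivity : (0:ℝ) < 2 / a)]
  calc 2 / a * |(th (uu K p ^ (1 / 2 : ℂ))).re| ≤ 2 / a * (Real.pi / 4) :=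
        mul_le_mul_of_nonneg_left h1 (by positivity)
    _ = Real.pi / (2 * a) := by field_simp; ring

/-- on the left side of the strip `z` is purely imaginary -/
theorem zt_left {a K : ℝ} (ha : 0 < a) (hK : 1 < K) {p : ℂ} (h0 : p.re = 0) :
    (zt a K p).re = 0 := by
  have hpi := Real.pi_pos
  have hc := cos_zt ha (K := K) p
  have hb := zt_re_le ha (K := K) (by linarith) (p := p) (by rw [h0]) (by rw [h0]; positivity)
  have e1 := congrArg re hc
  have e2 := congrArg im hc
  rw [re_cos, re_ofReal_mul, re_ofReal_mul, re_cos, h0, Real.cos_zero, one_mul] at e1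
  have e4 : ((K:ℂ) * cos p).im = 0 := by
    rw [im_ofReal_mul, im_cos, h0, Real.sin_zero, zero_mul, neg_zero, mul_zero]
  rw [im_cos, e4] at e2
  have e3 : Real.sin ((a:ℂ) * zt a K p).re * Real.sinh ((a:ℂ) * zt a K p).im = 0 := by linarith
  rw [re_ofReal_mul] at e3
  rcases mul_eq_zero.1 e3 with h | h
  · have h2 : |a * (zt a K p).re| < Real.pi := by
      rw [abs_mul, abs_of_pos ha]
      calc a * |(zt a K p).re| ≤ a * (Real.pi / (2 * a)) := mul_le_mul_of_nonneg_left hb ha.le
        _ = Real.pi / 2 := by field_simp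
        _ < Real.pi := by linarith
    have h3 := (Real.sin_eq_zero_iff_of_lt_of_lt (neg_lt_of_abs_lt h2) (lt_of_abs_lt h2)).1 h
    rcases mul_eq_zero.1 h3 with h4 | h4
    · exact absurd h4 ha.ne'
    · exact h4
  · exfalso
    have h2 : ((a:ℂ) * zt a K p).im = 0 := Real.sinh_eq_zero.1 h
    rw [h2, Real.cosh_zero, mul_one] at e1
    have h3 := Real.cos_le_one (a * (zt a K p).re)
    have h4 := Real.one_le_cosh p.im
    nlinarith

/-- on the right side of the strip `z` is on the boundary of its strip -/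
theorem zt_right {a K : ℝ} (ha : 0 < a) (hK : 0 ≤ K) {p : ℂ} (h0 : p.re = Real.pi / 2) :
    |(zt a K p).re| = Real.pi / (2 * a) := by
  have hpi := Real.pi_pos
  have hc := cos_zt ha (K := K) p
  have hb := zt_re_le ha (K := K) hK (p := p) (by rw [h0]; positivity) (by rw [h0])
  have e1 := congrArg re hc
  rw [re_cos, re_ofReal_mul, re_ofReal_mul, re_cos, h0, Real.cos_pi_div_two, zero_mul, mul_zero] at e1
  have e2 : Real.cos (a * (zt a K p).re) = 0 := by
    rcases mul_eq_zero.1 e1 with h | h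
    · exact h
    · exact absurd h (Real.cosh_pos _).ne'
  have h1 : a * |(zt a K p).re| ≤ Real.pi / 2 := by
    calc a * |(zt a K p).re| ≤ a * (Real.pi / (2 * a)) := mul_le_mul_of_nonneg_left hb ha.le
        _ = Real.pi / 2 := by field_simp
  have h2 : ¬ a * |(zt a K p).re| < Real.pi / 2 := by
    intro hlt
    have h3 : 0 < Real.cos (a * |(zt a K p).re|) := by
      apply Real.cos_pos_of_mem_Ioo
      constructor
      · have : 0 ≤ a * |(zt a K p).re| := by positivity
        linarith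
      · exact hlt
    have h4 : Real.cos (a * |(zt a K p).re|) = Real.cos (a * (zt a K p).re) := by
      rw [← Real.cos_abs (a * (zt a K p).re), abs_mul, abs_of_pos ha]
    rw [h4, e2] at h3
    exact lt_irrefl _ h3
  have h3 : a * |(zt a K p).re| = Real.pi / 2 := le_antisymm h1 (not_lt.1 h2)
  field_simp
  linarith

/-- the value at a real point -/
theorem zt_eval {a K : ℝ} (ha : 0 < a) (hK : 0 ≤ K) {x q : ℝ} (hx0 : 0 ≤ x)
    (hx1 : x ≤ Real.pi / (2 * a)) (hq0 : 0 ≤ q) (hq1 : q ≤ Real.pi / 2)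
    (h : Real.cos (a * x) = K * Real.cos q) : zt a K q = x ∨ zt a K q = -(x : ℂ) := by
  have hpi := Real.pi_pos
  have hc := cos_zt ha (K := K) (q : ℂ)
  have hb := zt_re_le ha (K := K) hK (p := (q:ℂ)) (by simpa using hq0) (by simpa using hq1)
  have h1 : cos ((a:ℂ) * zt a K q) = cos ((a:ℂ) * x) := by
    rw [hc]
    have := congrArg ((↑) : ℝ → ℂ) h
    push_cast at this
    exact this.symm
  have hac : (a:ℂ) ≠ 0 := by exact_mod_cast ha.ne'
  have h3 : |a * (zt a K q).re| ≤ Real.pi / 2 := by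
    rw [abs_mul, abs_of_pos ha]
    calc a * |(zt a K q).re| ≤ a * (Real.pi / (2 * a)) := mul_le_mul_of_nonneg_left hb ha.le
      _ = Real.pi / 2 := by field_simp
  have h4 : a * x ≤ Real.pi / 2 := by
    calc a * x ≤ a * (Real.pi / (2 * a)) := mul_le_mul_of_nonneg_left hx1 ha.le
      _ = Real.pi / 2 := by field_simp
  have h5 : 0 ≤ a * x := by positivity
  rw [abs_le] at h3
  have hk0 : ∀ (k : ℤ) (y : ℝ), |y| ≤ Real.pi → 2 * (k:ℝ) * Real.pi = y → k = 0 := by
    intro k y hy hk
    by_contra hne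
    have h6 : (1:ℝ) ≤ |(k:ℝ)| := by
      have := Int.one_le_abs hne
      exact_mod_cast this
    rw [← hk, abs_mul, abs_mul, abs_two, abs_of_pos hpi] at hy
    nlinarith
  obtain ⟨k, hk⟩ := Complex.cos_eq_cos_iff.1 h1
  rcases hk with hk | hk
  · have h2 := congrArg re hk
    have e1 : ((a:ℂ) * x).re = a * x := by simp
    have e2 : (2 * (k:ℂ) * Real.pi + (a:ℂ) * zt a K q).re = 2 * (k:ℝ) * Real.pi + a * (zt a K q).re := by
      rw [add_re, re_ofReal_mul]
      congr 1
      have : 2 * (k:ℂ) * Real.pi = ((2 * (k:ℝ) * Real.pi : ℝ) : ℂ) := by push_cast; ring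
      rw [this, ofReal_re]
    rw [e1, e2] at h2
    have h6 := hk0 k (a * x - a * (zt a K q).re) (by rw [abs_le]; constructor <;> linarith) (by linarith)
    rw [h6] at hk
    left
    have h7 : (a:ℂ) * x = a * zt a K q := by simpa using hk
    exact (mul_left_cancel₀ hac h7).symm
  · have h2 := congrArg re hk
    have e1 : ((a:ℂ) * x).re = a * x := by simp
    have e2 : (2 * (k:ℂ) * Real.pi - (a:ℂ) * zt a K q).re = 2 * (k:ℝ) * Real.pi - a * (zt a K q).re := by
      rw [sub_re, re_ofReal_mul]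
      congr 1
      have : 2 * (k:ℂ) * Real.pi = ((2 * (k:ℝ) * Real.pi : ℝ) : ℂ) := by push_cast; ring
      rw [this, ofReal_re]
    rw [e1, e2] at h2
    have h6 := hk0 k (a * x + a * (zt a K q).re) (by rw [abs_le]; constructor <;> linarith) (by linarith)
    rw [h6] at hk
    right
    have h7 : (a:ℂ) * x = a * (-zt a K q) := by rw [hk]; push_cast; ring
    have h8 := mul_left_cancel₀ hac h7
    rw [h8, neg_neg]

end Pool.Agent.TH809.MZ
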