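import Mathlib
import Pool.Agent.TH809.MZ.Map

/-!
The Phragmén–Lindelöf argument on the slit strip.
-/

open Complex Filter Topology Set

namespace Pool.Agent.TH809.MZ

theorem norm_sin_sq (z : ℂ) : ‖sin z‖ ^ 2 = Real.sin z.re ^ 2 + Real.sinh z.im ^ 2 := by
  have h1 : (sin z).re = Real.sin z.re * Real.cosh z.im := by
    rw [Complex.sin_eq z]
    simp [← Complex.ofReal_cos, ← Complex.ofReal_cosh, ← Complex.ofReal_sin, ← Complex.ofReal_sinh]
  have h2 : (sin z).im = Real.cos z.re * Real.sinh z.im := by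
    rw [Complex.sin_eq z]
    simp [← Complex.ofReal_cos, ← Complex.ofReal_cosh, ← Complex.ofReal_sin, ← Complex.ofReal_sinh]
  rw [← normSq_eq_norm_sq, normSq_apply, h1, h2]
  have h3 := Real.cosh_sq z.im
  have h4 := Real.sin_sq_add_cos_sq z.re
  linear_combination (Real.sin z.re ^ 2) * h3 + (Real.sinh z.im ^ 2) * h4

theorem re_sin (z : ℂ) : (sin z).re = Real.sin z.re * Real.cosh z.im := by
  rw [Complex.sin_eq z]
  simp [← Complex.ofReal_cos, ← Complex.ofReal_cosh, ← Complex.ofReal_sin, ← Complex.ofReal_sinh]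

/-- the Blaschke factor of the strip -/
noncomputable def BB (q p : ℂ) : ℂ := sin (p - q) / sin (p + (starRingEnd ℂ) q)

theorem sin_add_ne {q : ℂ} (hq0 : 0 < q.re) (hq1 : q.re < Real.pi / 2) {p : ℂ} (h0 : 0 ≤ p.re)
    (h1 : p.re ≤ Real.pi / 2) : sin (p + (starRingEnd ℂ) q) ≠ 0 := by
  intro h
  have h2 := norm_sin_sq (p + (starRingEnd ℂ) q)
  rw [h, norm_zero] at h2
  have e : (p + (starRingEnd ℂ) q).re = p.re + q.re := by simp
  rw [e] at h2
  have h3 : 0 < Real.sin (p.re + q.re) := Real.sin_pos_of_pos_of_lt_pi (by linarith) (by linarith)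
  nlinarith [sq_nonneg (Real.sinh (p + (starRingEnd ℂ) q).im)]

theorem cos_sub_ne {q : ℂ} (hq0 : 0 < q.re) (hq1 : q.re < Real.pi / 2) {p : ℂ} (h0 : 0 ≤ p.re)
    (h1 : p.re ≤ Real.pi / 2) : cos ((p - q) / 2) ≠ 0 := by
  intro h
  have h2 := re_cos ((p - q) / 2)
  rw [h, zero_re] at h2
  have e : ((p - q) / 2).re = (p.re - q.re) / 2 := by
    have : (p - q) / 2 = ((1 / 2 : ℝ) : ℂ) * (p - q) := by push_cast; ring
    rw [this, re_ofReal_mul]
    simp
    ring
  rw [e] at h2
  have h3 : 0 < Real.cos ((p.re - q.re) / 2) := by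
    apply Real.cos_pos_of_mem_Ioo
    constructor <;> linarith
  have h4 := mul_pos h3 (Real.cosh_pos ((p - q) / 2).im)
  linarith

theorem BB_left (q : ℂ) {p : ℂ} (h : p.re = 0) : ‖sin (p - q)‖ = ‖sin (p + (starRingEnd ℂ) q)‖ := by
  have h1 := norm_sin_sq (p - q)
  have h2 := norm_sin_sq (p + (starRingEnd ℂ) q)
  have e1 : (p - q).re = -q.re := by simp [h]
  have e2 : (p + (starRingEnd ℂ) q).re = q.re := by simp [h]
  have e3 : (p - q).im = p.im - q.im := by simp
  have e4 : (p + (starRingEnd ℂ) q).im = p.im - q.im := by simp; ring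
  rw [e1, e3, Real.sin_neg, neg_sq] at h1
  rw [e2, e4] at h2
  rw [← h2] at h1
  exact (sq_eq_sq₀ (norm_nonneg _) (norm_nonneg _)).1 h1

theorem BB_right (q : ℂ) {p : ℂ} (h : p.re = Real.pi / 2) :
    ‖sin (p - q)‖ = ‖sin (p + (starRingEnd ℂ) q)‖ := by
  have h1 := norm_sin_sq (p - q)
  have h2 := norm_sin_sq (p + (starRingEnd ℂ) q)
  have e1 : (p - q).re = Real.pi / 2 - q.re := by simp [h]
  have e2 : (p + (starRingEnd ℂ) q).re = q.re + Real.pi / 2 := by simp [h]; ring
  have e3 : (p - q).im = p.im - q.im := by simp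
  have e4 : (p + (starRingEnd ℂ) q).im = p.im - q.im := by simp; ring
  rw [e1, e3, Real.sin_pi_div_two_sub] at h1
  rw [e2, e4, Real.sin_add_pi_div_two] at h2
  rw [← h2] at h1
  exact (sq_eq_sq₀ (norm_nonneg _) (norm_nonneg _)).1 h1

theorem BB_far (q : ℂ) {p : ℂ} (h : 1 + |q.im| ≤ |p.im|) :
    ‖sin (p + (starRingEnd ℂ) q)‖ ≤ 2 * ‖sin (p - q)‖ := by
  have h1 := norm_sin_sq (p - q)
  have h2 := norm_sin_sq (p + (starRingEnd ℂ) q)
  have e3 : (p - q).im = p.im - q.im := by simp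
  have e4 : (p + (starRingEnd ℂ) q).im = p.im - q.im := by simp; ring
  rw [e3] at h1
  rw [e4] at h2
  have h0 : 1 ≤ |p.im - q.im| := by
    have := abs_sub_abs_le_abs_sub p.im q.im
    linarith
  have h3 : 1 ≤ Real.sinh (p.im - q.im) ^ 2 := by
    have h4 : 1 ≤ |Real.sinh (p.im - q.im)| := by
      rw [Real.abs_sinh]
      have h5 : |p.im - q.im| ≤ Real.sinh |p.im - q.im| := Real.self_le_sinh_iff.2 (abs_nonneg _)
      linarith
    rw [← sq_abs]
    nlinarith
  have h5 := Real.sin_sq_le_one (p + (starRingEnd ℂ) q).re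
  have h6 := sq_nonneg (Real.sin (p - q).re)
  apply abs_le_of_sq_le_sq' _ (by positivity) |>.2
  rw [mul_pow]
  nlinarith

/-- the parameter of a zero -/
noncomputable def pp (a K : ℝ) (x : ℂ) : ℂ := (Real.pi / 2 : ℝ) - th (cos (a * x) / K)

/-- the zeros that we treat -/
def Good (a K : ℝ) (x : ℂ) : Prop := 0 < (cos (a * x)).re ∧ ((cos (a * x) / K) ^ 2).re < 1

theorem pp_facts {a K : ℝ} {x : ℂ} (hK : 1 < K) (hx : Good a K x) :
    0 < (pp a K x).re ∧ (pp a K x).re < Real.pi / 2 ∧ cos (pp a K x) = cos (a * x) / K := by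
  have hK0 : 0 < K := by linarith
  have h1 := abs_lt.1 (th_re hx.2)
  have e1 : (pp a K x).re = Real.pi / 2 - (th (cos (a * x) / K)).re := by
    unfold pp
    rw [sub_re, ofReal_re]
  have h2 : 0 < (th (cos (a * x) / K)).re := by
    have h3 := re_sin (th (cos (a * x) / K))
    rw [sin_th] at h3
    have h4 : 0 < (cos (a * x) / (K:ℂ)).re := by
      rw [div_ofReal_re]
      exact div_pos hx.1 hK0
    rw [h3] at h4
    have h5 : 0 < Real.sin (th (cos (a * x) / K)).re := pos_of_mul_pos_left h4 (Real.cosh_pos _).le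
    by_contra hc
    rw [not_lt] at hc
    have h6 := Real.sin_nonpos_of_nonpos_of_neg_pi_le hc (by linarith [Real.pi_pos])
    linarith
  refine ⟨by rw [e1]; linarith, by rw [e1]; linarith, ?_⟩
  unfold pp
  have e2 : (((Real.pi / 2 : ℝ)) : ℂ) = Real.pi / 2 := by push_cast; ring
  rw [e2, Complex.cos_pi_div_two_sub, sin_th]

theorem core {a K α β : ℝ} (ha : 0 < a) (hK : 1 < K) {E H : ℂ → ℂ}
    (hH : DifferentiableOn ℂ H {z | |z.re| < Real.pi / a})
    (hev : ∀ z : ℂ, |z.re| < Real.pi / a → H (-z) = H z) (S : Finset ℂ) (m : ℂ → ℕ)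
    (hS : ∀ x ∈ S, Good a K x)
    (hE : ∀ z : ℂ, |z.re| < Real.pi / a →
      E z = (∏ x ∈ S, (cos (a * z) - cos (a * x)) ^ m x) * H z)
    {B : ℝ} (hbd : ∀ z : ℂ, |z.re| ≤ Real.pi / (2 * a) → ‖E z‖ ≤ B)
    (h0 : ∀ z : ℂ, z.re = 0 → ‖E z‖ ≤ Real.exp α)
    (h1 : ∀ z : ℂ, |z.re| = Real.pi / (2 * a) → ‖E z‖ ≤ Real.exp (α + β * (Real.pi / 2)))
    {x0 q : ℝ} (hx0 : 0 ≤ x0) (hx1 : x0 ≤ Real.pi / (2 * a)) (hq0 : 0 ≤ q) (hq1 : q ≤ Real.pi / 2)
    (hq : Real.cos (a * x0) = K * Real.cos q) :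
    ‖E x0‖ ≤ (∏ x ∈ S, ‖BB (pp a K x) q‖ ^ m x) * Real.exp (α + β * q) := by
  classical
  have hpi := Real.pi_pos
  have hK0 : 0 < K := by linarith
  have hKc : (K:ℂ) ≠ 0 := by exact_mod_cast hK0.ne'
  have hpp := fun x hx => pp_facts (a := a) (K := K) (x := x) hK (hS x hx)
  have hB0 : 0 ≤ B := (norm_nonneg _).trans (hbd 0 (by simp; positivity))
  -- the function on the strip
  set F : ℂ → ℂ := fun p => (∏ x ∈ S, (-(K * sin ((p + pp a K x) / 2) *
    sin (p + (starRingEnd ℂ) (pp a K x)) / cos ((p - pp a K x) / 2))) ^ m x) * H (zt a K p) *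
    exp (-(α + β * p)) with hF
  have hstrip : ∀ p : ℂ, 0 ≤ p.re → p.re ≤ Real.pi / 2 → (uu K p).re < 1 := by
    intro p h0 h1
    have := uu_re hK0.le h0 h1
    linarith
  -- the relation with `E`
  have hrel : ∀ p : ℂ, 0 ≤ p.re → p.re ≤ Real.pi / 2 →
      E (zt a K p) = F p * (∏ x ∈ S, BB (pp a K x) p ^ m x) * exp (α + β * p) := by
    intro p h0 h1
    rw [hE _ (zt_re_lt ha (hstrip p h0 h1))]
    simp only [hF]
    have e1 : exp (-(α + β * p)) * exp (α + β * p) = 1 := by
      rw [← exp_add]; simp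
    have e2 : ∏ x ∈ S, (cos (a * zt a K p) - cos (a * x)) ^ m x =
        (∏ x ∈ S, (-(K * sin ((p + pp a K x) / 2) * sin (p + (starRingEnd ℂ) (pp a K x)) /
          cos ((p - pp a K x) / 2))) ^ m x) * (∏ x ∈ S, BB (pp a K x) p ^ m x) := by
      rw [← Finset.prod_mul_distrib]
      apply Finset.prod_congr rfl
      intro x hx
      rw [← mul_pow]
      congr 1
      obtain ⟨g1, g2, g3⟩ := hpp x hx
      have hne1 := sin_add_ne g1 g2 h0 h1
      have hne2 := cos_sub_ne g1 g2 h0 h1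
      have hcx : cos (a * x) = K * cos (pp a K x) := by
        rw [g3]; field_simp
      rw [cos_zt ha, hcx, ← mul_sub, Complex.cos_sub_cos]
      unfold BB
      have hs2 : sin (p - pp a K x) = 2 * sin ((p - pp a K x) / 2) * cos ((p - pp a K x) / 2) := by
        rw [← Complex.sin_two_mul]; congr 1; ring
      rw [hs2]
      field_simp
    rw [e2]
    calc _ = (∏ x ∈ S, (-(K * sin ((p + pp a K x) / 2) * sin (p + (starRingEnd ℂ) (pp a K x)) /
          cos ((p - pp a K x) / 2))) ^ m x) * (∏ x ∈ S, BB (pp a K x) p ^ m x) * H (zt a K p) *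
          (exp (-(α + β * p)) * exp (α + β * p)) := by rw [e1, mul_one]
      _ = _ := by ring
  have hexpn : ∀ p : ℂ, ‖exp (α + β * p)‖ = Real.exp (α + β * p.re) := by
    intro p
    rw [norm_exp]
    congr 1
    rw [add_re, ofReal_re, re_ofReal_mul]
  -- the norm relation on the boundary and far away
  have hnrel : ∀ p : ℂ, 0 ≤ p.re → p.re ≤ Real.pi / 2 →
      ‖E (zt a K p)‖ = ‖F p‖ * (∏ x ∈ S, ‖BB (pp a K x) p‖ ^ m x) * Real.exp (α + β * p.re) := by
    intro p h0 h1
    rw [hrel p h0 h1, norm_mul, norm_mul, norm_prod, hexpn]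
    simp only [norm_pow]
  have hBB1 : ∀ p : ℂ, 0 ≤ p.re → p.re ≤ Real.pi / 2 → (p.re = 0 ∨ p.re = Real.pi / 2) →
      ∏ x ∈ S, ‖BB (pp a K x) p‖ ^ m x = 1 := by
    intro p h0 h1 h
    apply Finset.prod_eq_one
    intro x hx
    obtain ⟨g1, g2, g3⟩ := hpp x hx
    have hne1 := sin_add_ne g1 g2 h0 h1
    have : ‖BB (pp a K x) p‖ = 1 := by
      unfold BB
      rw [norm_div]
      rcases h with h | h
      · rw [BB_left _ h]
        exact div_self (norm_ne_zero_iff.2 hne1)
      · rw [BB_right _ h]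
        exact div_self (norm_ne_zero_iff.2 hne1)
    rw [this, one_pow]
  have hleft : ∀ p : ℂ, p.re = 0 → ‖F p‖ ≤ 1 := by
    intro p hp
    have g := hnrel p (by rw [hp]) (by rw [hp]; positivity)
    rw [hBB1 p (by rw [hp]) (by rw [hp]; positivity) (Or.inl hp), mul_one, hp, mul_zero, add_zero] at g
    have g2 := h0 _ (zt_left ha hK hp)
    rw [g] at g2
    have g3 := Real.exp_pos α
    by_contra hc
    rw [not_le] at hc
    nlinarith
  have hright : ∀ p : ℂ, p.re = Real.pi / 2 → ‖F p‖ ≤ 1 := by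
    intro p hp
    have g := hnrel p (by rw [hp]; positivity) (by rw [hp])
    rw [hBB1 p (by rw [hp]; positivity) (by rw [hp]) (Or.inr hp), mul_one, hp] at g
    have g2 := h1 _ (zt_right ha hK0.le hp)
    rw [g] at g2
    have g3 := Real.exp_pos (α + β * (Real.pi / 2))
    by_contra hc
    rw [not_le] at hc
    nlinarith
  -- differentiability
  have hdiff : DifferentiableOn ℂ F (closure (re ⁻¹' Ioo 0 (Real.pi / 2))) := by
    have hcl : closure (re ⁻¹' Ioo 0 (Real.pi / 2)) ⊆ {p : ℂ | 0 ≤ p.re ∧ p.re ≤ Real.pi / 2} := by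
      apply closure_minimal
      · intro p hp
        exact ⟨hp.1.le, hp.2.le⟩
      · exact (isClosed_le continuous_const Complex.continuous_re).inter
          (isClosed_le Complex.continuous_re continuous_const)
    intro p hp
    obtain ⟨g0, g1⟩ := hcl hp
    apply DifferentiableAt.differentiableWithinAt
    simp only [hF]
    apply DifferentiableAt.mul
    · apply DifferentiableAt.mul
      · apply DifferentiableAt.fun_finsetProd
        intro x hx
        obtain ⟨k1, k2, k3⟩ := hpp x hx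
        have hne2 := cos_sub_ne k1 k2 g0 g1
        apply DifferentiableAt.pow
        apply DifferentiableAt.neg
        have d1 : DifferentiableAt ℂ (fun y : ℂ => K * sin ((y + pp a K x) / 2) *
            sin (y + (starRingEnd ℂ) (pp a K x))) p := by
          fun_prop
        have d2 : DifferentiableAt ℂ (fun y : ℂ => cos ((y - pp a K x) / 2)) p := by fun_prop
        exact d1.fun_div d2 hne2
      · apply (hat_diff (K := K) ha hH hev).differentiableAt
        have hO : IsOpen {p : ℂ | (uu K p).re < 1} := by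
          apply isOpen_lt _ continuous_const
          apply Complex.continuous_re.comp
          unfold uu
          fun_prop
        exact hO.mem_nhds (hstrip p g0 g1)
    · fun_prop
  -- growth
  set M : ℝ := B * 2 ^ (∑ x ∈ S, m x) * Real.exp (|α| + |β| * (Real.pi / 2)) with hM
  set V : ℝ := ∑ x ∈ S, |(pp a K x).im| with hV
  have hVx : ∀ x ∈ S, |(pp a K x).im| ≤ V := fun x hx =>
    Finset.single_le_sum (f := fun x => |(pp a K x).im|) (fun _ _ => abs_nonneg _) hx
  have hgrow : ∀ p : ℂ, p.re ∈ Ioo 0 (Real.pi / 2) → 1 + V ≤ |p.im| → ‖F p‖ ≤ M := by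
    intro p hp him
    have g := hnrel p hp.1.le hp.2.le
    have g2 := hbd _ (zt_re_le ha hK0.le hp.1.le hp.2.le)
    rw [g] at g2
    have g3 : (1 / 2 : ℝ) ^ (∑ x ∈ S, m x) ≤ ∏ x ∈ S, ‖BB (pp a K x) p‖ ^ m x := by
      rw [← Finset.prod_pow_eq_pow_sum]
      apply Finset.prod_le_prod (fun _ _ => by positivity)
      intro x hx
      obtain ⟨k1, k2, k3⟩ := hpp x hx
      have hne1 := sin_add_ne k1 k2 hp.1.le hp.2.le
      apply pow_le_pow_left₀ (by norm_num)
      unfold BB
      rw [norm_div, le_div_iff₀ (norm_pos_iff.2 hne1)]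
      linarith [BB_far (pp a K x) (p := p) (by linarith [hVx x hx])]
    have g4 : Real.exp (-(|α| + |β| * (Real.pi / 2))) ≤ Real.exp (α + β * p.re) := by
      apply Real.exp_le_exp.2
      have k1 := neg_abs_le α
      have k2 : -(|β| * (Real.pi / 2)) ≤ β * p.re := by
        have k3 : |β * p.re| ≤ |β| * (Real.pi / 2) := by
          rw [abs_mul, abs_of_pos hp.1]
          exact mul_le_mul_of_nonneg_left hp.2.le (abs_nonneg _)
        linarith [neg_abs_le (β * p.re)]
      linarith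
    have g5 : ‖F p‖ * (1 / 2 : ℝ) ^ (∑ x ∈ S, m x) * Real.exp (-(|α| + |β| * (Real.pi / 2))) ≤ B := by
      refine le_trans ?_ g2
      apply mul_le_mul _ g4 (by positivity) (by positivity)
      exact mul_le_mul_of_nonneg_left g3 (norm_nonneg _)
    rw [Real.exp_neg, one_div, inv_pow] at g5
    rw [hM]
    have k1 : 0 < (2:ℝ) ^ (∑ x ∈ S, m x) := by positivity
    have k2 := Real.exp_pos (|α| + |β| * (Real.pi / 2))
    rw [← div_eq_mul_inv, ← div_eq_mul_inv, div_le_iff₀ k2, div_le_iff₀ k1] at g5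
    linarith
  have hPL : ‖F q‖ ≤ 1 := by
    apply PhragmenLindelof.vertical_strip (a := 0) (b := Real.pi / 2) hdiff.diffContOnCl
      ⟨0, by rw [sub_zero]; positivity, 0, ?_⟩ hleft hright (by simpa using hq0) (by simpa using hq1)
    apply Asymptotics.IsBigO.of_bound M
    rw [Filter.eventually_inf_principal]
    have hev2 : ∀ᶠ z : ℂ in comap (_root_.abs ∘ im) atTop, 1 + V ≤ |z.im| :=
      Filter.tendsto_comap.eventually (eventually_ge_atTop (1 + V))
    filter_upwards [hev2] with z hz hz2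
    have := hgrow z hz2 hz
    simpa using this
  have hfin := hnrel q (by simpa using hq0) (by simpa using hq1)
  have hz : ‖E (zt a K q)‖ = ‖E x0‖ := by
    rcases zt_eval ha hK0.le hx0 hx1 hq0 hq1 hq with h | h
    · rw [h]
    · rw [h]
      have hlt : |x0| < Real.pi / a := by
        rw [abs_of_nonneg hx0]
        refine lt_of_le_of_lt hx1 ?_
        apply div_lt_div_of_pos_left hpi ha
        linarith
      have hlt1 : |(x0 : ℂ).re| < Real.pi / a := by simpa using hlt
      have hlt2 : |(-(x0 : ℂ)).re| < Real.pi / a := by simpa using hlt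
      rw [hE _ hlt2, hE _ hlt1, hev _ hlt1]
      have e3 : cos ((a:ℂ) * -(x0:ℂ)) = cos ((a:ℂ) * (x0:ℂ)) := by rw [mul_neg, Complex.cos_neg]
      rw [e3]
  rw [← hz, hfin]
  have e1 : ((q:ℂ)).re = q := by simp
  rw [e1]
  apply mul_le_mul_of_nonneg_right _ (Real.exp_pos _).le
  calc ‖F q‖ * (∏ x ∈ S, ‖BB (pp a K x) q‖ ^ m x) ≤ 1 * (∏ x ∈ S, ‖BB (pp a K x) q‖ ^ m x) :=
        mul_le_mul_of_nonneg_right hPL (Finset.prod_nonneg fun _ _ => by positivity)
    _ = _ := one_mul _

end Pool.Agent.TH809.MZ
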