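import Mathlib
import Pool.Agent.TH809.MZ.PL
import Pool.Agent.W469.RT.JenA

/-!
The number of real zeros of an entire function with the growth of an L-function.
-/

open Complex Filter Topology Set

namespace Pool.Agent.TH809.MZ

/-- `sin w / w` -/
noncomputable def DD : ℂ → ℂ := dslope sin 0

theorem DD_mul (w : ℂ) : w * DD w = sin w := by
  have := sub_smul_dslope sin 0 w
  rw [sub_zero, sin_zero, sub_zero, smul_eq_mul] at this
  exact this

theorem DD_diff : Differentiable ℂ DD := by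
  have h : DifferentiableOn ℂ DD Set.univ := by
    unfold DD
    rw [Complex.differentiableOn_dslope (by simp)]
    exact Complex.differentiable_sin.differentiableOn
  exact differentiableOn_univ.1 h

theorem DD_ne {w : ℂ} (hw : |w.re| < Real.pi) : DD w ≠ 0 := by
  intro h
  by_cases h0 : w = 0
  · subst h0
    have : DD 0 = 1 := by
      unfold DD
      rw [dslope_same]
      simp
    rw [h] at this
    exact zero_ne_one this
  · have h1 := DD_mul w
    rw [h, mul_zero] at h1
    have h2 := norm_sin_sq w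
    rw [← h1, norm_zero] at h2
    have h3 : Real.sin w.re = 0 := by nlinarith [sq_nonneg (Real.sinh w.im), sq_nonneg (Real.sin w.re)]
    have h4 : Real.sinh w.im = 0 := by nlinarith [sq_nonneg (Real.sinh w.im), sq_nonneg (Real.sin w.re)]
    have h5 : w.im = 0 := Real.sinh_eq_zero.1 h4
    have h6 : w.re = 0 :=
      (Real.sin_eq_zero_iff_of_lt_of_lt (neg_lt_of_abs_lt hw) (lt_of_abs_lt hw)).1 h3
    exact h0 (Complex.ext h6 h5)

theorem exp_ratio {r : ℝ} (h0 : 0 ≤ r) (h1 : r < 1) : (1 - r) / (1 + r) ≤ Real.exp (-(2 * r)) := by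
  have h2 := Real.hasSum_log_sub_log_of_abs_lt_one (by rw [abs_of_nonneg h0]; exact h1 : |r| < 1)
  have h3 := le_hasSum h2 0 (fun k _ => by positivity)
  simp at h3
  have h4 : (0:ℝ) < 1 - r := by linarith
  have h5 : (0:ℝ) < 1 + r := by linarith
  rw [div_le_iff₀ h5, ← Real.log_le_log_iff h4 (by positivity), Real.log_mul (by positivity) h5.ne',
    Real.log_exp]
  linarith

/-- the parameter of a real zero is real -/
theorem pp_real {a K x : ℝ} (hK : 1 < K) (hx : 0 < Real.cos (a * x)) : Good a K x ∧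
    ∃ r : ℝ, pp a K x = r ∧ 0 < r ∧ r < Real.pi / 2 ∧ Real.cos r = Real.cos (a * x) / K := by
  have hK0 : 0 < K := by linarith
  have e1 : cos ((a:ℂ) * (x:ℂ)) = ((Real.cos (a * x) : ℝ) : ℂ) := by push_cast; rfl
  have e2 : cos ((a:ℂ) * (x:ℂ)) / (K:ℂ) = ((Real.cos (a * x) / K : ℝ) : ℂ) := by
    rw [e1]; push_cast; rfl
  have hlt : Real.cos (a * x) / K < 1 := by
    rw [div_lt_one hK0]
    linarith [Real.cos_le_one (a * x)]
  have h0 : 0 < Real.cos (a * x) / K := by positivity
  have hg : Good a K x := by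
    refine ⟨by rw [e1]; exact hx, ?_⟩
    rw [e2, ← ofReal_pow, ofReal_re]
    nlinarith
  obtain ⟨g1, g2, g3⟩ := pp_facts hK hg
  have him : (pp a K x).im = 0 := by
    have h3 := congrArg im g3
    rw [im_cos, e2, ofReal_im, neg_eq_zero] at h3
    rcases mul_eq_zero.1 h3 with h | h
    · have := Real.sin_pos_of_pos_of_lt_pi g1 (by linarith [Real.pi_pos])
      linarith
    · exact Real.sinh_eq_zero.1 h
  refine ⟨hg, (pp a K x).re, ?_, g1, g2, ?_⟩
  · apply Complex.ext
    · simp
    · simp [him]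
  · have h3 := congrArg re g3
    rw [re_cos, him, Real.cosh_zero, mul_one, e2, ofReal_re] at h3
    exact h3

/-- the value of a Blaschke factor -/
theorem BB_value {a K x x0 q : ℝ} (hK : 1 < K) (hx : 0 < Real.cos (a * x))
    (h0 : 0 < Real.cos (a * x0)) (hlt : Real.cos (a * x0) < Real.cos (a * x)) (hq0 : 0 < q)
    (hq1 : q < Real.pi / 2) (hq : Real.cos (a * x0) = K * Real.cos q) :
    ‖BB (pp a K x) q‖ ≤ Real.exp (-(2 * (Real.cos (a * x0) * Real.sqrt (1 - (1 / K) ^ 2)))) := by
  have hK0 : 0 < K := by linarith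
  obtain ⟨_, p, hp, g1, g2, g3⟩ := pp_real hK hx
  rw [hp]
  have hcq : Real.cos q = Real.cos (a * x0) / K := by rw [hq]; field_simp
  have hcqlt : Real.cos q < Real.cos p := by
    rw [hcq, g3]
    exact div_lt_div_of_pos_right hlt hK0
  have hpq : p < q := by
    by_contra hc
    rw [not_lt] at hc
    have := Real.cos_le_cos_of_nonneg_of_le_pi hq0.le (by linarith) hc
    linarith
  have hsq : 0 < Real.sin q := Real.sin_pos_of_pos_of_lt_pi hq0 (by linarith [Real.pi_pos])
  have hsp : 0 < Real.sin p := Real.sin_pos_of_pos_of_lt_pi g1 (by linarith [Real.pi_pos])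
  have hcp : 0 < Real.cos p := by rw [g3]; positivity
  have hcq0 : 0 < Real.cos q := by rw [hcq]; positivity
  have hs : 0 < Real.sin (q - p) := Real.sin_pos_of_pos_of_lt_pi (by linarith) (by linarith [Real.pi_pos])
  have hs2 : 0 < Real.sin (q + p) := Real.sin_pos_of_pos_of_lt_pi (by linarith) (by linarith)
  set r : ℝ := Real.cos q * Real.sin p / (Real.sin q * Real.cos p) with hr
  have hr0 : 0 ≤ r := by positivity
  have hd : 0 < Real.sin q * Real.cos p := by positivity
  have hr1 : r < 1 := by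
    rw [hr, div_lt_one hd]
    rw [Real.sin_sub] at hs
    linarith
  have hval : ‖BB p q‖ = (1 - r) / (1 + r) := by
    unfold BB
    have e1 : sin ((q:ℂ) - p) = ((Real.sin (q - p) : ℝ) : ℂ) := by push_cast; rfl
    have e2 : sin ((q:ℂ) + (starRingEnd ℂ) p) = ((Real.sin (q + p) : ℝ) : ℂ) := by
      rw [conj_ofReal]; push_cast; rfl
    rw [e1, e2, norm_div, Complex.norm_real, Complex.norm_real, Real.norm_eq_abs, Real.norm_eq_abs,
      abs_of_pos hs, abs_of_pos hs2, Real.sin_sub, Real.sin_add, hr]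
    have hcp' := hcp.ne'
    have hsq' := hsq.ne'
    have e3 : 1 + Real.cos q * Real.sin p / (Real.sin q * Real.cos p) =
        (Real.sin q * Real.cos p + Real.cos q * Real.sin p) / (Real.sin q * Real.cos p) := by
      field_simp
    have e4 : 1 - Real.cos q * Real.sin p / (Real.sin q * Real.cos p) =
        (Real.sin q * Real.cos p - Real.cos q * Real.sin p) / (Real.sin q * Real.cos p) := by
      field_simp
    rw [e3, e4, div_div_div_cancel_right₀ hd.ne']
  rw [hval]
  refine (exp_ratio hr0 hr1).trans ?_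
  apply Real.exp_le_exp.2
  have hcos1 : Real.cos p ≤ 1 / K := by
    rw [g3]
    exact div_le_div_of_nonneg_right (Real.cos_le_one _) hK0.le
  have hsin1 : Real.sqrt (1 - (1 / K) ^ 2) ≤ Real.sin p := by
    apply Real.sqrt_le_iff.2
    refine ⟨hsp.le, ?_⟩
    have := Real.sin_sq_add_cos_sq p
    have h2 : Real.cos p ^ 2 ≤ (1 / K) ^ 2 := pow_le_pow_left₀ hcp.le hcos1 2
    linarith
  have hrge : Real.cos (a * x0) * Real.sqrt (1 - (1 / K) ^ 2) ≤ r := by
    rw [hr, le_div_iff₀ hd]
    have h3 : Real.sin q * Real.cos p ≤ 1 * (1 / K) :=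
      mul_le_mul (Real.sin_le_one q) hcos1 hcp.le (by norm_num)
    calc Real.cos (a * x0) * Real.sqrt (1 - (1 / K) ^ 2) * (Real.sin q * Real.cos p)
        ≤ Real.cos (a * x0) * Real.sin p * (1 * (1 / K)) := by
          apply mul_le_mul _ h3 hd.le (by positivity)
          exact mul_le_mul_of_nonneg_left hsin1 h0.le
      _ = Real.cos q * Real.sin p := by rw [hcq]; ring
  linarith

/-- near the real axis the Blaschke factors are not much larger -/
theorem tube {a K x0 q R' : ℝ} (hK : 1 < K) (ha0 : 0 < a) (hx0 : 1 / 2 < x0)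
    (hax : a * x0 < Real.pi / 2) (hq0 : 0 < q)
    (hq1 : q < Real.pi / 2) (hq : Real.cos (a * x0) = K * Real.cos q)
    (hR : R' < Real.cos (a * x0) * Real.sqrt (1 - (1 / K) ^ 2)) :
    ∃ h : ℝ, 0 < h ∧ ∀ x : ℂ, |x.re| ≤ 1 / 2 → |x.im| ≤ h →
      Good a K x ∧ ‖BB (pp a K x) q‖ ≤ Real.exp (-(2 * R')) := by
  have hK0 : 0 < K := by linarith
  have hKc : (K:ℂ) ≠ 0 := by exact_mod_cast hK0.ne'
  have hO : IsOpen {x : ℂ | Good a K x} := by
    have h1 : IsOpen {x : ℂ | 0 < (cos (a * x)).re} :=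
      isOpen_lt continuous_const (Complex.continuous_re.comp (by fun_prop))
    have h2 : IsOpen {x : ℂ | ((cos (a * x) / K) ^ 2).re < 1} :=
      isOpen_lt (Complex.continuous_re.comp (by fun_prop)) continuous_const
    exact h1.inter h2
  have hcont : ContinuousOn (fun x : ℂ => ‖BB (pp a K x) q‖) {x : ℂ | Good a K x} := by
    intro x hx
    obtain ⟨g1, g2, g3⟩ := pp_facts hK hx
    have hne := sin_add_ne (q := pp a K x) g1 g2 (p := (q:ℂ)) (by simpa using hq0.le)
      (by simpa using hq1.le)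
    have hpc : ContinuousAt (pp a K) x := by
      unfold pp
      apply ContinuousAt.sub continuousAt_const
      have h3 : ContinuousAt th (cos (a * x) / K) := by
        apply (th_diff.differentiableAt _).continuousAt
        have h4 : IsOpen {t : ℂ | (t ^ 2).re < 1} :=
          isOpen_lt (Complex.continuous_re.comp (continuous_pow 2)) continuous_const
        exact h4.mem_nhds hx.2
      exact ContinuousAt.comp (g := th) (f := fun x : ℂ => cos (a * x) / K) h3 (by fun_prop)
    apply ContinuousAt.continuousWithinAt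
    apply ContinuousAt.norm
    unfold BB
    have d1 : ContinuousAt (fun x : ℂ => sin ((q:ℂ) - pp a K x)) x :=
      ContinuousAt.comp (g := sin) (f := fun x : ℂ => (q:ℂ) - pp a K x)
        Complex.continuous_sin.continuousAt (continuousAt_const.sub hpc)
    have d2 : ContinuousAt (fun x : ℂ => sin ((q:ℂ) + (starRingEnd ℂ) (pp a K x))) x :=
      ContinuousAt.comp (g := sin) (f := fun x : ℂ => (q:ℂ) + (starRingEnd ℂ) (pp a K x))
        Complex.continuous_sin.continuousAt
        (continuousAt_const.add (ContinuousAt.comp (g := starRingEnd ℂ) (f := pp a K)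
          Complex.continuous_conj.continuousAt hpc))
    exact ContinuousAt.div (f := fun x : ℂ => sin ((q:ℂ) - pp a K x)) d1 d2 hne
  have hU : IsOpen ({x : ℂ | Good a K x} ∩ (fun x : ℂ => ‖BB (pp a K x) q‖) ⁻¹'
      (Iio (Real.exp (-(2 * R'))))) := hcont.isOpen_inter_preimage hO isOpen_Iio
  have hcomp : IsCompact ((fun x : ℝ => (x:ℂ)) '' Icc (-(1 / 2)) (1 / 2)) :=
    isCompact_Icc.image Complex.continuous_ofReal
  have hcos0 : 0 < Real.cos (a * x0) := by
    apply Real.cos_pos_of_mem_Ioo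
    constructor
    · have : 0 < a * x0 := by positivity
      linarith [Real.pi_pos]
    · exact hax
  have hsub : (fun x : ℝ => (x:ℂ)) '' Icc (-(1 / 2)) (1 / 2) ⊆
      {x : ℂ | Good a K x} ∩ (fun x : ℂ => ‖BB (pp a K x) q‖) ⁻¹' (Iio (Real.exp (-(2 * R')))) := by
    rintro _ ⟨x, hx, rfl⟩
    have hxa : |x| ≤ 1 / 2 := abs_le.2 hx
    have h5 : a * |x| < a * x0 := by
      apply mul_lt_mul_of_pos_left _ ha0
      linarith
    have h6 : Real.cos (a * x0) < Real.cos (a * x) := by
      rw [← Real.cos_abs (a * x), abs_mul, abs_of_pos ha0]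
      exact Real.cos_lt_cos_of_nonneg_of_le_pi (by positivity) (by linarith [Real.pi_pos]) h5
    have hx0' : 0 < Real.cos (a * x) := hcos0.trans h6
    refine ⟨(pp_real hK hx0').1, ?_⟩
    show ‖BB (pp a K x) q‖ < Real.exp (-(2 * R'))
    refine (BB_value hK hx0' hcos0 h6 hq0 hq1 hq).trans_lt ?_
    apply Real.exp_lt_exp.2
    linarith
  obtain ⟨r, hr, hthick⟩ := hcomp.exists_thickening_subset_open hU hsub
  refine ⟨r / 2, by positivity, fun x hx1 hx2 => ?_⟩
  have hmem : x ∈ Metric.thickening r ((fun x : ℝ => (x:ℂ)) '' Icc (-(1 / 2)) (1 / 2)) := by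
    rw [Metric.mem_thickening_iff]
    refine ⟨(x.re : ℂ), ⟨x.re, abs_le.1 hx1, rfl⟩, ?_⟩
    rw [dist_eq_norm]
    have e : x - (x.re : ℂ) = x.im * I := by
      apply Complex.ext <;> simp
    rw [e, norm_mul, Complex.norm_real, norm_I, mul_one, Real.norm_eq_abs]
    linarith
  have h7 := hthick hmem
  exact ⟨h7.1, le_of_lt h7.2⟩

/-- **Main inequality.** -/
theorem mult_bound {K κ δ ε A Q R' : ℝ} (hK : 1 < K) (hδ : 0 < δ) (hδ1 : δ ≤ 1 / 4) (hκ : κ ≤ 1 / 2 + δ)
    (hε : 0 ≤ ε) (hA : 1 ≤ A) (hQ : 1 ≤ Q) {f : ℂ → ℂ} (hf : Differentiable ℂ f) {S : Finset ℂ}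
    (hS : ∀ x ∈ S, |x.re| ≤ 1 / 2 ∧ Good (Real.pi / (2 * (1 / 2 + δ))) K x ∧
      ‖BB (pp (Real.pi / (2 * (1 / 2 + δ))) K x)
        (Real.arccos (Real.sin (Real.pi * δ / (2 * (1 + 2 * δ))) / K) : ℝ)‖ ≤ Real.exp (-(2 * R'))) {B : ℝ} (hb : ∀ z : ℂ, |z.re| ≤ 1 / 2 + δ → ‖f z‖ ≤ B)
    (h0 : ∀ z : ℂ, z.re = 0 → ‖f z‖ * ‖f (-z)‖ ≤ A * Q ^ κ)
    (h1 : ∀ z : ℂ, z.re = 1 / 2 + δ → ‖f z‖ * ‖f (-z)‖ ≤ A * Q ^ (1 / 2 + δ + ε))
    (h2 : A⁻¹ * Q ^ (1 / 2 + δ / 2 - ε) ≤
      ‖f ((1 / 2 + δ / 2 : ℝ) : ℂ)‖ * ‖f (-((1 / 2 + δ / 2 : ℝ) : ℂ))‖) :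
    2 * (∑ x ∈ S, (analyticOrderNatAt f x : ℝ)) * R' ≤
      2 * Real.log A + Real.log Q * (δ / 2 + 2 * ε - (1 / 2 + δ - κ) * (2 / Real.pi) *
        (Real.sin (Real.pi * δ / (2 * (1 + 2 * δ))) / K)) := by
  classical
  have hpi := Real.pi_pos
  have hK0 : 0 < K := by linarith
  set b : ℝ := 1 / 2 + δ with hbdef
  set a : ℝ := Real.pi / (2 * b) with ha
  set x0 : ℝ := 1 / 2 + δ / 2 with hx0
  have hb0 : 0 < b := by positivity
  have ha0 : 0 < a := by positivity
  have hab : Real.pi / (2 * a) = b := by rw [ha]; field_simp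
  have hab2 : Real.pi / a = 2 * b := by rw [ha]; field_simp
  have haπ : a < Real.pi := by
    rw [ha, div_lt_iff₀ (by positivity)]
    nlinarith
  set η : ℝ := Real.sin (Real.pi * δ / (2 * (1 + 2 * δ))) with hη
  have hηeq : Real.cos (a * x0) = η := by
    rw [hη, ← Real.cos_pi_div_two_sub]
    congr 1
    rw [ha, hx0, hbdef]
    have : (1 + 2 * δ) ≠ 0 := by positivity
    field_simp
    ring
  have hy1 : Real.pi * δ / (2 * (1 + 2 * δ)) < Real.pi := by
    rw [div_lt_iff₀ (by positivity)]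
    nlinarith
  have hη0 : 0 < η := Real.sin_pos_of_pos_of_lt_pi (by positivity) hy1
  have hη1 : η ≤ 1 := Real.sin_le_one _
  set q : ℝ := Real.arccos (η / K) with hq
  have hηK0 : 0 < η / K := by positivity
  have hηK1 : η / K < 1 := by rw [div_lt_one hK0]; linarith
  have hcq : Real.cos q = η / K := Real.cos_arccos (by linarith) hηK1.le
  have hq0 : 0 < q := Real.arccos_pos.2 hηK1
  have hq1 : q < Real.pi / 2 := Real.arccos_lt_pi_div_two.2 hηK0
  have hqK : Real.cos (a * x0) = K * Real.cos q := by rw [hcq, hηeq]; field_simp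
  have hqle : q ≤ Real.pi / 2 - η / K := by
    rw [hq, Real.arccos_eq_pi_div_two_sub_arcsin]
    have h3 : η / K ≤ Real.arcsin (η / K) := by
      have h4 := Real.sin_arcsin (by linarith : -1 ≤ η / K) hηK1.le
      have h5 := Real.sin_le (Real.arcsin_nonneg.2 hηK0.le)
      rw [h4] at h5
      exact h5
    linarith
  -- factorization
  obtain ⟨h, hhd, hfac2⟩ := Pool.Agent.W469.RT.Jen.factor hf S
  set m : ℂ → ℕ := fun x => analyticOrderNatAt f x with hm
  set g : ℂ → ℂ := fun z => h z / ∏ x ∈ S, ((a / 2 : ℝ) * DD ((a / 2 : ℝ) * (z - x))) ^ m x with hg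
  have hDne : ∀ z : ℂ, |z.re| < Real.pi / a → ∀ x ∈ S,
      ((a / 2 : ℝ) : ℂ) * DD ((a / 2 : ℝ) * (z - x)) ≠ 0 := by
    intro z hz x hx
    apply mul_ne_zero
    · exact_mod_cast (by positivity : (a / 2 : ℝ) ≠ 0)
    · apply DD_ne
      rw [re_ofReal_mul, sub_re, abs_mul, abs_of_pos (by positivity : (0:ℝ) < a / 2)]
      have h3 : |z.re - x.re| ≤ |z.re| + |x.re| := abs_sub _ _
      have h4 := (hS x hx).1
      have h5 : a / 2 * |z.re - x.re| < a / 2 * (Real.pi / a + 1 / 2) := by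
        apply mul_lt_mul_of_pos_left _ (by positivity)
        linarith
      have h6 : a / 2 * (Real.pi / a + 1 / 2) = Real.pi / 2 + a / 4 := by field_simp; ring
      linarith
  have hPne : ∀ z : ℂ, |z.re| < Real.pi / a →
      ∏ x ∈ S, (((a / 2 : ℝ) : ℂ) * DD ((a / 2 : ℝ) * (z - x))) ^ m x ≠ 0 := by
    intro z hz
    exact Finset.prod_ne_zero_iff.2 fun x hx => pow_ne_zero _ (hDne z hz x hx)
  have hfg : ∀ z : ℂ, |z.re| < Real.pi / a →
      f z = (∏ x ∈ S, sin ((a / 2 : ℝ) * (z - x)) ^ m x) * g z := by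
    intro z hz
    have e1 : ∏ x ∈ S, sin ((a / 2 : ℝ) * (z - x)) ^ m x =
        (∏ x ∈ S, (z - x) ^ m x) *
          ∏ x ∈ S, (((a / 2 : ℝ) : ℂ) * DD ((a / 2 : ℝ) * (z - x))) ^ m x := by
      rw [← Finset.prod_mul_distrib]
      apply Finset.prod_congr rfl
      intro x _
      rw [← mul_pow, ← DD_mul]
      congr 1
      ring
    rw [e1, hfac2 z]
    simp only [hg]
    have := hPne z hz
    rw [mul_div_assoc', eq_div_iff this]
    ring
  have hgd : DifferentiableOn ℂ g {z | |z.re| < Real.pi / a} := by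
    intro z hz
    apply DifferentiableAt.differentiableWithinAt
    have d1 : DifferentiableAt ℂ h z := hhd z
    have d2 : DifferentiableAt ℂ
        (fun z : ℂ => ∏ x ∈ S, (((a / 2 : ℝ) : ℂ) * DD ((a / 2 : ℝ) * (z - x))) ^ m x) z := by
      apply DifferentiableAt.fun_finsetProd
      intro x _
      apply DifferentiableAt.pow
      apply DifferentiableAt.const_mul
      exact DifferentiableAt.comp (g := DD) (f := fun z : ℂ => ((a / 2 : ℝ) : ℂ) * (z - x)) z
        (DD_diff _) (by fun_prop)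
    exact d1.fun_div d2 (hPne z hz)
  set H : ℂ → ℂ := fun z => (∏ x ∈ S, ((1 / 2 : ℂ)) ^ m x) * (g z * g (-z)) with hH
  have hHd : DifferentiableOn ℂ H {z | |z.re| < Real.pi / a} := by
    have hopen : IsOpen {z : ℂ | |z.re| < Real.pi / a} :=
      isOpen_lt (Complex.continuous_re.abs) continuous_const
    intro z hz
    apply DifferentiableAt.differentiableWithinAt
    have d1 : DifferentiableAt ℂ g z := hgd.differentiableAt (hopen.mem_nhds hz)
    have hz' : -z ∈ {z : ℂ | |z.re| < Real.pi / a} := by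
      show |(-z).re| < Real.pi / a
      rw [neg_re, abs_neg]
      exact hz
    have d2 : DifferentiableAt ℂ g (-z) := hgd.differentiableAt (hopen.mem_nhds hz')
    have d3 : DifferentiableAt ℂ (fun z => g (-z)) z :=
      DifferentiableAt.comp (g := g) (f := fun z : ℂ => -z) z d2 (by fun_prop)
    exact (d1.mul d3).const_mul _
  have hHev : ∀ z : ℂ, |z.re| < Real.pi / a → H (-z) = H z := by
    intro z _
    simp only [hH, neg_neg]
    ring
  set E : ℂ → ℂ := fun z => f z * f (-z) with hE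
  have hEH : ∀ z : ℂ, |z.re| < Real.pi / a →
      E z = (∏ x ∈ S, (cos (a * z) - cos (a * x)) ^ m x) * H z := by
    intro z hz
    have hz' : |(-z).re| < Real.pi / a := by rw [neg_re, abs_neg]; exact hz
    simp only [hE, hH]
    rw [hfg z hz, hfg (-z) hz']
    have e1 : (∏ x ∈ S, sin ((a / 2 : ℝ) * (z - x)) ^ m x) *
        (∏ x ∈ S, sin ((a / 2 : ℝ) * (-z - x)) ^ m x) =
        (∏ x ∈ S, (cos (a * z) - cos (a * x)) ^ m x) * ∏ x ∈ S, ((1 / 2 : ℂ)) ^ m x := by
      rw [← Finset.prod_mul_distrib, ← Finset.prod_mul_distrib]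
      apply Finset.prod_congr rfl
      intro x _
      rw [← mul_pow, ← mul_pow]
      congr 1
      rw [Complex.cos_sub_cos]
      have e2 : ((a / 2 : ℝ) : ℂ) * (-z - x) = -((a * z + a * x) / 2) := by push_cast; ring
      have e3 : ((a / 2 : ℝ) : ℂ) * (z - x) = (a * z - a * x) / 2 := by push_cast; ring
      rw [e2, e3, Complex.sin_neg]
      ring
    calc _ = ((∏ x ∈ S, sin ((a / 2 : ℝ) * (z - x)) ^ m x) *
        (∏ x ∈ S, sin ((a / 2 : ℝ) * (-z - x)) ^ m x)) * (g z * g (-z)) := by ring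
      _ = _ := by rw [e1]; ring
  have hA0 : 0 < A := by linarith
  have hQ0 : 0 < Q := by linarith
  have hQpow : ∀ s : ℝ, A * Q ^ s = Real.exp (Real.log A + s * Real.log Q) := by
    intro s
    rw [Real.exp_add, Real.exp_log hA0, Real.rpow_def_of_pos hQ0, mul_comm s]
  have hB0 : 0 ≤ B := (norm_nonneg _).trans (hb 0 (by simp; positivity))
  set l : ℝ := Real.log Q with hl
  have hl0 : 0 ≤ l := Real.log_nonneg hQ
  set α : ℝ := Real.log A + κ * l with hα
  set β : ℝ := (b + ε - κ) * l * (2 / Real.pi) with hβ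
  have hcore := core (a := a) (K := K) (α := α) (β := β) ha0 hK hHd hHev S m
    (fun x hx => (hS x hx).2.1) hEH (B := B * B)
    (by
      intro z hz
      rw [hab] at hz
      simp only [hE, norm_mul]
      apply mul_le_mul (hb z hz) (hb (-z) (by rw [neg_re, abs_neg]; exact hz)) (norm_nonneg _) hB0)
    (by
      intro z hz
      simp only [hE, norm_mul]
      have := h0 z hz
      rw [hQpow] at this
      exact this)
    (by
      intro z hz
      rw [hab] at hz
      simp only [hE, norm_mul]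
      have e1 : α + β * (Real.pi / 2) = Real.log A + (1 / 2 + δ + ε) * Real.log Q := by
        rw [hα, hβ, ← hl, hbdef]
        field_simp
        ring
      rw [e1, ← hQpow]
      rcases abs_eq hb0.le |>.1 hz with h3 | h3
      · exact h1 z h3
      · have h4 := h1 (-z) (by rw [neg_re, h3, neg_neg])
        rw [neg_neg, mul_comm] at h4
        exact h4)
    (x0 := x0) (q := q) (by positivity) (by rw [hab, hx0, hbdef]; linarith) hq0.le hq1.le hqK
  -- lower bound
  have hlow : Real.exp (-Real.log A + (1 / 2 + δ / 2 - ε) * l) ≤ ‖E x0‖ := by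
    simp only [hE, norm_mul]
    refine le_trans (le_of_eq ?_) h2
    rw [Real.exp_add, Real.exp_neg, Real.exp_log hA0, Real.rpow_def_of_pos hQ0, hl, mul_comm (Real.log Q)]
  have hprod : ∏ x ∈ S, ‖BB (pp a K x) q‖ ^ m x ≤ Real.exp (-(2 * (∑ x ∈ S, (m x : ℝ)) * R')) := by
    have h3 : ∏ x ∈ S, ‖BB (pp a K x) q‖ ^ m x ≤ ∏ x ∈ S, Real.exp (-(2 * R')) ^ m x := by
      apply Finset.prod_le_prod (fun _ _ => by positivity)
      intro x hx
      exact pow_le_pow_left₀ (norm_nonneg _) (hS x hx).2.2 _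
    refine h3.trans (le_of_eq ?_)
    rw [Finset.prod_pow_eq_pow_sum, ← Real.exp_nat_mul]
    congr 1
    push_cast
    ring
  have hfin : Real.exp (-Real.log A + (1 / 2 + δ / 2 - ε) * l) ≤
      Real.exp (-(2 * (∑ x ∈ S, (m x : ℝ)) * R') + (α + β * q)) := by
    refine hlow.trans (hcore.trans ?_)
    rw [Real.exp_add (-(2 * (∑ x ∈ S, (m x : ℝ)) * R'))]
    exact mul_le_mul_of_nonneg_right hprod (Real.exp_pos _).le
  have hfin2 := Real.exp_le_exp.1 hfin
  have hβ0 : 0 ≤ β := by
    rw [hβ]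
    apply mul_nonneg (mul_nonneg _ hl0) (by positivity)
    rw [hbdef]; linarith
  have hβq : β * q ≤ (b + ε - κ) * l - (b + ε - κ) * l * (2 / Real.pi) * (η / K) := by
    have h3 := mul_le_mul_of_nonneg_left hqle hβ0
    have h4 : β * (Real.pi / 2 - η / K) = (b + ε - κ) * l - (b + ε - κ) * l * (2 / Real.pi) * (η / K) := by
      rw [hβ]; field_simp
    linarith
  have hlast : 0 ≤ ε * l * (2 / Real.pi) * (η / K) := by positivity
  have e9 : (b + ε - κ) * l * (2 / Real.pi) * (η / K) =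
      (b - κ) * l * (2 / Real.pi) * (η / K) + ε * l * (2 / Real.pi) * (η / K) := by ring
  rw [hα] at hfin2
  have e10 : l * (δ / 2 + 2 * ε - (b - κ) * (2 / Real.pi) * (η / K)) =
      (b + ε) * l - (1 / 2 + δ / 2 - ε) * l - (b - κ) * l * (2 / Real.pi) * (η / K) := by
    rw [hbdef]; ring
  rw [e10]
  linarith

end Pool.Agent.TH809.MZ
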