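import Mathlib
import Pool.Agent.TH809.MZ.Main

/-!
The number of real zeros of an entire function with the growth of an L-function: optimal constant.
-/

open Complex Filter Topology Set

namespace Pool.Agent.TH809.MZ

/-- the constant `c(κ) = √(2κ(1-2κ)) / π` -/
noncomputable def cc (κ : ℝ) : ℝ := Real.sqrt (2 * κ * (1 - 2 * κ)) / Real.pi

/-- choice of the parameter -/
theorem choice {κ ε : ℝ} (h0 : 0 ≤ κ) (h1 : κ ≤ 1 / 4) (hε : 0 < ε) : ∃ s : ℝ, 0 < s ∧ s < 1 ∧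
    (1 - (1 - 4 * κ) * s) / (2 * Real.pi * Real.sqrt (1 - s ^ 2)) ≤ cc κ + ε := by
  have hpi := Real.pi_pos
  rcases h0.eq_or_lt with h0 | h0
  · -- `κ = 0`
    subst h0
    refine ⟨max (1 / 2) (1 - ε ^ 2), lt_of_lt_of_le (by norm_num) (le_max_left _ _),
      max_lt (by norm_num) (by nlinarith), ?_⟩
    set s : ℝ := max (1 / 2) (1 - ε ^ 2) with hs
    have hs1 : 1 / 2 ≤ s := le_max_left _ _
    have hs2 : 1 - ε ^ 2 ≤ s := le_max_right _ _
    have hs3 : s < 1 := max_lt (by norm_num) (by nlinarith)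
    have e1 : 1 - s ^ 2 = (1 - s) * (1 + s) := by ring
    have hpos : 0 < Real.sqrt (1 - s ^ 2) := Real.sqrt_pos.2 (by nlinarith)
    have h3 : Real.sqrt (1 - s) ≤ ε := by
      apply Real.sqrt_le_iff.2
      exact ⟨hε.le, by linarith⟩
    have h4 : Real.sqrt (1 - s) ≤ Real.sqrt (1 - s ^ 2) := by
      apply Real.sqrt_le_sqrt
      rw [e1]
      nlinarith
    have h5 : 1 - s = Real.sqrt (1 - s) * Real.sqrt (1 - s) := (Real.mul_self_sqrt (by linarith)).symm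
    have h6 : 0 ≤ cc 0 := by unfold cc; positivity
    have h7 : (1 - (1 - 4 * 0) * s) / (2 * Real.pi * Real.sqrt (1 - s ^ 2)) ≤ ε := by
      rw [div_le_iff₀ (by positivity)]
      have e2 : (1 - (1 - 4 * 0) * s) = 1 - s := by ring
      rw [e2, h5]
      have h8 : Real.sqrt (1 - s) * Real.sqrt (1 - s) ≤ ε * Real.sqrt (1 - s ^ 2) :=
        mul_le_mul h3 h4 (Real.sqrt_nonneg _) hε.le
      have h9 : ε * Real.sqrt (1 - s ^ 2) ≤ ε * (2 * Real.pi * Real.sqrt (1 - s ^ 2)) := by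
        apply mul_le_mul_of_nonneg_left _ hε.le
        have := Real.pi_gt_three
        nlinarith
      linarith
    linarith
  rcases h1.eq_or_lt with h1 | h1
  · -- `κ = 1/4`
    subst h1
    have hc : ContinuousAt (fun s : ℝ => (1 - (1 - 4 * (1 / 4 : ℝ)) * s) /
        (2 * Real.pi * Real.sqrt (1 - s ^ 2))) 0 := by
      apply ContinuousAt.div
      · fun_prop
      · fun_prop
      · have : Real.sqrt (1 - (0:ℝ) ^ 2) = 1 := by norm_num
        rw [this]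
        positivity
    have e1 : cc (1 / 4) = 1 / (2 * Real.pi) := by
      unfold cc
      have : Real.sqrt (2 * (1 / 4) * (1 - 2 * (1 / 4))) = 1 / 2 := by
        rw [show (2 * (1 / 4) * (1 - 2 * (1 / 4)) : ℝ) = (1 / 2) ^ 2 by norm_num]
        exact Real.sqrt_sq (by norm_num)
      rw [this]
      field_simp
    have hlt : (fun s : ℝ => (1 - (1 - 4 * (1 / 4 : ℝ)) * s) /
        (2 * Real.pi * Real.sqrt (1 - s ^ 2))) 0 < cc (1 / 4) + ε := by
      rw [e1]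
      have : Real.sqrt (1 - (0:ℝ) ^ 2) = 1 := by norm_num
      simp only [this]
      norm_num
      exact hε
    have hev := hc.eventually (gt_mem_nhds hlt)
    rw [Metric.eventually_nhds_iff] at hev
    obtain ⟨r, hr, hev⟩ := hev
    refine ⟨min (1 / 2) (r / 2), by positivity, lt_of_le_of_lt (min_le_left _ _) (by norm_num), ?_⟩
    apply le_of_lt
    apply hev
    rw [Real.dist_eq, sub_zero, abs_of_pos (by positivity)]
    exact lt_of_le_of_lt (min_le_right _ _) (by linarith)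
  · refine ⟨1 - 4 * κ, by linarith, by linarith, ?_⟩
    have e1 : 1 - (1 - 4 * κ) ^ 2 = 2 ^ 2 * (2 * κ * (1 - 2 * κ)) := by ring
    have e2 : Real.sqrt (1 - (1 - 4 * κ) ^ 2) = 2 * Real.sqrt (2 * κ * (1 - 2 * κ)) := by
      rw [e1, Real.sqrt_mul (by norm_num), Real.sqrt_sq (by norm_num)]
    have hpos : 0 < 2 * κ * (1 - 2 * κ) := by
      apply mul_pos <;> linarith
    have hs : 0 < Real.sqrt (2 * κ * (1 - 2 * κ)) := Real.sqrt_pos.2 hpos
    have hsq := Real.mul_self_sqrt hpos.le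
    have e3 : (1 - (1 - 4 * κ) * (1 - 4 * κ)) / (2 * Real.pi * Real.sqrt (1 - (1 - 4 * κ) ^ 2)) = cc κ := by
      rw [e2]
      unfold cc
      rw [div_eq_div_iff (by positivity) hpi.ne']
      linear_combination (-4 * Real.pi) * hsq
    rw [e3]
    linarith

theorem eta_low {δ : ℝ} (h0 : 0 < δ) (h1 : δ ≤ 1 / 4) :
    δ ≤ 2 / Real.pi * (1 + 4 * δ) * Real.sin (Real.pi * δ / (2 * (1 + 2 * δ))) := by
  have hpi := Real.pi_pos
  have hpi4 : Real.pi < 4 := by linarith [Real.pi_lt_d2]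
  set y : ℝ := Real.pi * δ / (2 * (1 + 2 * δ)) with hy
  have hy0 : 0 < y := by positivity
  have hy2 : y ≤ 2 * δ := by
    rw [hy, div_le_iff₀ (by positivity)]
    nlinarith
  have h3 := Real.sin_gt_sub_cube hy0
  have h4 : y * (1 - δ ^ 2) ≤ Real.sin y := by
    have : y ^ 2 / 4 ≤ δ ^ 2 := by nlinarith
    have h5 : y - y ^ 3 / 6 = y * (1 - y ^ 2 / 6) := by ring
    have h6 : y * (1 - δ ^ 2) ≤ y * (1 - y ^ 2 / 6) :=
      mul_le_mul_of_nonneg_left (by nlinarith [sq_nonneg y]) hy0.le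
    linarith
  have h5 : δ ≤ 2 / Real.pi * (1 + 4 * δ) * (y * (1 - δ ^ 2)) := by
    have e : 2 / Real.pi * (1 + 4 * δ) * (y * (1 - δ ^ 2)) =
        δ * ((1 + 4 * δ) * (1 - δ ^ 2) / (1 + 2 * δ)) := by
      rw [hy]; field_simp
    rw [e]
    have h6 : 1 ≤ (1 + 4 * δ) * (1 - δ ^ 2) / (1 + 2 * δ) := by
      rw [le_div_iff₀ (by positivity)]
      nlinarith
    nlinarith
  exact h5.trans (mul_le_mul_of_nonneg_left h4 (by positivity))

theorem aux1 {e s δ : ℝ} (he0 : 0 < e) (he1 : e ≤ 1) (hδ1 : δ ≤ 1 / 4) (hδ0 : 0 < δ)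
    (hs0 : 0 < s) (hs1 : s < 1) : (1 + e) * (1 + 4 * e) + 2 * (e * δ) * s ≤ 1 + 10 * e := by
  have h1 : e * e ≤ e := mul_le_of_le_one_right he0.le he1
  have h2 : e * δ ≤ e * (1 / 4) := mul_le_mul_of_nonneg_left hδ1 he0.le
  have h3 : 2 * (e * δ) * s ≤ 2 * (e * δ) := mul_le_of_le_one_right (by positivity) hs1.le
  have h4 : (1 + e) * (1 + 4 * e) = 1 + 5 * e + 4 * (e * e) := by ring
  linarith

theorem aux2 {c e : ℝ} (hc : c ≤ 1) (he : 0 < e) : (1 + 2 * e) / (1 + e) * (c + e) ≤ c + 2 * e := by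
  rw [div_mul_eq_mul_div, div_le_iff₀ (by positivity)]
  have h1 : e * c ≤ e := mul_le_of_le_one_right he.le hc
  have h2 : (1 + 2 * e) * (c + e) = c + e + 2 * (e * c) + 2 * (e * e) := by ring
  have h3 : (c + 2 * e) * (1 + e) = c + 2 * e + e * c + 2 * (e * e) := by ring
  linarith

theorem cc_le {κ : ℝ} (h0 : 0 ≤ κ) (h1 : κ ≤ 1 / 4) : cc κ ≤ 1 := by
  unfold cc
  rw [div_le_one Real.pi_pos]
  apply Real.sqrt_le_iff.2
  refine ⟨Real.pi_pos.le, ?_⟩
  have h2 := Real.pi_gt_three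
  have h3 : 2 * κ * (1 - 2 * κ) ≤ 1 := by nlinarith
  have h4 : (1:ℝ) ≤ Real.pi ^ 2 := by nlinarith
  linarith

theorem aux3 {τ e' e : ℝ} (hτ : 0 < τ) (he' : 0 < e') (h : e ≤ τ * (e' / 2) / 2) :
    10 * e ≤ Real.pi * τ * e' := by
  have h3 : 3 * (τ * e') ≤ Real.pi * (τ * e') :=
    mul_le_mul_of_nonneg_right Real.pi_gt_three.le (by positivity)
  have h4 : 0 < τ * e' := by positivity
  have h5 : τ * (e' / 2) / 2 = (τ * e') / 4 := by ring
  rw [h5] at h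
  linarith

theorem aux4 {s : ℝ} (hs0 : 0 < s) (hs1 : s < 1) : 0 < 1 - s ^ 2 := by nlinarith

theorem aux5 {δ : ℝ} (hδ0 : 0 < δ) : 0 < Real.sin (Real.pi * δ / (2 * (1 + 2 * δ))) := by
  have hpi := Real.pi_pos
  apply Real.sin_pos_of_pos_of_lt_pi (by positivity)
  rw [div_lt_iff₀ (by positivity)]
  nlinarith [mul_pos hpi hδ0]

/-- **The number of zeros near the real axis.**  For `0 ≤ κ ≤ 1/4` and `ε > 0` there are `δ, ε₂, h > 0`
such that an entire function, of size `Q^(2κ+ε₂)` on the critical line (in the form `f(z) f(-z)`), has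
at most `(c(κ) + ε) log Q + C` zeros with `|Re z| ≤ 1/2`, `|Im z| ≤ h`. -/
theorem mult_final {κ ε : ℝ} (h0 : 0 ≤ κ) (h1 : κ ≤ 1 / 4) (hε : 0 < ε) :
    ∃ δ ε₂ h : ℝ, 0 < δ ∧ δ ≤ 1 / 4 ∧ 0 < ε₂ ∧ ε₂ ≤ δ ∧ 0 < h ∧
      ∀ A : ℝ, 1 ≤ A → ∃ C : ℝ, ∀ Q : ℝ, 1 ≤ Q →
      ∀ f : ℂ → ℂ, Differentiable ℂ f → ∀ S : Finset ℂ, (∀ x ∈ S, |x.re| ≤ 1 / 2 ∧ |x.im| ≤ h) →
      (∃ B : ℝ, ∀ z : ℂ, |z.re| ≤ 1 / 2 + δ → ‖f z‖ ≤ B) →
      (∀ z : ℂ, z.re = 0 → ‖f z‖ * ‖f (-z)‖ ≤ A * Q ^ (2 * κ + ε₂)) →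
      (∀ z : ℂ, z.re = 1 / 2 + δ → ‖f z‖ * ‖f (-z)‖ ≤ A * Q ^ (1 / 2 + δ + ε₂)) →
      (A⁻¹ * Q ^ (1 / 2 + δ / 2 - ε₂) ≤
        ‖f ((1 / 2 + δ / 2 : ℝ) : ℂ)‖ * ‖f (-((1 / 2 + δ / 2 : ℝ) : ℂ))‖) →
      ∑ x ∈ S, (analyticOrderNatAt f x : ℝ) ≤ (cc κ + ε) * Real.log Q + C := by
  have hpi := Real.pi_pos
  have hpi3 := Real.pi_gt_three
  obtain ⟨e', he'0, hee⟩ : ∃ e' : ℝ, 0 < e' ∧ e' = ε / 2 := ⟨ε / 2, by positivity, rfl⟩
  obtain ⟨s, hs0, hs1, hs⟩ := choice h0 h1 (half_pos he'0)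
  set τ : ℝ := Real.sqrt (1 - s ^ 2) with hτ
  have hτ0 : 0 < τ := Real.sqrt_pos.2 (aux4 hs0 hs1)
  set e : ℝ := min 1 (τ * (e' / 2) / 2) with he
  have he0 : 0 < e := by positivity
  have he1 : e ≤ 1 := min_le_left _ _
  have he2 : e ≤ τ * (e' / 2) / 2 := min_le_right _ _
  set δ : ℝ := e / 4 with hδ
  have hδ0 : 0 < δ := by positivity
  have hδ1 : δ ≤ 1 / 4 := by rw [hδ]; linarith
  set ε₂ : ℝ := e * δ with hε₂
  have hε₂0 : 0 < ε₂ := by positivity
  have hε₂1 : ε₂ ≤ δ := mul_le_of_le_one_left hδ0.le he1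
  set η : ℝ := Real.sin (Real.pi * δ / (2 * (1 + 2 * δ))) with hη
  have hη0 : 0 < η := aux5 hδ0
  have hη1 : η ≤ 1 := Real.sin_le_one _
  have hK : 1 < 1 / s := by rw [lt_div_iff₀ hs0]; linarith
  have hK0 : 0 < 1 / s := by linarith
  set a : ℝ := Real.pi / (2 * (1 / 2 + δ)) with ha
  have ha0 : 0 < a := by positivity
  have hηeq : Real.cos (a * (1 / 2 + δ / 2)) = η := by
    rw [hη, ← Real.cos_pi_div_two_sub]
    congr 1
    rw [ha]
    have : (1 + 2 * δ) ≠ 0 := by positivity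
    field_simp
    ring
  have hax : a * (1 / 2 + δ / 2) < Real.pi / 2 := by
    have : a * (1 / 2 + δ) = Real.pi / 2 := by rw [ha]; field_simp
    have h3 : a * (1 / 2 + δ / 2) < a * (1 / 2 + δ) := by
      apply mul_lt_mul_of_pos_left _ ha0
      linarith
    linarith
  set q : ℝ := Real.arccos (η / (1 / s)) with hq
  have hηK0 : 0 < η / (1 / s) := by positivity
  have hηK1 : η / (1 / s) < 1 := by rw [div_lt_one hK0]; linarith
  have hcq : Real.cos q = η / (1 / s) := Real.cos_arccos (by linarith) hηK1.le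
  have hq0 : 0 < q := Real.arccos_pos.2 hηK1
  have hq1 : q < Real.pi / 2 := Real.arccos_lt_pi_div_two.2 hηK0
  have hqK : Real.cos (a * (1 / 2 + δ / 2)) = 1 / s * Real.cos q := by rw [hcq, hηeq]; field_simp
  -- the loss
  set R' : ℝ := η * τ / ((1 + 2 * e') / (1 + e')) with hR'
  have hfac : 1 < (1 + 2 * e') / (1 + e') := by
    rw [lt_div_iff₀ (by positivity)]; linarith
  have hR'0 : 0 < R' := by positivity
  have hR'lt : R' < η * τ := by
    rw [hR']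
    exact div_lt_self (by positivity) hfac
  obtain ⟨h, hh0, htube⟩ := tube (a := a) (K := 1 / s) (x0 := 1 / 2 + δ / 2) (q := q) (R' := R') hK ha0
    (by linarith) hax hq0 hq1 hqK (by rw [hηeq, one_div_one_div, ← hτ]; exact hR'lt)
  refine ⟨δ, ε₂, h, hδ0, hδ1, hε₂0, hε₂1, hh0, fun A hA => ⟨2 * Real.log A / (2 * R'), ?_⟩⟩
  intro Q hQ f hf S hS ⟨B, hB⟩ g0 g1 g2
  have hmain := mult_bound (K := 1 / s) (κ := 2 * κ + ε₂) (ε := ε₂) (R' := R') hK hδ0 hδ1 (by linarith)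
    hε₂0.le hA hQ hf (S := S) (fun x hx => ⟨(hS x hx).1, htube x (hS x hx).1 (hS x hx).2⟩) hB g0 g1 g2
  rw [← hη] at hmain
  set N : ℝ := ∑ x ∈ S, (analyticOrderNatAt f x : ℝ) with hN
  have hl : 0 ≤ Real.log Q := Real.log_nonneg hQ
  -- the constant
  have hlow := eta_low hδ0 hδ1
  rw [← hη] at hlow
  have hconst : δ / 2 + 2 * ε₂ - (1 / 2 + δ - (2 * κ + ε₂)) * (2 / Real.pi) * (η / (1 / s)) ≤
      2 * (η * τ) * (cc κ + e') := by
    have k1 : (1 - (1 - 4 * κ) * s) ≤ (cc κ + e' / 2) * (2 * Real.pi * τ) := by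
      rw [div_le_iff₀ (by positivity)] at hs
      exact hs
    have k2 : η / (1 / s) = η * s := by field_simp
    rw [k2]
    have k3 : δ / 2 + 2 * ε₂ ≤ η / Real.pi * ((1 + e) * (1 + 4 * e)) := by
      have e1 : δ / 2 + 2 * ε₂ = δ * ((1 + 4 * e) / 2) := by rw [hε₂]; ring
      rw [e1]
      have e2 : 1 + 4 * δ = 1 + e := by rw [hδ]; ring
      rw [e2] at hlow
      calc δ * ((1 + 4 * e) / 2) ≤ (2 / Real.pi * (1 + e) * η) * ((1 + 4 * e) / 2) :=
            mul_le_mul_of_nonneg_right hlow (by positivity)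
        _ = _ := by ring
    have k4 : (1 / 2 - (2 * κ + ε₂)) * (2 / Real.pi) * (η * s) ≤
        (1 / 2 + δ - (2 * κ + ε₂)) * (2 / Real.pi) * (η * s) := by
      apply mul_le_mul_of_nonneg_right _ (by positivity)
      apply mul_le_mul_of_nonneg_right _ (by positivity)
      linarith
    have k5 : (1 / 2 - (2 * κ + ε₂)) * (2 / Real.pi) * (η * s) =
        η / Real.pi * ((1 - 4 * κ) * s - 2 * ε₂ * s) := by ring
    have k6 : 2 * (η * τ) * (cc κ + e') =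
        η / Real.pi * ((cc κ + e' / 2) * (2 * Real.pi * τ) + Real.pi * τ * e') := by
      field_simp
      ring
    rw [k6]
    have k7 : (1 + e) * (1 + 4 * e) + 2 * ε₂ * s ≤ 1 + 10 * e := aux1 he0 he1 hδ1 hδ0 hs0 hs1
    have k8 : 10 * e ≤ Real.pi * τ * e' := aux3 hτ0 he'0 he2
    have k9 : η / Real.pi * ((1 + e) * (1 + 4 * e)) - η / Real.pi * ((1 - 4 * κ) * s - 2 * ε₂ * s) ≤
        η / Real.pi * ((cc κ + e' / 2) * (2 * Real.pi * τ) + Real.pi * τ * e') := by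
      rw [← mul_sub]
      apply mul_le_mul_of_nonneg_left _ (by positivity)
      linarith
    linarith
  have hconst2 : 2 * (η * τ) * (cc κ + e') ≤ 2 * R' * (cc κ + ε) := by
    have hcc : cc κ ≤ 1 := cc_le h0 h1
    have e3 : η * τ = R' * ((1 + 2 * e') / (1 + e')) := by
      rw [hR']
      have : (1 + 2 * e') / (1 + e') ≠ 0 := by positivity
      field_simp
    have e4 : (1 + 2 * e') / (1 + e') * (cc κ + e') ≤ cc κ + ε := by
      have : ε = 2 * e' := by rw [hee]; ring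
      rw [this]
      exact aux2 hcc he'0
    calc 2 * (η * τ) * (cc κ + e') = 2 * R' * ((1 + 2 * e') / (1 + e') * (cc κ + e')) := by
          rw [e3]; ring
      _ ≤ _ := mul_le_mul_of_nonneg_left e4 (by positivity)
  have h5 : 2 * N * R' ≤ 2 * Real.log A + Real.log Q * (2 * R' * (cc κ + ε)) :=
    hmain.trans (by linarith [mul_le_mul_of_nonneg_left (hconst.trans hconst2) hl])
  have h6 : N * (2 * R') ≤ ((cc κ + ε) * Real.log Q + 2 * Real.log A / (2 * R')) * (2 * R') := by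
    have e7 : 2 * Real.log A / (2 * R') * (2 * R') = 2 * Real.log A := by field_simp
    rw [add_mul, e7]
    linarith
  exact le_of_mul_le_mul_right h6 (by positivity)

end Pool.Agent.TH809.MZ
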