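import Mathlib
import Pool.Agent.TH809.MZ.Lim

/-!
The main inequality with a variable evaluation point, and with the dependence on the constant.
-/

open Complex Filter Topology Set

namespace Pool.Agent.TH809.MZ

/-- **Main inequality**, general form. -/
theorem mult_bound2 {K κ δ γ A Q R' : ℝ} (hK : 1 < K) (hγ0 : 0 < γ) (hγ : γ < δ) (hδ1 : δ ≤ 1 / 4)
    (hκ : κ ≤ 1 / 2) (hA : 1 ≤ A) (hQ : 1 ≤ Q) {f : ℂ → ℂ} (hf : Differentiable ℂ f) {S : Finset ℂ}
    (hS : ∀ x ∈ S, |x.re| ≤ 1 / 2 ∧ Good (Real.pi / (2 * (1 / 2 + δ))) K x ∧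
      ‖BB (pp (Real.pi / (2 * (1 / 2 + δ))) K x)
        (Real.arccos (Real.sin (Real.pi * γ / (1 + 2 * δ)) / K) : ℝ)‖ ≤ Real.exp (-(2 * R')))
    {B : ℝ} (hb : ∀ z : ℂ, |z.re| ≤ 1 / 2 + δ → ‖f z‖ ≤ B)
    (h0 : ∀ z : ℂ, z.re = 0 → ‖f z‖ * ‖f (-z)‖ ≤ A * Q ^ κ)
    (h1 : ∀ z : ℂ, z.re = 1 / 2 + δ → ‖f z‖ * ‖f (-z)‖ ≤ A * Q ^ (1 / 2 + δ))
    (h2 : A⁻¹ * Q ^ (1 / 2 + δ - γ) ≤
      ‖f ((1 / 2 + δ - γ : ℝ) : ℂ)‖ * ‖f (-((1 / 2 + δ - γ : ℝ) : ℂ))‖) :
    2 * (∑ x ∈ S, (analyticOrderNatAt f x : ℝ)) * R' ≤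
      2 * Real.log A + Real.log Q * (γ - (1 / 2 + δ - κ) * (2 / Real.pi) *
        (Real.sin (Real.pi * γ / (1 + 2 * δ)) / K)) := by
  classical
  have hpi := Real.pi_pos
  have hK0 : 0 < K := by linarith
  have hδ : 0 < δ := by linarith
  set b : ℝ := 1 / 2 + δ with hbdef
  set a : ℝ := Real.pi / (2 * b) with ha
  set x0 : ℝ := b - γ with hx0
  have hb0 : 0 < b := by positivity
  have hx00 : 0 ≤ x0 := by rw [hx0, hbdef]; linarith
  have ha0 : 0 < a := by positivity
  have hab : Real.pi / (2 * a) = b := by rw [ha]; field_simp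
  have hab2 : Real.pi / a = 2 * b := by rw [ha]; field_simp
  have haπ : a < Real.pi := by
    rw [ha, div_lt_iff₀ (by positivity)]
    nlinarith
  set η : ℝ := Real.sin (Real.pi * γ / (1 + 2 * δ)) with hη
  have hηeq : Real.cos (a * x0) = η := by
    rw [hη, ← Real.cos_pi_div_two_sub]
    congr 1
    rw [ha, hx0, hbdef]
    have : (1 + 2 * δ) ≠ 0 := by positivity
    field_simp
  have hy1 : Real.pi * γ / (1 + 2 * δ) < Real.pi := by
    rw [div_lt_iff₀ (by positivity)]
    nlinarith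
  have hη0 : 0 < η := Real.sin_pos_of_pos_of_lt_pi (by positivity) hy1
  have hη1 : η ≤ 1 := Real.sin_le_one _
  set q : ℝ := Real.arccos (η / K) with hq
  have hηK0 : 0 < η / K := by positivity
  have hηK1 : η / K < 1 := by rw [div_lt_one hK0]; linarith
  have hcq : Real.cos q = η / K := Real.cos_arccos (by linarith) hηK1.le
  have hq0 : 0 < q := Real.arccos_pos.2 hηK1
  have hq1 : q < Real.pi / 2 := Real.arccos_lt_pi_div_two.2 hηK0
  have hqK : Real.cos (a * x0) = K * Real.cos q := by rw [hcq, hηeq]; field_simp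
  have hqle : q ≤ Real.pi / 2 - η / K := by
    rw [hq, Real.arccos_eq_pi_div_two_sub_arcsin]
    have h3 : η / K ≤ Real.arcsin (η / K) := by
      have h4 := Real.sin_arcsin (by linarith : -1 ≤ η / K) hηK1.le
      have h5 := Real.sin_le (Real.arcsin_nonneg.2 hηK0.le)
      rw [h4] at h5
      exact h5
    linarith
  -- factorization
  obtain ⟨h, hhd, hfac2⟩ := Pool.Agent.W469.RT.Jen.factor hf S
  set m : ℂ → ℕ := fun x => analyticOrderNatAt f x with hm
  set g : ℂ → ℂ := fun z => h z / ∏ x ∈ S, ((a / 2 : ℝ) * DD ((a / 2 : ℝ) * (z - x))) ^ m x with hg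
  have hDne : ∀ z : ℂ, |z.re| < Real.pi / a → ∀ x ∈ S,
      ((a / 2 : ℝ) : ℂ) * DD ((a / 2 : ℝ) * (z - x)) ≠ 0 := by
    intro z hz x hx
    apply mul_ne_zero
    · exact_mod_cast (by positivity : (a / 2 : ℝ) ≠ 0)
    · apply DD_ne
      rw [re_ofReal_mul, sub_re, abs_mul, abs_of_pos (by positivity : (0:ℝ) < a / 2)]
      have h3 : |z.re - x.re| ≤ |z.re| + |x.re| := abs_sub _ _
      have h4 := (hS x hx).1
      have h5 : a / 2 * |z.re - x.re| < a / 2 * (Real.pi / a + 1 / 2) := by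
        apply mul_lt_mul_of_pos_left _ (by positivity)
        linarith
      have h6 : a / 2 * (Real.pi / a + 1 / 2) = Real.pi / 2 + a / 4 := by field_simp; ring
      linarith
  have hPne : ∀ z : ℂ, |z.re| < Real.pi / a →
      ∏ x ∈ S, (((a / 2 : ℝ) : ℂ) * DD ((a / 2 : ℝ) * (z - x))) ^ m x ≠ 0 := by
    intro z hz
    exact Finset.prod_ne_zero_iff.2 fun x hx => pow_ne_zero _ (hDne z hz x hx)
  have hfg : ∀ z : ℂ, |z.re| < Real.pi / a →
      f z = (∏ x ∈ S, sin ((a / 2 : ℝ) * (z - x)) ^ m x) * g z := by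
    intro z hz
    have e1 : ∏ x ∈ S, sin ((a / 2 : ℝ) * (z - x)) ^ m x =
        (∏ x ∈ S, (z - x) ^ m x) *
          ∏ x ∈ S, (((a / 2 : ℝ) : ℂ) * DD ((a / 2 : ℝ) * (z - x))) ^ m x := by
      rw [← Finset.prod_mul_distrib]
      apply Finset.prod_congr rfl
      intro x _
      rw [← mul_pow, ← DD_mul]
      congr 1
      ring
    rw [e1, hfac2 z]
    simp only [hg]
    have := hPne z hz
    rw [mul_div_assoc', eq_div_iff this]
    ring
  have hgd : DifferentiableOn ℂ g {z | |z.re| < Real.pi / a} := by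
    intro z hz
    apply DifferentiableAt.differentiableWithinAt
    have d1 : DifferentiableAt ℂ h z := hhd z
    have d2 : DifferentiableAt ℂ
        (fun z : ℂ => ∏ x ∈ S, (((a / 2 : ℝ) : ℂ) * DD ((a / 2 : ℝ) * (z - x))) ^ m x) z := by
      apply DifferentiableAt.fun_finsetProd
      intro x _
      apply DifferentiableAt.pow
      apply DifferentiableAt.const_mul
      exact DifferentiableAt.comp (g := DD) (f := fun z : ℂ => ((a / 2 : ℝ) : ℂ) * (z - x)) z
        (DD_diff _) (by fun_prop)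
    exact d1.fun_div d2 (hPne z hz)
  set H : ℂ → ℂ := fun z => (∏ x ∈ S, ((1 / 2 : ℂ)) ^ m x) * (g z * g (-z)) with hH
  have hHd : DifferentiableOn ℂ H {z | |z.re| < Real.pi / a} := by
    have hopen : IsOpen {z : ℂ | |z.re| < Real.pi / a} :=
      isOpen_lt (Complex.continuous_re.abs) continuous_const
    intro z hz
    apply DifferentiableAt.differentiableWithinAt
    have d1 : DifferentiableAt ℂ g z := hgd.differentiableAt (hopen.mem_nhds hz)
    have hz' : -z ∈ {z : ℂ | |z.re| < Real.pi / a} := by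
      show |(-z).re| < Real.pi / a
      rw [neg_re, abs_neg]
      exact hz
    have d2 : DifferentiableAt ℂ g (-z) := hgd.differentiableAt (hopen.mem_nhds hz')
    have d3 : DifferentiableAt ℂ (fun z => g (-z)) z :=
      DifferentiableAt.comp (g := g) (f := fun z : ℂ => -z) z d2 (by fun_prop)
    exact (d1.mul d3).const_mul _
  have hHev : ∀ z : ℂ, |z.re| < Real.pi / a → H (-z) = H z := by
    intro z _
    simp only [hH, neg_neg]
    ring
  set E : ℂ → ℂ := fun z => f z * f (-z) with hE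
  have hEH : ∀ z : ℂ, |z.re| < Real.pi / a →
      E z = (∏ x ∈ S, (cos (a * z) - cos (a * x)) ^ m x) * H z := by
    intro z hz
    have hz' : |(-z).re| < Real.pi / a := by rw [neg_re, abs_neg]; exact hz
    simp only [hE, hH]
    rw [hfg z hz, hfg (-z) hz']
    have e1 : (∏ x ∈ S, sin ((a / 2 : ℝ) * (z - x)) ^ m x) *
        (∏ x ∈ S, sin ((a / 2 : ℝ) * (-z - x)) ^ m x) =
        (∏ x ∈ S, (cos (a * z) - cos (a * x)) ^ m x) * ∏ x ∈ S, ((1 / 2 : ℂ)) ^ m x := by
      rw [← Finset.prod_mul_distrib, ← Finset.prod_mul_distrib]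
      apply Finset.prod_congr rfl
      intro x _
      rw [← mul_pow, ← mul_pow]
      congr 1
      rw [Complex.cos_sub_cos]
      have e2 : ((a / 2 : ℝ) : ℂ) * (-z - x) = -((a * z + a * x) / 2) := by push_cast; ring
      have e3 : ((a / 2 : ℝ) : ℂ) * (z - x) = (a * z - a * x) / 2 := by push_cast; ring
      rw [e2, e3, Complex.sin_neg]
      ring
    calc _ = ((∏ x ∈ S, sin ((a / 2 : ℝ) * (z - x)) ^ m x) *
        (∏ x ∈ S, sin ((a / 2 : ℝ) * (-z - x)) ^ m x)) * (g z * g (-z)) := by ring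
      _ = _ := by rw [e1]; ring
  have hA0 : 0 < A := by linarith
  have hQ0 : 0 < Q := by linarith
  have hQpow : ∀ s : ℝ, A * Q ^ s = Real.exp (Real.log A + s * Real.log Q) := by
    intro s
    rw [Real.exp_add, Real.exp_log hA0, Real.rpow_def_of_pos hQ0, mul_comm s]
  have hB0 : 0 ≤ B := (norm_nonneg _).trans (hb 0 (by simp; positivity))
  set l : ℝ := Real.log Q with hl
  have hl0 : 0 ≤ l := Real.log_nonneg hQ
  set α : ℝ := Real.log A + κ * l with hα
  set β : ℝ := (b - κ) * l * (2 / Real.pi) with hβ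
  have hcore := core (a := a) (K := K) (α := α) (β := β) ha0 hK hHd hHev S m
    (fun x hx => (hS x hx).2.1) hEH (B := B * B)
    (by
      intro z hz
      rw [hab] at hz
      simp only [hE, norm_mul]
      apply mul_le_mul (hb z hz) (hb (-z) (by rw [neg_re, abs_neg]; exact hz)) (norm_nonneg _) hB0)
    (by
      intro z hz
      simp only [hE, norm_mul]
      have := h0 z hz
      rw [hQpow] at this
      exact this)
    (by
      intro z hz
      rw [hab] at hz
      simp only [hE, norm_mul]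
      have e1 : α + β * (Real.pi / 2) = Real.log A + b * Real.log Q := by
        rw [hα, hβ, ← hl]
        field_simp
        ring
      rw [e1, ← hQpow]
      rcases abs_eq hb0.le |>.1 hz with h3 | h3
      · exact h1 z h3
      · have h4 := h1 (-z) (by rw [neg_re, h3, neg_neg])
        rw [neg_neg, mul_comm] at h4
        exact h4)
    (x0 := x0) (q := q) hx00 (by rw [hab, hx0]; linarith) hq0.le hq1.le hqK
  -- lower bound
  have hlow : Real.exp (-Real.log A + x0 * l) ≤ ‖E x0‖ := by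
    simp only [hE, norm_mul]
    refine le_trans (le_of_eq ?_) h2
    rw [Real.exp_add, Real.exp_neg, Real.exp_log hA0, Real.rpow_def_of_pos hQ0, hl, mul_comm (Real.log Q)]
  have hprod : ∏ x ∈ S, ‖BB (pp a K x) q‖ ^ m x ≤ Real.exp (-(2 * (∑ x ∈ S, (m x : ℝ)) * R')) := by
    have h3 : ∏ x ∈ S, ‖BB (pp a K x) q‖ ^ m x ≤ ∏ x ∈ S, Real.exp (-(2 * R')) ^ m x := by
      apply Finset.prod_le_prod (fun _ _ => by positivity)
      intro x hx
      exact pow_le_pow_left₀ (norm_nonneg _) (hS x hx).2.2 _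
    refine h3.trans (le_of_eq ?_)
    rw [Finset.prod_pow_eq_pow_sum, ← Real.exp_nat_mul]
    congr 1
    push_cast
    ring
  have hfin : Real.exp (-Real.log A + x0 * l) ≤
      Real.exp (-(2 * (∑ x ∈ S, (m x : ℝ)) * R') + (α + β * q)) := by
    refine hlow.trans (hcore.trans ?_)
    rw [Real.exp_add (-(2 * (∑ x ∈ S, (m x : ℝ)) * R'))]
    exact mul_le_mul_of_nonneg_right hprod (Real.exp_pos _).le
  have hfin2 := Real.exp_le_exp.1 hfin
  have hβ0 : 0 ≤ β := by
    rw [hβ]
    apply mul_nonneg (mul_nonneg _ hl0) (by positivity)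
    rw [hbdef]; linarith
  have hβq : β * q ≤ (b - κ) * l - (b - κ) * l * (2 / Real.pi) * (η / K) := by
    have h3 := mul_le_mul_of_nonneg_left hqle hβ0
    have h4 : β * (Real.pi / 2 - η / K) = (b - κ) * l - (b - κ) * l * (2 / Real.pi) * (η / K) := by
      rw [hβ]; field_simp
    linarith
  rw [hα] at hfin2
  have e10 : l * (γ - (b - κ) * (2 / Real.pi) * (η / K)) =
      b * l - x0 * l - (b - κ) * l * (2 / Real.pi) * (η / K) := by
    rw [hx0]; ring
  rw [e10]
  linarith

end Pool.Agent.TH809.MZ
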