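import Mathlib
import Pool.Agent.TH809.MZ.Main2

/-!
Optimal constant, with a variable evaluation point and the dependence on the constant `A`.
-/

open Complex Filter Topology Set

namespace Pool.Agent.TH809.MZ

theorem eta_low2 {δ γ : ℝ} (h0 : 0 < γ) (h1 : γ ≤ 3 / 4 * δ) (h2 : δ ≤ 1 / 4) :
    γ ≤ 1 / Real.pi * (1 + 4 * δ) * Real.sin (Real.pi * γ / (1 + 2 * δ)) := by
  have hpi := Real.pi_pos
  have hpi4 : Real.pi < 3.15 := Real.pi_lt_d2
  have hδ : 0 < δ := by linarith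
  set y : ℝ := Real.pi * γ / (1 + 2 * δ) with hy
  have hy0 : 0 < y := by positivity
  have hy2 : y ≤ 12 / 5 * δ := by
    rw [hy, div_le_iff₀ (by positivity)]
    have h3 : Real.pi * γ ≤ 3.15 * γ := mul_le_mul_of_nonneg_right hpi4.le h0.le
    nlinarith
  have h3 := Real.sin_gt_sub_cube hy0
  have h4 : y * (1 - δ ^ 2) ≤ Real.sin y := by
    have h7 : y ^ 2 / 6 ≤ δ ^ 2 := by
      have : y ^ 2 ≤ (12 / 5 * δ) ^ 2 := pow_le_pow_left₀ hy0.le hy2 2
      nlinarith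
    have h5 : y - y ^ 3 / 6 = y * (1 - y ^ 2 / 6) := by ring
    have h6 : y * (1 - δ ^ 2) ≤ y * (1 - y ^ 2 / 6) :=
      mul_le_mul_of_nonneg_left (by linarith) hy0.le
    linarith
  have h5 : γ ≤ 1 / Real.pi * (1 + 4 * δ) * (y * (1 - δ ^ 2)) := by
    have e : 1 / Real.pi * (1 + 4 * δ) * (y * (1 - δ ^ 2)) =
        γ * ((1 + 4 * δ) * (1 - δ ^ 2) / (1 + 2 * δ)) := by
      rw [hy]; field_simp
    rw [e]
    have h6 : 1 ≤ (1 + 4 * δ) * (1 - δ ^ 2) / (1 + 2 * δ) := by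
      rw [le_div_iff₀ (by positivity)]
      nlinarith
    exact le_mul_of_one_le_right h0.le h6
  exact h5.trans (mul_le_mul_of_nonneg_left h4 (by positivity))

theorem mult_final2 {κ ε : ℝ} (h0 : 0 ≤ κ) (h1 : κ ≤ 1 / 4) (hε : 0 < ε) :
    ∃ δ : ℝ, 0 < δ ∧ δ ≤ 1 / 4 ∧ ∀ γ : ℝ, δ / 4 ≤ γ → γ ≤ 3 / 4 * δ →
      ∃ h C₁ : ℝ, 0 < h ∧ 0 < C₁ ∧ ∀ A Q : ℝ, 1 ≤ A → 1 ≤ Q →
      ∀ f : ℂ → ℂ, Differentiable ℂ f → ∀ S : Finset ℂ, (∀ x ∈ S, |x.re| ≤ 1 / 2 ∧ |x.im| ≤ h) →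
      (∃ B : ℝ, ∀ z : ℂ, |z.re| ≤ 1 / 2 + δ → ‖f z‖ ≤ B) →
      (∀ z : ℂ, z.re = 0 → ‖f z‖ * ‖f (-z)‖ ≤ A * Q ^ (2 * κ)) →
      (∀ z : ℂ, z.re = 1 / 2 + δ → ‖f z‖ * ‖f (-z)‖ ≤ A * Q ^ (1 / 2 + δ)) →
      (A⁻¹ * Q ^ (1 / 2 + δ - γ) ≤
        ‖f ((1 / 2 + δ - γ : ℝ) : ℂ)‖ * ‖f (-((1 / 2 + δ - γ : ℝ) : ℂ))‖) →
      ∑ x ∈ S, (analyticOrderNatAt f x : ℝ) ≤ (cc κ + ε) * Real.log Q + C₁ * Real.log A := by
  have hpi := Real.pi_pos
  have hpi3 := Real.pi_gt_three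
  obtain ⟨e', he'0, hee⟩ : ∃ e' : ℝ, 0 < e' ∧ e' = ε / 2 := ⟨ε / 2, by positivity, rfl⟩
  obtain ⟨s, hs0, hs1, hs⟩ := choice h0 h1 (half_pos he'0)
  set τ : ℝ := Real.sqrt (1 - s ^ 2) with hτ
  have hτ0 : 0 < τ := Real.sqrt_pos.2 (aux4 hs0 hs1)
  set δ : ℝ := min (1 / 4) (τ * e' / 2) with hδ
  have hδ0 : 0 < δ := by positivity
  have hδ1 : δ ≤ 1 / 4 := min_le_left _ _
  have hδ2 : δ ≤ τ * e' / 2 := min_le_right _ _
  refine ⟨δ, hδ0, hδ1, fun γ hγ1 hγ2 => ?_⟩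
  have hγ0 : 0 < γ := by linarith
  have hγδ : γ < δ := by linarith
  set η : ℝ := Real.sin (Real.pi * γ / (1 + 2 * δ)) with hη
  have hη0 : 0 < η := by
    apply Real.sin_pos_of_pos_of_lt_pi (by positivity)
    rw [div_lt_iff₀ (by positivity)]
    exact mul_lt_mul_of_pos_left (by linarith) hpi
  have hη1 : η ≤ 1 := Real.sin_le_one _
  have hK : 1 < 1 / s := by rw [lt_div_iff₀ hs0]; linarith
  have hK0 : 0 < 1 / s := by linarith
  set a : ℝ := Real.pi / (2 * (1 / 2 + δ)) with ha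
  have ha0 : 0 < a := by positivity
  have hηeq : Real.cos (a * (1 / 2 + δ - γ)) = η := by
    rw [hη, ← Real.cos_pi_div_two_sub]
    congr 1
    rw [ha]
    have : (1 + 2 * δ) ≠ 0 := by positivity
    field_simp
  have hax : a * (1 / 2 + δ - γ) < Real.pi / 2 := by
    have : a * (1 / 2 + δ) = Real.pi / 2 := by rw [ha]; field_simp
    have h3 : a * (1 / 2 + δ - γ) < a * (1 / 2 + δ) := by
      apply mul_lt_mul_of_pos_left _ ha0
      linarith
    linarith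
  set q : ℝ := Real.arccos (η / (1 / s)) with hq
  have hηK0 : 0 < η / (1 / s) := by positivity
  have hηK1 : η / (1 / s) < 1 := by rw [div_lt_one hK0]; linarith
  have hcq : Real.cos q = η / (1 / s) := Real.cos_arccos (by linarith) hηK1.le
  have hq0 : 0 < q := Real.arccos_pos.2 hηK1
  have hq1 : q < Real.pi / 2 := Real.arccos_lt_pi_div_two.2 hηK0
  have hqK : Real.cos (a * (1 / 2 + δ - γ)) = 1 / s * Real.cos q := by rw [hcq, hηeq]; field_simp
  -- the loss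
  set R' : ℝ := η * τ / ((1 + 2 * e') / (1 + e')) with hR'
  have hfac : 1 < (1 + 2 * e') / (1 + e') := by
    rw [lt_div_iff₀ (by positivity)]; linarith
  have hR'0 : 0 < R' := by positivity
  have hR'lt : R' < η * τ := by
    rw [hR']
    exact div_lt_self (by positivity) hfac
  obtain ⟨h, hh0, htube⟩ := tube (a := a) (K := 1 / s) (x0 := 1 / 2 + δ - γ) (q := q) (R' := R') hK ha0
    (by linarith) hax hq0 hq1 hqK (by rw [hηeq, one_div_one_div, ← hτ]; exact hR'lt)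
  refine ⟨h, 1 / R', hh0, by positivity, ?_⟩
  intro A Q hA hQ f hf S hS ⟨B, hB⟩ g0 g1 g2
  have hmain := mult_bound2 (K := 1 / s) (κ := 2 * κ) (γ := γ) (R' := R') hK hγ0 hγδ hδ1 (by linarith)
    hA hQ hf (S := S) (fun x hx => ⟨(hS x hx).1, htube x (hS x hx).1 (hS x hx).2⟩) hB g0 g1 g2
  rw [← hη] at hmain
  set N : ℝ := ∑ x ∈ S, (analyticOrderNatAt f x : ℝ) with hN
  have hl : 0 ≤ Real.log Q := Real.log_nonneg hQ
  -- the constant
  have hlow := eta_low2 hγ0 hγ2 hδ1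
  rw [← hη] at hlow
  have hconst : γ - (1 / 2 + δ - 2 * κ) * (2 / Real.pi) * (η / (1 / s)) ≤
      2 * (η * τ) * (cc κ + e') := by
    have k1 : (1 - (1 - 4 * κ) * s) ≤ (cc κ + e' / 2) * (2 * Real.pi * τ) := by
      rw [div_le_iff₀ (by positivity)] at hs
      exact hs
    have k2 : η / (1 / s) = η * s := by field_simp
    rw [k2]
    have k4 : (1 / 2 - 2 * κ) * (2 / Real.pi) * (η * s) ≤
        (1 / 2 + δ - 2 * κ) * (2 / Real.pi) * (η * s) := by
      apply mul_le_mul_of_nonneg_right _ (by positivity)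
      apply mul_le_mul_of_nonneg_right _ (by positivity)
      linarith
    have k5 : (1 / 2 - 2 * κ) * (2 / Real.pi) * (η * s) = η / Real.pi * ((1 - 4 * κ) * s) := by ring
    have k3 : 1 / Real.pi * (1 + 4 * δ) * η = η / Real.pi * (1 + 4 * δ) := by ring
    have k6 : 2 * (η * τ) * (cc κ + e') =
        η / Real.pi * ((cc κ + e' / 2) * (2 * Real.pi * τ) + Real.pi * τ * e') := by
      field_simp
      ring
    rw [k6]
    have k8 : 4 * δ ≤ Real.pi * τ * e' := by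
      have h3 : 3 * (τ * e') ≤ Real.pi * (τ * e') := mul_le_mul_of_nonneg_right hpi3.le (by positivity)
      have h4 : 0 < τ * e' := by positivity
      linarith
    have k9 : η / Real.pi * (1 + 4 * δ) - η / Real.pi * ((1 - 4 * κ) * s) ≤
        η / Real.pi * ((cc κ + e' / 2) * (2 * Real.pi * τ) + Real.pi * τ * e') := by
      rw [← mul_sub]
      apply mul_le_mul_of_nonneg_left _ (by positivity)
      linarith
    linarith
  have hconst2 : 2 * (η * τ) * (cc κ + e') ≤ 2 * R' * (cc κ + ε) := by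
    have hcc : cc κ ≤ 1 := cc_le h0 h1
    have e3 : η * τ = R' * ((1 + 2 * e') / (1 + e')) := by
      rw [hR']
      have : (1 + 2 * e') / (1 + e') ≠ 0 := by positivity
      field_simp
    have e4 : (1 + 2 * e') / (1 + e') * (cc κ + e') ≤ cc κ + ε := by
      have : ε = 2 * e' := by rw [hee]; ring
      rw [this]
      exact aux2 hcc he'0
    calc 2 * (η * τ) * (cc κ + e') = 2 * R' * ((1 + 2 * e') / (1 + e') * (cc κ + e')) := by
          rw [e3]; ring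
      _ ≤ _ := mul_le_mul_of_nonneg_left e4 (by positivity)
  have h5 : 2 * N * R' ≤ 2 * Real.log A + Real.log Q * (2 * R' * (cc κ + ε)) :=
    hmain.trans (by linarith [mul_le_mul_of_nonneg_left (hconst.trans hconst2) hl])
  have h6 : N * (2 * R') ≤ ((cc κ + ε) * Real.log Q + 1 / R' * Real.log A) * (2 * R') := by
    have e7 : 1 / R' * Real.log A * (2 * R') = 2 * Real.log A := by field_simp
    rw [add_mul, e7]
    linarith
  exact le_of_mul_le_mul_right h6 (by positivity)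

end Pool.Agent.TH809.MZ
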