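import Mathlib
import Pool.Agent.TH809.MZ.Lim2
import Pool.Agent.TH809.MZ.Gam

/-!
Local form: the size of the function in a bounded window controls the number of zeros.
-/

open Complex Filter Topology Set

namespace Pool.Agent.TH809.MZ

/-- a family of entire functions with the growth of L-functions, centred at a point of the critical
line -/
structure LFam {J : Type} (F : J → ℂ → ℂ) (Q X : J → ℝ) : Prop where
  Q1 : ∀ j, 1 ≤ Q j
  X1 : ∀ j, 1 ≤ X j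
  QX : ∃ k : ℝ, 0 < k ∧ ∀ j, Q j ≤ X j ^ k
  diff : ∀ j, Differentiable ℂ (F j)
  crude : ∃ B : ℝ, 1 ≤ B ∧ ∀ j (z : ℂ), |z.re| ≤ 3 / 4 → ‖F j z‖ ≤ B * X j ^ B * (1 + |z.im|) ^ B
  right : ∀ δ : ℝ, 0 < δ → δ ≤ 1 / 4 → ∀ ε : ℝ, 0 < ε → ∃ M : ℝ, 1 ≤ M ∧ ∀ j (z : ℂ),
    z.re = 1 / 2 + δ → ‖F j z‖ ≤ M * X j ^ ε * (1 + |z.im|) ^ M
  left : ∀ δ : ℝ, 0 < δ → δ ≤ 1 / 4 → ∀ ε : ℝ, 0 < ε → ∃ M : ℝ, 1 ≤ M ∧ ∀ j (z : ℂ),
    z.re = -(1 / 2 + δ) → ‖F j z‖ ≤ M * X j ^ ε * Q j ^ (1 / 2 + δ) * (1 + |z.im|) ^ M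
  low : ∀ δ : ℝ, 0 < δ → δ ≤ 1 / 4 → ∃ G : Finset ℝ, (∀ γ ∈ G, δ / 4 ≤ γ ∧ γ ≤ 3 / 4 * δ) ∧
    ∀ ε : ℝ, 0 < ε → ∃ M : ℝ, 1 ≤ M ∧ ∀ j, ∃ γ ∈ G,
      1 ≤ M * X j ^ ε * ‖F j ((1 / 2 + δ - γ : ℝ) : ℂ)‖ ∧
      Q j ^ (1 / 2 + δ - γ) ≤ M * X j ^ ε * ‖F j (-((1 / 2 + δ - γ : ℝ) : ℂ))‖

/-- the kernel -/
noncomputable def kern (lam X : ℝ) (z : ℂ) : ℂ :=
  cexp (z ^ 2) * cexp (((-(lam * Real.log X) : ℝ) : ℂ) * (cos z - 1))

theorem kern_diff (lam X : ℝ) : Differentiable ℂ (kern lam X) := by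
  unfold kern
  fun_prop

theorem kern_ne (lam X : ℝ) (z : ℂ) : kern lam X z ≠ 0 :=
  mul_ne_zero (exp_ne_zero _) (exp_ne_zero _)

theorem kern_norm {lam X : ℝ} (hX : 0 < X) (z : ℂ) : ‖kern lam X z‖ =
    Real.exp (z.re ^ 2) * Real.exp (-z.im ^ 2) *
      X ^ (lam * (1 - Real.cos z.re * Real.cosh z.im)) := by
  unfold kern
  have h1 : ‖cexp (z ^ 2)‖ = Real.exp (z.re ^ 2) * Real.exp (-z.im ^ 2) := by
    rw [norm_exp, ← Real.exp_add]
    congr 1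
    rw [sq, mul_re]
    ring
  rw [norm_mul, h1, norm_exp, re_ofReal_mul, sub_re, one_re, re_cos, Real.rpow_def_of_pos hX]
  congr 2
  ring

theorem cos_34 {x : ℝ} (hx : |x| ≤ 3 / 4) : 0 ≤ Real.cos x := by
  apply Real.cos_nonneg_of_mem_Icc
  have h1 := abs_le.1 hx
  have h2 := Real.pi_gt_three
  constructor <;> linarith

theorem kern_le {lam X : ℝ} (hl : 0 ≤ lam) (hX : 1 ≤ X) {z : ℂ} (hz : |z.re| ≤ 3 / 4) :
    ‖kern lam X z‖ ≤ Real.exp 1 * Real.exp (-z.im ^ 2) * X ^ lam := by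
  rw [kern_norm (by linarith)]
  have h1 : Real.exp (z.re ^ 2) ≤ Real.exp 1 := by
    apply Real.exp_le_exp.2
    have := abs_le.1 hz
    nlinarith
  have h2 : X ^ (lam * (1 - Real.cos z.re * Real.cosh z.im)) ≤ X ^ lam := by
    apply Real.rpow_le_rpow_of_exponent_le hX
    have h3 : 0 ≤ Real.cos z.re * Real.cosh z.im := mul_nonneg (cos_34 hz) (Real.cosh_pos _).le
    nlinarith
  gcongr

/-- growth times kernel -/
theorem kern_growth {lam X M : ℝ} (hl : 0 ≤ lam) (hX : 1 ≤ X) (hM : 1 ≤ M) {z : ℂ}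
    (hz : |z.re| ≤ 3 / 4) :
    (1 + |z.im|) ^ M * ‖kern lam X z‖ ≤ Real.exp (1 + M ^ 2) * X ^ lam := by
  have h1 := kern_le hl hX hz
  have h2 := pow_gauss (r := M) (by linarith) z.im
  calc (1 + |z.im|) ^ M * ‖kern lam X z‖
      ≤ (1 + |z.im|) ^ M * (Real.exp 1 * Real.exp (-z.im ^ 2) * X ^ lam) :=
        mul_le_mul_of_nonneg_left h1 (by positivity)
    _ = Real.exp 1 * ((1 + |z.im|) ^ M * Real.exp (-z.im ^ 2)) * X ^ lam := by ring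
    _ ≤ Real.exp 1 * Real.exp (M ^ 2) * X ^ lam := by gcongr
    _ = _ := by rw [← Real.exp_add]

theorem kern_real {lam X : ℝ} (hl : 0 ≤ lam) (hX : 1 ≤ X) (x : ℝ) : 1 ≤ ‖kern lam X x‖ := by
  rw [kern_norm (by linarith)]
  simp only [ofReal_re, ofReal_im, Real.cosh_zero, mul_one]
  have h1 : 1 ≤ Real.exp (x ^ 2) := Real.one_le_exp (sq_nonneg _)
  have h2 : Real.exp (-(0:ℝ) ^ 2) = 1 := by norm_num
  have h3 : 1 ≤ X ^ (lam * (1 - Real.cos x)) := by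
    apply Real.one_le_rpow hX
    apply mul_nonneg hl
    linarith [Real.cos_le_one x]
  rw [h2, mul_one]
  nlinarith

/-- `F` times the kernel -/
noncomputable def gg {J : Type} (F : J → ℂ → ℂ) (X : J → ℝ) (lam : ℝ) (j : J) (z : ℂ) : ℂ :=
  F j z * kern lam (X j) z

theorem exists_common {P : ℝ → ℝ → ℝ → Prop} (G : Finset ℝ)
    (hmono : ∀ γ h C h' C', 0 < h' → h' ≤ h → C ≤ C' → P γ h C → P γ h' C')
    (hex : ∀ γ ∈ G, ∃ h C : ℝ, 0 < h ∧ 0 < C ∧ P γ h C) :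
    ∃ h C : ℝ, 0 < h ∧ 0 < C ∧ ∀ γ ∈ G, P γ h C := by
  classical
  induction G using Finset.induction_on with
  | empty => exact ⟨1, 1, one_pos, one_pos, by simp⟩
  | insert a G ha ih =>
    obtain ⟨h1, C1, hh1, hC1, H1⟩ := hex a (Finset.mem_insert_self a G)
    obtain ⟨h2, C2, hh2, hC2, H2⟩ := ih fun γ hγ => hex γ (Finset.mem_insert_of_mem hγ)
    have hm : 0 < min h1 h2 := lt_min hh1 hh2
    refine ⟨min h1 h2, max C1 C2, hm, lt_max_of_lt_left hC1, fun γ hγ => ?_⟩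
    rcases Finset.mem_insert.1 hγ with h | h
    · subst h
      exact hmono _ _ _ _ _ hm (min_le_left _ _) (le_max_left _ _) H1
    · exact hmono _ _ _ _ _ hm (min_le_right _ _) (le_max_right _ _) (H2 γ h)

variable {J : Type} {F : J → ℂ → ℂ} {Q X : J → ℝ}

theorem gg_order (lam : ℝ) (j : J) (hd : Differentiable ℂ (F j)) (x : ℂ) :
    analyticOrderNatAt (gg F X lam j) x = analyticOrderNatAt (F j) x := by
  have ha1 : AnalyticAt ℂ (F j) x := hd.analyticAt x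
  have ha2 : AnalyticAt ℂ (kern lam (X j)) x := (kern_diff lam (X j)).analyticAt x
  have h2 : analyticOrderAt (kern lam (X j)) x = 0 := by
    rw [ha2.analyticOrderAt_eq_zero]
    exact kern_ne _ _ _
  have e1 : gg F X lam j = F j * kern lam (X j) := rfl
  unfold analyticOrderNatAt
  rw [e1, analyticOrderAt_mul ha1 ha2, h2, add_zero]

/-- the basic step -/
theorem step (H : LFam F Q X) {κ ε : ℝ} (h0 : 0 ≤ κ) (h1 : κ ≤ 1 / 4) (hε : 0 < ε) :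
    ∃ h lam : ℝ, 0 < h ∧ 0 < lam ∧ ∀ M₀ : ℝ, 1 ≤ M₀ → ∃ C : ℝ, ∀ j,
      (∀ z : ℂ, z.re = 0 → ‖gg F X lam j z‖ * ‖gg F X lam j (-z)‖ ≤
        M₀ * X j ^ (4 * lam) * Q j ^ (2 * κ)) →
      ∀ S : Finset ℂ, (∀ x ∈ S, |x.re| ≤ 1 / 2 ∧ |x.im| ≤ h) →
      ∑ x ∈ S, (analyticOrderNatAt (F j) x : ℝ) ≤
        (cc κ + ε) * Real.log (Q j) + ε * Real.log (X j) + C := by
  obtain ⟨δ, hδ0, hδ1, hmain⟩ := mult_final2 h0 h1 hε
  obtain ⟨G, hG, hlow⟩ := H.low δ hδ0 hδ1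
  obtain ⟨h, C₁, hh, hC₁, hGP⟩ := exists_common (P := fun γ h C₁ => ∀ A Q : ℝ, 1 ≤ A → 1 ≤ Q →
      ∀ f : ℂ → ℂ, Differentiable ℂ f → ∀ S : Finset ℂ, (∀ x ∈ S, |x.re| ≤ 1 / 2 ∧ |x.im| ≤ h) →
      (∃ B : ℝ, ∀ z : ℂ, |z.re| ≤ 1 / 2 + δ → ‖f z‖ ≤ B) →
      (∀ z : ℂ, z.re = 0 → ‖f z‖ * ‖f (-z)‖ ≤ A * Q ^ (2 * κ)) →
      (∀ z : ℂ, z.re = 1 / 2 + δ → ‖f z‖ * ‖f (-z)‖ ≤ A * Q ^ (1 / 2 + δ)) →
      (A⁻¹ * Q ^ (1 / 2 + δ - γ) ≤
        ‖f ((1 / 2 + δ - γ : ℝ) : ℂ)‖ * ‖f (-((1 / 2 + δ - γ : ℝ) : ℂ))‖) →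
      ∑ x ∈ S, (analyticOrderNatAt f x : ℝ) ≤ (cc κ + ε) * Real.log Q + C₁ * Real.log A) G
    (by
      intro γ h C h' C' _ hhh hCC hP A Q hA hQ f hf S hS a1 a2 a3 a4
      refine (hP A Q hA hQ f hf S (fun x hx => ⟨(hS x hx).1, (hS x hx).2.trans hhh⟩) a1 a2 a3 a4).trans ?_
      have := mul_le_mul_of_nonneg_right hCC (Real.log_nonneg hA)
      linarith)
    (fun γ hγ => hmain γ (hG γ hγ).1 (hG γ hγ).2)
  obtain ⟨lam, hlam0, hlam⟩ : ∃ lam : ℝ, 0 < lam ∧ lam = ε / (4 * C₁) :=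
    ⟨ε / (4 * C₁), by positivity, rfl⟩
  obtain ⟨M1, hM1, b1⟩ := H.right δ hδ0 hδ1 lam hlam0
  obtain ⟨M2, hM2, b2⟩ := H.left δ hδ0 hδ1 lam hlam0
  obtain ⟨M3, hM3, b3⟩ := hlow lam hlam0
  obtain ⟨B, hB1, b4⟩ := H.crude
  refine ⟨h, lam, hh, hlam0, fun M₀ hM₀ => ?_⟩
  set E1 : ℝ := Real.exp (1 + M1 ^ 2) with hE1
  set E2 : ℝ := Real.exp (1 + M2 ^ 2) with hE2
  have hE11 : 1 ≤ E1 := Real.one_le_exp (by positivity)
  have hE21 : 1 ≤ E2 := Real.one_le_exp (by positivity)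
  obtain ⟨A0, hA0, hA01⟩ : ∃ A0 : ℝ, A0 = M₀ + (M1 * E1) * (M2 * E2) + M3 ^ 2 ∧ 1 ≤ A0 := by
    refine ⟨_, rfl, ?_⟩
    have : 0 ≤ (M1 * E1) * (M2 * E2) := by positivity
    have : 0 ≤ M3 ^ 2 := sq_nonneg _
    linarith
  refine ⟨C₁ * Real.log A0, fun j hcen S hS => ?_⟩
  have hX := H.X1 j
  have hQ := H.Q1 j
  have hX0 : 0 < X j := by linarith
  have hQ0 : 0 < Q j := by linarith
  obtain ⟨γ, hγG, l1, l2⟩ := b3 j
  have hγ := hG γ hγG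
  set A : ℝ := A0 * X j ^ (4 * lam) with hA
  have hXp : 1 ≤ X j ^ (4 * lam) := Real.one_le_rpow hX (by positivity)
  have hA1 : 1 ≤ A := by
    rw [hA]; nlinarith
  have hA00 : 0 < A0 := by linarith
  have hPdef := hGP γ hγG A (Q j) hA1 hQ (gg F X lam j) ((H.diff j).mul (kern_diff lam (X j))) S hS
    ?_ ?_ ?_ ?_
  · have e1 : ∑ x ∈ S, (analyticOrderNatAt (gg F X lam j) x : ℝ) =
        ∑ x ∈ S, (analyticOrderNatAt (F j) x : ℝ) := by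
      apply Finset.sum_congr rfl
      intro x _
      rw [gg_order lam j (H.diff j)]
    rw [e1] at hPdef
    have e2 : Real.log A = Real.log A0 + 4 * lam * Real.log (X j) := by
      rw [hA, Real.log_mul hA00.ne' (by positivity), Real.log_rpow hX0]
    have e3 : C₁ * (4 * lam * Real.log (X j)) = ε * Real.log (X j) := by
      rw [hlam]; field_simp
    rw [e2, mul_add, e3] at hPdef
    linarith
  · -- bounded
    refine ⟨B * X j ^ B * (Real.exp (1 + B ^ 2) * X j ^ lam), fun z hz => ?_⟩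
    have hz' : |z.re| ≤ 3 / 4 := hz.trans (by linarith)
    unfold gg
    rw [norm_mul]
    calc ‖F j z‖ * ‖kern lam (X j) z‖ ≤ (B * X j ^ B * (1 + |z.im|) ^ B) * ‖kern lam (X j) z‖ :=
          mul_le_mul_of_nonneg_right (b4 j z hz') (norm_nonneg _)
      _ = B * X j ^ B * ((1 + |z.im|) ^ B * ‖kern lam (X j) z‖) := by ring
      _ ≤ _ := mul_le_mul_of_nonneg_left (kern_growth hlam0.le hX hB1 hz') (by positivity)
  · -- centre
    intro z hz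
    refine (hcen z hz).trans ?_
    apply mul_le_mul_of_nonneg_right _ (by positivity)
    rw [hA]
    apply mul_le_mul_of_nonneg_right _ (by positivity)
    have : 0 ≤ (M1 * E1) * (M2 * E2) := by positivity
    have : 0 ≤ M3 ^ 2 := sq_nonneg _
    rw [hA0]
    linarith
  · -- edges
    intro z hz
    have hz1 : |z.re| ≤ 3 / 4 := by rw [hz, abs_of_pos (by linarith)]; linarith
    have hz2 : |(-z).re| ≤ 3 / 4 := by rw [neg_re, abs_neg]; exact hz1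
    have c1 : ‖gg F X lam j z‖ ≤ M1 * E1 * X j ^ (2 * lam) := by
      unfold gg
      rw [norm_mul]
      have e : X j ^ (2 * lam) = X j ^ lam * X j ^ lam := by
        rw [← Real.rpow_add hX0]; ring_nf
      calc ‖F j z‖ * ‖kern lam (X j) z‖ ≤ (M1 * X j ^ lam * (1 + |z.im|) ^ M1) * ‖kern lam (X j) z‖ :=
            mul_le_mul_of_nonneg_right (b1 j z hz) (norm_nonneg _)
        _ = M1 * X j ^ lam * ((1 + |z.im|) ^ M1 * ‖kern lam (X j) z‖) := by ring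
        _ ≤ M1 * X j ^ lam * (E1 * X j ^ lam) :=
            mul_le_mul_of_nonneg_left (kern_growth hlam0.le hX hM1 hz1) (by positivity)
        _ = _ := by rw [e]; ring
    have c2 : ‖gg F X lam j (-z)‖ ≤ M2 * E2 * X j ^ (2 * lam) * Q j ^ (1 / 2 + δ) := by
      unfold gg
      rw [norm_mul]
      have e : X j ^ (2 * lam) = X j ^ lam * X j ^ lam := by
        rw [← Real.rpow_add hX0]; ring_nf
      calc ‖F j (-z)‖ * ‖kern lam (X j) (-z)‖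
          ≤ (M2 * X j ^ lam * Q j ^ (1 / 2 + δ) * (1 + |(-z).im|) ^ M2) * ‖kern lam (X j) (-z)‖ :=
            mul_le_mul_of_nonneg_right (b2 j (-z) (by rw [neg_re, hz])) (norm_nonneg _)
        _ = M2 * X j ^ lam * Q j ^ (1 / 2 + δ) * ((1 + |(-z).im|) ^ M2 * ‖kern lam (X j) (-z)‖) := by
            ring
        _ ≤ M2 * X j ^ lam * Q j ^ (1 / 2 + δ) * (E2 * X j ^ lam) :=
            mul_le_mul_of_nonneg_left (kern_growth hlam0.le hX hM2 hz2) (by positivity)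
        _ = _ := by rw [e]; ring
    have e : X j ^ (4 * lam) = X j ^ (2 * lam) * X j ^ (2 * lam) := by
      rw [← Real.rpow_add hX0]; ring_nf
    calc ‖gg F X lam j z‖ * ‖gg F X lam j (-z)‖
        ≤ (M1 * E1 * X j ^ (2 * lam)) * (M2 * E2 * X j ^ (2 * lam) * Q j ^ (1 / 2 + δ)) :=
          mul_le_mul c1 c2 (norm_nonneg _) (by positivity)
      _ = ((M1 * E1) * (M2 * E2)) * X j ^ (4 * lam) * Q j ^ (1 / 2 + δ) := by rw [e]; ring
      _ ≤ _ := by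
          apply mul_le_mul_of_nonneg_right _ (by positivity)
          rw [hA]
          apply mul_le_mul_of_nonneg_right _ (by positivity)
          have : 0 ≤ M3 ^ 2 := sq_nonneg _
          rw [hA0]
          linarith
  · -- lower bound
    set x0 : ℝ := 1 / 2 + δ - γ with hx0
    have c1 : ‖F j (x0 : ℂ)‖ ≤ ‖gg F X lam j (x0:ℂ)‖ := by
      unfold gg
      rw [norm_mul]
      exact le_mul_of_one_le_right (norm_nonneg _) (kern_real hlam0.le hX x0)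
    have c2 : ‖F j (-(x0 : ℂ))‖ ≤ ‖gg F X lam j (-(x0:ℂ))‖ := by
      unfold gg
      rw [norm_mul]
      have := kern_real hlam0.le hX (-x0)
      rw [ofReal_neg] at this
      exact le_mul_of_one_le_right (norm_nonneg _) this
    have c3 : Q j ^ x0 ≤ (M3 * X j ^ lam) ^ 2 * (‖F j (x0 : ℂ)‖ * ‖F j (-(x0 : ℂ))‖) := by
      have h3 : 0 ≤ Q j ^ x0 := by positivity
      calc Q j ^ x0 = 1 * Q j ^ x0 := (one_mul _).symm
        _ ≤ (M3 * X j ^ lam * ‖F j (x0 : ℂ)‖) * (M3 * X j ^ lam * ‖F j (-(x0 : ℂ))‖) :=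
            mul_le_mul l1 l2 h3 (by positivity)
        _ = _ := by ring
    have c4 : (M3 * X j ^ lam) ^ 2 ≤ A := by
      have e : (X j ^ lam) ^ 2 = X j ^ (2 * lam) := by
        rw [← Real.rpow_natCast, ← Real.rpow_mul hX0.le]; ring_nf
      have e2 : X j ^ (2 * lam) ≤ X j ^ (4 * lam) :=
        Real.rpow_le_rpow_of_exponent_le hX (by linarith)
      rw [mul_pow, e, hA]
      apply mul_le_mul _ e2 (by positivity) hA00.le
      have : 0 ≤ (M1 * E1) * (M2 * E2) := by positivity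
      rw [hA0]
      linarith
    have hApos : 0 < A := by linarith
    rw [inv_mul_le_iff₀ hApos]
    calc Q j ^ x0 ≤ (M3 * X j ^ lam) ^ 2 * (‖F j (x0 : ℂ)‖ * ‖F j (-(x0 : ℂ))‖) := c3
      _ ≤ A * (‖gg F X lam j (x0:ℂ)‖ * ‖gg F X lam j (-(x0:ℂ))‖) := by
          apply mul_le_mul c4 _ (by positivity) hApos.le
          exact mul_le_mul c1 c2 (norm_nonneg _) (norm_nonneg _)

end Pool.Agent.TH809.MZ
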