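import Mathlib
import Pool.Agent.TH809.MZ.Loc

/-!
The law: clusters of zeros force large values in a bounded window.
-/

open Complex Filter Topology Set

namespace Pool.Agent.TH809.MZ

variable {J : Type} {F : J → ℂ → ℂ} {Q X : J → ℝ}

/-- a fixed exponent -/
theorem local_fixed (H : LFam F Q X) {κ ε : ℝ} (h0 : 0 ≤ κ) (h1 : κ ≤ 1 / 4) (hε : 0 < ε) :
    ∃ h W C : ℝ, 0 < h ∧ 0 ≤ W ∧ ∀ j (V : ℝ), 1 ≤ V → V ≤ Q j ^ κ →
      (∀ y : ℝ, |y| ≤ W → ‖F j (y * I)‖ ≤ V) →
      ∀ S : Finset ℂ, (∀ x ∈ S, |x.re| ≤ 1 / 2 ∧ |x.im| ≤ h) →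
      ∑ x ∈ S, (analyticOrderNatAt (F j) x : ℝ) ≤
        (cc κ + ε) * Real.log (Q j) + ε * Real.log (X j) + C := by
  obtain ⟨h, lam, hh, hlam, H1⟩ := step H h0 h1 hε
  obtain ⟨B, hB1, hB⟩ := H.crude
  -- the window
  obtain ⟨W, hW0, hW⟩ : ∃ W : ℝ, 0 ≤ W ∧ B ≤ lam * (Real.cosh W - 1) := by
    refine ⟨2 * (B / lam + 1), by positivity, ?_⟩
    have h2 : ∀ x : ℝ, 0 ≤ x → x ≤ 2 * Real.cosh x - 0 := by
      intro x hx
      have := Real.self_le_sinh_iff.2 hx
      have h3 := Real.sinh_lt_cosh x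
      have h4 := Real.cosh_pos x
      linarith
    set w : ℝ := 2 * (B / lam + 1) with hw
    have h3 : w ≤ Real.sinh w := Real.self_le_sinh_iff.2 (by positivity)
    have h4 := Real.sinh_lt_cosh w
    have h5 : B / lam ≤ Real.cosh w - 1 := by
      have : 0 ≤ B / lam := by positivity
      linarith
    rw [div_le_iff₀ hlam] at h5
    linarith
  set M : ℝ := B * Real.exp (1 + B ^ 2) with hM
  have hM1 : 1 ≤ M := by
    have : 1 ≤ Real.exp (1 + B ^ 2) := Real.one_le_exp (by positivity)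
    rw [hM]; nlinarith
  obtain ⟨C, hC⟩ := H1 (M ^ 2) (by nlinarith)
  refine ⟨h, W, C, hh, hW0, fun j V hV1 hVQ hV S hS => hC j ?_ S hS⟩
  have hX := H.X1 j
  have hX0 : 0 < X j := by linarith
  have hQ0 : 0 < Q j := by linarith [H.Q1 j]
  have key : ∀ z : ℂ, z.re = 0 → ‖gg F X lam j z‖ ≤ M * X j ^ (2 * lam) * V := by
    intro z hz
    have hz34 : |z.re| ≤ 3 / 4 := by rw [hz, abs_zero]; norm_num
    have hXl : 1 ≤ X j ^ lam := Real.one_le_rpow hX hlam.le
    have hXl2 : X j ^ lam ≤ X j ^ (2 * lam) := Real.rpow_le_rpow_of_exponent_le hX (by linarith)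
    have hX2l : 1 ≤ X j ^ (2 * lam) := Real.one_le_rpow hX (by positivity)
    unfold gg
    rw [norm_mul]
    by_cases hy : |z.im| ≤ W
    · have e : z = z.im * I := by
        apply Complex.ext <;> simp [hz]
      have h2 : ‖F j z‖ ≤ V := by rw [e]; exact hV _ hy
      have h3 := kern_growth (lam := lam) (M := 1) hlam.le hX le_rfl hz34
      have h4 : ‖kern lam (X j) z‖ ≤ (1 + |z.im|) ^ (1:ℝ) * ‖kern lam (X j) z‖ := by
        apply le_mul_of_one_le_left (norm_nonneg _)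
        rw [Real.rpow_one]
        linarith [abs_nonneg z.im]
      have h5 : Real.exp (1 + (1:ℝ) ^ 2) ≤ M := by
        rw [hM]
        have h6 : Real.exp (1 + (1:ℝ) ^ 2) ≤ Real.exp (1 + B ^ 2) := by
          apply Real.exp_le_exp.2
          nlinarith
        have h7 : 0 < Real.exp (1 + B ^ 2) := Real.exp_pos _
        nlinarith
      calc ‖F j z‖ * ‖kern lam (X j) z‖ ≤ V * (Real.exp (1 + 1 ^ 2) * X j ^ lam) :=
            mul_le_mul h2 (h4.trans h3) (norm_nonneg _) (by linarith)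
        _ ≤ V * (M * X j ^ (2 * lam)) := by gcongr
        _ = _ := by ring
    · rw [not_le] at hy
      have h2 := hB j z hz34
      rw [kern_norm hX0, hz, zero_pow (by norm_num), Real.exp_zero, one_mul, Real.cos_zero, one_mul]
      have h3 : X j ^ (lam * (1 - Real.cosh z.im)) ≤ X j ^ (-B) := by
        apply Real.rpow_le_rpow_of_exponent_le hX
        have h4 : Real.cosh W ≤ Real.cosh z.im := by
          rw [Real.cosh_le_cosh, abs_of_nonneg hW0]
          exact hy.le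
        nlinarith
      have h5 := pow_gauss (r := B) (by linarith) z.im
      have h6 : X j ^ B * X j ^ (-B) = 1 := by
        rw [← Real.rpow_add hX0]; simp
      calc ‖F j z‖ * (Real.exp (-z.im ^ 2) * X j ^ (lam * (1 - Real.cosh z.im)))
          ≤ (B * X j ^ B * (1 + |z.im|) ^ B) * (Real.exp (-z.im ^ 2) * X j ^ (-B)) := by gcongr
        _ = B * ((1 + |z.im|) ^ B * Real.exp (-z.im ^ 2)) * (X j ^ B * X j ^ (-B)) := by ring
        _ ≤ B * Real.exp (B ^ 2) * 1 := by rw [h6]; gcongr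
        _ ≤ M := by
            rw [hM, mul_one]
            apply mul_le_mul_of_nonneg_left _ (by linarith)
            apply Real.exp_le_exp.2
            linarith
        _ ≤ M * X j ^ (2 * lam) * V := by
            have h8 : 1 ≤ X j ^ (2 * lam) * V := by nlinarith
            rw [mul_assoc]
            exact le_mul_of_one_le_right (by linarith) h8
  intro z hz
  have c1 := key z hz
  have c2 := key (-z) (by rw [neg_re, hz, neg_zero])
  have e : X j ^ (4 * lam) = X j ^ (2 * lam) * X j ^ (2 * lam) := by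
    rw [← Real.rpow_add hX0]; ring_nf
  have e2 : Q j ^ (2 * κ) = Q j ^ κ * Q j ^ κ := by
    rw [← Real.rpow_add hQ0]; ring_nf
  calc ‖gg F X lam j z‖ * ‖gg F X lam j (-z)‖
      ≤ (M * X j ^ (2 * lam) * V) * (M * X j ^ (2 * lam) * V) :=
        mul_le_mul c1 c2 (norm_nonneg _) (by positivity)
    _ = M ^ 2 * X j ^ (4 * lam) * (V * V) := by rw [e]; ring
    _ ≤ M ^ 2 * X j ^ (4 * lam) * (Q j ^ κ * Q j ^ κ) := by
        apply mul_le_mul_of_nonneg_left _ (by positivity)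
        exact mul_le_mul hVQ hVQ (by linarith) (by positivity)
    _ = _ := by rw [e2]

/-- without any hypothesis: the convexity bound -/
theorem local_conv (H : LFam F Q X) {ε : ℝ} (hε : 0 < ε) :
    ∃ h C : ℝ, 0 < h ∧ ∀ j, ∀ S : Finset ℂ, (∀ x ∈ S, |x.re| ≤ 1 / 2 ∧ |x.im| ≤ h) →
      ∑ x ∈ S, (analyticOrderNatAt (F j) x : ℝ) ≤
        (cc (1 / 4) + ε) * Real.log (Q j) + ε * Real.log (X j) + C := by
  obtain ⟨h, lam, hh, hlam, H1⟩ := step H (κ := 1 / 4) (by norm_num) le_rfl hε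
  obtain ⟨k, hk, hQX⟩ := H.QX
  obtain ⟨δ, hδ0, hδ1, hδ2⟩ : ∃ δ : ℝ, 0 < δ ∧ δ ≤ 1 / 4 ∧ k * δ ≤ lam := by
    refine ⟨min (1 / 4) (lam / k), by positivity, min_le_left _ _, ?_⟩
    calc k * min (1 / 4) (lam / k) ≤ k * (lam / k) := mul_le_mul_of_nonneg_left (min_le_right _ _) hk.le
      _ = lam := by field_simp
  obtain ⟨M1, hM1, b1⟩ := H.right δ hδ0 hδ1 (lam / 2) (by positivity)
  obtain ⟨M2, hM2, b2⟩ := H.left δ hδ0 hδ1 (lam / 2) (by positivity)
  obtain ⟨B, hB1, b4⟩ := H.crude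
  set E1 : ℝ := Real.exp (1 + M1 ^ 2) with hE1
  set E2 : ℝ := Real.exp (1 + M2 ^ 2) with hE2
  have hE11 : 1 ≤ E1 := Real.one_le_exp (by positivity)
  have hE21 : 1 ≤ E2 := Real.one_le_exp (by positivity)
  have hM0 : 1 ≤ (M1 * E1) * (M2 * E2) := by
    have h1 : 1 ≤ M1 * E1 := by nlinarith
    have h2 : 1 ≤ M2 * E2 := by nlinarith
    nlinarith
  obtain ⟨C, hC⟩ := H1 ((M1 * E1) * (M2 * E2)) hM0
  refine ⟨h, C, hh, fun j S hS => hC j ?_ S hS⟩
  have hX := H.X1 j
  have hX0 : 0 < X j := by linarith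
  have hQ := H.Q1 j
  have hQ0 : 0 < Q j := by linarith
  -- the product is bounded on the edges
  have hgd : Differentiable ℂ (gg F X lam j) := (H.diff j).mul (kern_diff lam (X j))
  have hbd : ∀ z : ℂ, |z.re| ≤ 3 / 4 →
      ‖gg F X lam j z‖ ≤ B * X j ^ B * (Real.exp (1 + B ^ 2) * X j ^ lam) := by
    intro z hz'
    unfold gg
    rw [norm_mul]
    calc ‖F j z‖ * ‖kern lam (X j) z‖ ≤ (B * X j ^ B * (1 + |z.im|) ^ B) * ‖kern lam (X j) z‖ :=
          mul_le_mul_of_nonneg_right (b4 j z hz') (norm_nonneg _)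
      _ = B * X j ^ B * ((1 + |z.im|) ^ B * ‖kern lam (X j) z‖) := by ring
      _ ≤ _ := mul_le_mul_of_nonneg_left (kern_growth hlam.le hX hB1 hz') (by positivity)
  set D : ℝ := ((M1 * E1) * (M2 * E2)) * X j ^ (3 * lam) * Q j ^ (1 / 2 + δ) with hD
  have hedge : ∀ z : ℂ, z.re = 1 / 2 + δ → ‖gg F X lam j z‖ * ‖gg F X lam j (-z)‖ ≤ D := by
    intro z hz
    have hz1 : |z.re| ≤ 3 / 4 := by rw [hz, abs_of_pos (by linarith)]; linarith
    have hz2 : |(-z).re| ≤ 3 / 4 := by rw [neg_re, abs_neg]; exact hz1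
    have e : X j ^ (lam / 2) * X j ^ lam = X j ^ (3 / 2 * lam) := by
      rw [← Real.rpow_add hX0]; ring_nf
    have c1 : ‖gg F X lam j z‖ ≤ M1 * E1 * X j ^ (3 / 2 * lam) := by
      unfold gg
      rw [norm_mul]
      calc ‖F j z‖ * ‖kern lam (X j) z‖
          ≤ (M1 * X j ^ (lam / 2) * (1 + |z.im|) ^ M1) * ‖kern lam (X j) z‖ :=
            mul_le_mul_of_nonneg_right (b1 j z hz) (norm_nonneg _)
        _ = M1 * X j ^ (lam / 2) * ((1 + |z.im|) ^ M1 * ‖kern lam (X j) z‖) := by ring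
        _ ≤ M1 * X j ^ (lam / 2) * (E1 * X j ^ lam) :=
            mul_le_mul_of_nonneg_left (kern_growth hlam.le hX hM1 hz1) (by positivity)
        _ = _ := by rw [← e]; ring
    have c2 : ‖gg F X lam j (-z)‖ ≤ M2 * E2 * X j ^ (3 / 2 * lam) * Q j ^ (1 / 2 + δ) := by
      unfold gg
      rw [norm_mul]
      calc ‖F j (-z)‖ * ‖kern lam (X j) (-z)‖
          ≤ (M2 * X j ^ (lam / 2) * Q j ^ (1 / 2 + δ) * (1 + |(-z).im|) ^ M2) *
              ‖kern lam (X j) (-z)‖ :=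
            mul_le_mul_of_nonneg_right (b2 j (-z) (by rw [neg_re, hz])) (norm_nonneg _)
        _ = M2 * X j ^ (lam / 2) * Q j ^ (1 / 2 + δ) *
              ((1 + |(-z).im|) ^ M2 * ‖kern lam (X j) (-z)‖) := by ring
        _ ≤ M2 * X j ^ (lam / 2) * Q j ^ (1 / 2 + δ) * (E2 * X j ^ lam) :=
            mul_le_mul_of_nonneg_left (kern_growth hlam.le hX hM2 hz2) (by positivity)
        _ = _ := by rw [← e]; ring
    have e3 : X j ^ (3 * lam) = X j ^ (3 / 2 * lam) * X j ^ (3 / 2 * lam) := by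
      rw [← Real.rpow_add hX0]; ring_nf
    calc ‖gg F X lam j z‖ * ‖gg F X lam j (-z)‖
        ≤ (M1 * E1 * X j ^ (3 / 2 * lam)) * (M2 * E2 * X j ^ (3 / 2 * lam) * Q j ^ (1 / 2 + δ)) :=
          mul_le_mul c1 c2 (norm_nonneg _) (by positivity)
      _ = D := by rw [hD, e3]; ring
  -- Phragmén–Lindelöf
  intro z hz
  set Ef : ℂ → ℂ := fun z => gg F X lam j z * gg F X lam j (-z) with hEf
  have hEd : Differentiable ℂ Ef := hgd.mul (hgd.comp differentiable_neg)
  have hPL : ‖Ef z‖ ≤ D := by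
    apply PhragmenLindelof.vertical_strip (a := -(1 / 2 + δ)) (b := 1 / 2 + δ)
      hEd.diffContOnCl ⟨0, by
        have : (0:ℝ) < (1 / 2 + δ) - (-(1 / 2 + δ)) := by linarith
        positivity, 0, ?_⟩
    · intro w hw
      have := hedge (-w) (by rw [neg_re, hw, neg_neg])
      rw [neg_neg, mul_comm] at this
      simp only [hEf, norm_mul]
      exact this
    · intro w hw
      simp only [hEf, norm_mul]
      exact hedge w hw
    · rw [hz]; linarith
    · rw [hz]; linarith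
    · set N0 : ℝ := B * X j ^ B * (Real.exp (1 + B ^ 2) * X j ^ lam) with hN0
      apply Asymptotics.IsBigO.of_bound (N0 * N0)
      rw [Filter.eventually_inf_principal]
      filter_upwards with w hw
      have hw' : |w.re| ≤ 3 / 4 := by
        have h1 : -(1 / 2 + δ) < w.re := hw.1
        have h2 : w.re < 1 / 2 + δ := hw.2
        rw [abs_le]
        constructor <;> linarith
      have c1 := hbd w hw'
      have c2 := hbd (-w) (by rw [neg_re, abs_neg]; exact hw')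
      simp only [hEf, norm_mul]
      have : ‖gg F X lam j w‖ * ‖gg F X lam j (-w)‖ ≤ N0 * N0 :=
        mul_le_mul c1 c2 (norm_nonneg _) (by positivity)
      simpa using this
  simp only [hEf, norm_mul] at hPL
  refine hPL.trans ?_
  rw [hD]
  have e4 : Q j ^ (1 / 2 + δ) ≤ X j ^ lam * Q j ^ (2 * (1 / 4 : ℝ)) := by
    have e5 : Q j ^ δ ≤ X j ^ lam := by
      calc Q j ^ δ ≤ (X j ^ k) ^ δ := Real.rpow_le_rpow hQ0.le (hQX j) hδ0.le
        _ = X j ^ (k * δ) := by rw [← Real.rpow_mul hX0.le]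
        _ ≤ _ := Real.rpow_le_rpow_of_exponent_le hX hδ2
    have e6 : (1 / 2 + δ) = δ + 2 * (1 / 4 : ℝ) := by ring
    rw [e6, Real.rpow_add hQ0]
    exact mul_le_mul_of_nonneg_right e5 (by positivity)
  have e7 : X j ^ (4 * lam) = X j ^ (3 * lam) * X j ^ lam := by
    rw [← Real.rpow_add hX0]; ring_nf
  calc (M1 * E1) * (M2 * E2) * X j ^ (3 * lam) * Q j ^ (1 / 2 + δ)
      ≤ (M1 * E1) * (M2 * E2) * X j ^ (3 * lam) * (X j ^ lam * Q j ^ (2 * (1 / 4 : ℝ))) :=
        mul_le_mul_of_nonneg_left e4 (by positivity)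
    _ = _ := by rw [e7]; ring

/-- the bound for the number of zeros in terms of `v = log V` and `q = log Q` -/
noncomputable def cl (v q : ℝ) : ℝ := Real.sqrt (2 * v * (q - 2 * v)) / Real.pi

theorem sqrt_add_le' {x y : ℝ} (hx : 0 ≤ x) (hy : 0 ≤ y) :
    Real.sqrt (x + y) ≤ Real.sqrt x + Real.sqrt y := by
  apply Real.sqrt_le_iff.2
  refine ⟨by positivity, ?_⟩
  have h1 := Real.sq_sqrt hx
  have h2 := Real.sq_sqrt hy
  have h3 : 0 ≤ Real.sqrt x * Real.sqrt y := by positivity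
  nlinarith

theorem cc_step {κ κ' : ℝ} (h0 : 0 ≤ κ) (h1 : κ ≤ κ') (h2 : κ' ≤ 1 / 4) :
    cc κ' ≤ cc κ + Real.sqrt (2 * (κ' - κ)) / Real.pi := by
  have hpi := Real.pi_pos
  unfold cc
  rw [← add_div]
  apply div_le_div_of_nonneg_right _ hpi.le
  have h3 : 2 * κ' * (1 - 2 * κ') ≤ 2 * κ * (1 - 2 * κ) + 2 * (κ' - κ) := by nlinarith
  calc Real.sqrt (2 * κ' * (1 - 2 * κ')) ≤ Real.sqrt (2 * κ * (1 - 2 * κ) + 2 * (κ' - κ)) :=
        Real.sqrt_le_sqrt h3
    _ ≤ _ := sqrt_add_le' (by apply mul_nonneg <;> linarith) (by linarith)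

theorem cc_cl {v q : ℝ} (hq : 0 < q) : cc (v / q) * q = cl v q := by
  unfold cc cl
  rw [div_mul_eq_mul_div]
  congr 1
  have h1 : q = Real.sqrt (q ^ 2) := (Real.sqrt_sq hq.le).symm
  conv_lhs => rw [h1]
  rw [← Real.sqrt_mul' _ (sq_nonneg _)]
  congr 1
  rw [Real.sqrt_sq hq.le]
  field_simp

/-- finitely many exponents -/
theorem local_grid (H : LFam F Q X) {ε : ℝ} (hε : 0 < ε) (n : ℕ) (hn : 0 < n) (r : ℕ) (hr : r ≤ n) :
    ∃ h W C : ℝ, 0 < h ∧ 0 ≤ W ∧ ∀ t : ℕ, 1 ≤ t → t ≤ r → ∀ j (V : ℝ), 1 ≤ V →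
      V ≤ Q j ^ ((t:ℝ) / (4 * n)) →
      (∀ y : ℝ, |y| ≤ W → ‖F j (y * I)‖ ≤ V) →
      ∀ S : Finset ℂ, (∀ x ∈ S, |x.re| ≤ 1 / 2 ∧ |x.im| ≤ h) →
      ∑ x ∈ S, (analyticOrderNatAt (F j) x : ℝ) ≤
        (cc ((t:ℝ) / (4 * n)) + ε) * Real.log (Q j) + ε * Real.log (X j) + C := by
  induction r with
  | zero => exact ⟨1, 0, 0, one_pos, le_rfl, fun t h1 h2 => by omega⟩
  | succ r ih =>
    obtain ⟨h1, W1, C1, hh1, hW1, H1⟩ := ih (by omega)
    have hn0 : (0:ℝ) < n := by exact_mod_cast hn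
    obtain ⟨h2, W2, C2, hh2, hW2, H2⟩ := local_fixed H (κ := ((r + 1 : ℕ) : ℝ) / (4 * n)) (by positivity)
      (by
        rw [div_le_iff₀ (by positivity)]
        have : ((r + 1 : ℕ) : ℝ) ≤ n := by exact_mod_cast hr
        linarith) hε
    refine ⟨min h1 h2, max W1 W2, max C1 C2, lt_min hh1 hh2, le_max_of_le_left hW1, ?_⟩
    intro t ht1 ht2 j V hV1 hVQ hV S hS
    rcases Nat.lt_or_ge t (r + 1) with ht | ht
    · have := H1 t ht1 (by omega) j V hV1 hVQ (fun y hy => hV y (hy.trans (le_max_left _ _))) S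
        (fun x hx => ⟨(hS x hx).1, (hS x hx).2.trans (min_le_left _ _)⟩)
      linarith [le_max_left C1 C2]
    · have e : t = r + 1 := by omega
      subst e
      have := H2 j V hV1 hVQ (fun y hy => hV y (hy.trans (le_max_right _ _))) S
        (fun x hx => ⟨(hS x hx).1, (hS x hx).2.trans (min_le_right _ _)⟩)
      linarith [le_max_right C1 C2]

/-- **the law** -/
theorem local_law (H : LFam F Q X) {ε : ℝ} (hε : 0 < ε) :
    ∃ h W C : ℝ, 0 < h ∧ 0 ≤ W ∧ ∀ j, ∀ S : Finset ℂ, (∀ x ∈ S, |x.re| ≤ 1 / 2 ∧ |x.im| ≤ h) →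
      (∑ x ∈ S, (analyticOrderNatAt (F j) x : ℝ) ≤
        Real.log (Q j) / (2 * Real.pi) + ε * Real.log (X j) + C) ∧
      ∀ V : ℝ, 1 ≤ V → V ≤ Q j ^ (1 / 4 : ℝ) → (∀ y : ℝ, |y| ≤ W → ‖F j (y * I)‖ ≤ V) →
      ∑ x ∈ S, (analyticOrderNatAt (F j) x : ℝ) ≤
        cl (Real.log V) (Real.log (Q j)) + ε * Real.log (X j) + C := by
  have hpi := Real.pi_pos
  obtain ⟨k, hk, hQX⟩ := H.QX
  obtain ⟨e, he0, he1⟩ : ∃ e : ℝ, 0 < e ∧ e * (1 + 2 * k) ≤ ε :=
    ⟨ε / (1 + 2 * k), by positivity, by rw [div_mul_cancel₀]; positivity⟩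
  obtain ⟨n, hn⟩ := exists_nat_gt (1 / e ^ 2)
  have hn0 : (0:ℝ) < n := lt_trans (by positivity) hn
  have hnpos : 0 < n := by exact_mod_cast hn0
  have hsq : Real.sqrt (2 * (1 / (4 * n))) / Real.pi ≤ e := by
    rw [div_le_iff₀ hpi]
    apply Real.sqrt_le_iff.2
    refine ⟨by positivity, ?_⟩
    have h3 := Real.pi_gt_three
    have h4 : 1 / (n:ℝ) < e ^ 2 := by
      rw [div_lt_iff₀ (by positivity)] at hn ⊢
      linarith
    have h5 : 2 * (1 / (4 * (n:ℝ))) = (1 / n) / 2 := by field_simp; ring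
    rw [h5, mul_pow]
    have h6 : (1:ℝ) ≤ Real.pi ^ 2 := by nlinarith
    have h7 : 0 < e ^ 2 := by positivity
    nlinarith
  obtain ⟨h1, W1, C1, hh1, hW1, H1⟩ := local_grid H he0 n hnpos n le_rfl
  obtain ⟨h2, C2, hh2, H2⟩ := local_conv H he0
  have hlogs : ∀ j, 0 ≤ Real.log (Q j) ∧ Real.log (Q j) ≤ k * Real.log (X j) ∧
      0 ≤ Real.log (X j) := by
    intro j
    have hX0 : 0 < X j := by linarith [H.X1 j]
    have hQ0 : 0 < Q j := by linarith [H.Q1 j]
    refine ⟨Real.log_nonneg (H.Q1 j), ?_, Real.log_nonneg (H.X1 j)⟩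
    have := Real.log_le_log hQ0 (hQX j)
    rwa [Real.log_rpow hX0] at this
  refine ⟨min h1 h2, W1, max C1 C2, lt_min hh1 hh2, hW1, fun j S hS => ?_⟩
  obtain ⟨g1, g2, g3⟩ := hlogs j
  have heps : e * Real.log (Q j) + e * Real.log (X j) ≤ ε * Real.log (X j) := by
    have h3 : e * Real.log (Q j) ≤ e * (k * Real.log (X j)) := mul_le_mul_of_nonneg_left g2 he0.le
    have h4 := mul_le_mul_of_nonneg_right he1 g3
    have h5 : 0 ≤ e * k * Real.log (X j) := by positivity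
    nlinarith
  have heps2 : 2 * e * Real.log (Q j) + e * Real.log (X j) ≤ ε * Real.log (X j) := by
    have h3 : e * Real.log (Q j) ≤ e * (k * Real.log (X j)) := mul_le_mul_of_nonneg_left g2 he0.le
    have h4 := mul_le_mul_of_nonneg_right he1 g3
    nlinarith
  constructor
  · have h3 := H2 j S (fun x hx => ⟨(hS x hx).1, (hS x hx).2.trans (min_le_right _ _)⟩)
    have h4 : cc (1 / 4) * Real.log (Q j) = Real.log (Q j) / (2 * Real.pi) := by
      have : cc (1 / 4) = 1 / (2 * Real.pi) := by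
        unfold cc
        have : Real.sqrt (2 * (1 / 4) * (1 - 2 * (1 / 4))) = 1 / 2 := by
          rw [show (2 * (1 / 4) * (1 - 2 * (1 / 4)) : ℝ) = (1 / 2) ^ 2 by norm_num]
          exact Real.sqrt_sq (by norm_num)
        rw [this]
        field_simp
      rw [this]
      ring
    linarith [le_max_right C1 C2]
  · intro V hV1 hVQ hV
    have hV0 : 0 < V := by linarith
    have hQ0 : 0 < Q j := by linarith [H.Q1 j]
    have hlV : 0 ≤ Real.log V := Real.log_nonneg hV1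
    -- the exponent
    rcases g1.eq_or_lt with hq | hq
    · -- `Q = 1`
      have hV1' : V ≤ Q j ^ (((1:ℕ):ℝ) / (4 * n)) := by
        have h3 : Real.log V ≤ 0 := by
          have := Real.log_le_log hV0 hVQ
          rw [Real.log_rpow hQ0, ← hq] at this
          linarith
        have h4 : V ≤ 1 := by
          have := Real.log_nonpos_iff hV0.le |>.1 h3
          exact this
        exact h4.trans (Real.one_le_rpow (H.Q1 j) (by positivity))
      have h3 := H1 1 le_rfl hnpos j V hV1 hV1' hV S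
        (fun x hx => ⟨(hS x hx).1, (hS x hx).2.trans (min_le_left _ _)⟩)
      rw [← hq] at h3 ⊢
      have h4 : 0 ≤ cl (Real.log V) 0 := by unfold cl; positivity
      have h5 : e * Real.log (X j) ≤ ε * Real.log (X j) := by
        rw [← hq] at heps
        linarith
      linarith [le_max_left C1 C2]
    · set κ : ℝ := Real.log V / Real.log (Q j) with hκ
      have hκ0 : 0 ≤ κ := by positivity
      have hκ1 : κ ≤ 1 / 4 := by
        rw [hκ, div_le_iff₀ hq]
        have := Real.log_le_log hV0 hVQ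
        rwa [Real.log_rpow hQ0] at this
      -- the grid point
      obtain ⟨t, ht1, ht2, ht3, ht4⟩ : ∃ t : ℕ, 1 ≤ t ∧ t ≤ n ∧ κ ≤ (t:ℝ) / (4 * n) ∧
          (t:ℝ) / (4 * n) ≤ κ + 1 / (4 * n) := by
        refine ⟨max 1 ⌈4 * n * κ⌉₊, le_max_left _ _, ?_, ?_, ?_⟩
        · apply max_le hnpos
          apply Nat.ceil_le.2
          nlinarith
        · rw [le_div_iff₀ (by positivity)]
          have h3 : (4 * n * κ : ℝ) ≤ (⌈4 * n * κ⌉₊ : ℝ) := Nat.le_ceil _
          have h4 : ((⌈4 * n * κ⌉₊ : ℕ) : ℝ) ≤ ((max 1 ⌈4 * n * κ⌉₊ : ℕ) : ℝ) := by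
            exact_mod_cast le_max_right _ _
          linarith
        · have e1 : κ + 1 / (4 * (n:ℝ)) = (4 * n * κ + 1) / (4 * n) := by field_simp
          rw [e1]
          apply div_le_div_of_nonneg_right _ (by positivity)
          have h3 : ((⌈4 * n * κ⌉₊ : ℕ) : ℝ) < 4 * n * κ + 1 := Nat.ceil_lt_add_one (by positivity)
          rw [Nat.cast_max]
          apply max_le
          · have : 0 ≤ 4 * (n:ℝ) * κ := by positivity
            push_cast
            linarith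
          · exact h3.le
      have ht5 : (t:ℝ) / (4 * n) ≤ 1 / 4 := by
        rw [div_le_iff₀ (by positivity)]
        have : (t:ℝ) ≤ n := by exact_mod_cast ht2
        linarith
      have hVt : V ≤ Q j ^ ((t:ℝ) / (4 * n)) := by
        rw [← Real.log_le_log_iff hV0 (by positivity), Real.log_rpow hQ0]
        have := mul_le_mul_of_nonneg_right ht3 hq.le
        rwa [hκ, div_mul_cancel₀ _ hq.ne'] at this
      have h3 := H1 t ht1 ht2 j V hV1 hVt hV S
        (fun x hx => ⟨(hS x hx).1, (hS x hx).2.trans (min_le_left _ _)⟩)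
      have h4 := cc_step hκ0 ht3 ht5
      have h5 : Real.sqrt (2 * ((t:ℝ) / (4 * n) - κ)) / Real.pi ≤ e := by
        refine le_trans ?_ hsq
        apply div_le_div_of_nonneg_right _ hpi.le
        apply Real.sqrt_le_sqrt
        linarith
      have h6 : cc κ * Real.log (Q j) = cl (Real.log V) (Real.log (Q j)) := cc_cl hq
      have h7 : (cc ((t:ℝ) / (4 * n)) + e) * Real.log (Q j) ≤ (cc κ + 2 * e) * Real.log (Q j) := by
        apply mul_le_mul_of_nonneg_right _ hq.le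
        linarith
      linarith [le_max_left C1 C2]

end Pool.Agent.TH809.MZ
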