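import Mathlib
import Pool.Agent.TH809.MZ.Loc2
import Pool.Agent.W587.PL.F

/-!
Families of L-functions in the sense of `Fam2`, with lower bounds.
-/

open Complex Filter Topology Set

namespace Pool.Agent.TH809.MZ

open W587.PL

theorem lfam_of {ι : Type} {L : ι → ℂ → ℂ} {X Q : ι → ℝ → ℝ} (H : Fam2 L X Q)
    (hlow : ∀ δ : ℝ, 0 < δ → ∃ B : ℝ, ∀ i (s : ℂ), 1 + δ ≤ s.re → 1 ≤ B * X i s.im ^ δ * ‖L i s‖)
    (hrefl : ∀ δ : ℝ, 0 < δ → δ ≤ 1 / 4 → ∃ (G : Finset ℝ) (K : ℝ),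
      (∀ γ ∈ G, δ / 4 ≤ γ ∧ γ ≤ 3 / 4 * δ) ∧ 0 ≤ K ∧ ∀ i t, ∃ γ ∈ G,
        Q i t ^ (1 / 2 + δ - γ) * ‖L i ⟨1 / 2 + (1 / 2 + δ - γ), t⟩‖ ≤
          K * ‖L i ⟨1 / 2 - (1 / 2 + δ - γ), t⟩‖) :
    LFam (fun (j : ι × ℝ) (z : ℂ) => L j.1 (1 / 2 + j.2 * I + z)) (fun j => Q j.1 j.2)
      (fun j => X j.1 j.2) := by
  obtain ⟨mX, hmX, hXs⟩ := H.Xs
  obtain ⟨mQ, hmQ, hQs⟩ := H.Qs
  have hpt : ∀ (T : ℝ) (z : ℂ), (1 / 2 + T * I + z : ℂ) = ⟨1 / 2 + z.re, T + z.im⟩ := by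
    intro T z
    apply Complex.ext <;> simp
  have hXpow : ∀ i T y (e : ℝ), 0 ≤ e → X i (T + y) ^ e ≤ (1 + |y|) ^ (mX * e) * X i T ^ e := by
    intro i T y e he
    have h0 : 0 ≤ X i (T + y) := by linarith [H.X1 i (T + y)]
    calc X i (T + y) ^ e ≤ ((1 + |y|) ^ mX * X i T) ^ e := Real.rpow_le_rpow h0 (hXs i T y) he
      _ = ((1 + |y|) ^ mX) ^ e * X i T ^ e :=
          Real.mul_rpow (by positivity) (by linarith [H.X1 i T])
      _ = _ := by rw [← Real.rpow_mul (by positivity)]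
  have hQpow : ∀ i T y (e : ℝ), 0 ≤ e → Q i (T + y) ^ e ≤ (1 + |y|) ^ (mQ * e) * Q i T ^ e := by
    intro i T y e he
    have h0 : 0 ≤ Q i (T + y) := by linarith [H.Q1 i (T + y)]
    calc Q i (T + y) ^ e ≤ ((1 + |y|) ^ mQ * Q i T) ^ e := Real.rpow_le_rpow h0 (hQs i T y) he
      _ = ((1 + |y|) ^ mQ) ^ e * Q i T ^ e :=
          Real.mul_rpow (by positivity) (by linarith [H.Q1 i T])
      _ = _ := by rw [← Real.rpow_mul (by positivity)]
  have hright : ∀ δ : ℝ, 0 < δ → ∀ ε : ℝ, 0 < ε → ∃ M : ℝ, 1 ≤ M ∧ ∀ i (T y : ℝ) (x : ℝ), δ ≤ x →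
      ‖L i ⟨1 + x, T + y⟩‖ ≤ M * X i T ^ ε * (1 + |y|) ^ M := by
    intro δ hδ ε hε
    set e : ℝ := min ε δ with he
    have he0 : 0 < e := lt_min hε hδ
    obtain ⟨B, hB⟩ := H.right e he0
    refine ⟨max (max 1 |B|) (mX * e), le_max_of_le_left (le_max_left _ _), fun i T y x hx => ?_⟩
    have h1 := hB i ⟨1 + x, T + y⟩ (by show 1 + e ≤ 1 + x; linarith [min_le_right ε δ])
    have hX1 := H.X1 i T
    set M : ℝ := max (max 1 |B|) (mX * e) with hM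
    have hBM : |B| ≤ M := (le_max_right _ _).trans (le_max_left _ _)
    have hmM : mX * e ≤ M := le_max_right _ _
    have h2 : X i (T + y) ^ e ≤ (1 + |y|) ^ M * X i T ^ ε := by
      refine (hXpow i T y e he0.le).trans ?_
      apply mul_le_mul
      · exact Real.rpow_le_rpow_of_exponent_le (by linarith [abs_nonneg y]) hmM
      · exact Real.rpow_le_rpow_of_exponent_le hX1 (min_le_left _ _)
      · positivity
      · positivity
    have h3 : 0 ≤ X i (T + y) ^ e := by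
      have := H.X1 i (T + y)
      positivity
    calc ‖L i ⟨1 + x, T + y⟩‖ ≤ B * X i (T + y) ^ e := h1
      _ ≤ |B| * X i (T + y) ^ e := mul_le_mul_of_nonneg_right (le_abs_self B) h3
      _ ≤ M * ((1 + |y|) ^ M * X i T ^ ε) :=
          mul_le_mul hBM h2 h3 (by positivity)
      _ = _ := by ring
  refine ⟨fun j => H.Q1 j.1 j.2, fun j => H.X1 j.1 j.2, ?_, ?_, ?_, ?_, ?_, ?_⟩
  · obtain ⟨B, hB, h⟩ := H.QX
    refine ⟨B + 1, by positivity, fun j => (h j.1 j.2).trans ?_⟩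
    exact Real.rpow_le_rpow_of_exponent_le (H.X1 j.1 j.2) (by linarith)
  · intro j
    exact (H.diff j.1).comp (by fun_prop)
  · obtain ⟨C, B, hC, hB, h⟩ := H.crude
    set M : ℝ := 1 + C + B + mX * B with hM
    have hM1 : 1 ≤ M := by
      have : 0 ≤ mX * B := by positivity
      linarith
    refine ⟨M, hM1, fun j z hz => ?_⟩
    have hX1 := H.X1 j.1 j.2
    have hz' := abs_le.1 hz
    show ‖L j.1 (1 / 2 + j.2 * I + z)‖ ≤ _
    rw [hpt]
    have h1 := h j.1 ⟨1 / 2 + z.re, j.2 + z.im⟩ (by show -1 / 4 ≤ 1 / 2 + z.re; linarith)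
    refine h1.trans ?_
    have h2 : X j.1 (j.2 + z.im) ^ B ≤ (1 + |z.im|) ^ M * X j.1 j.2 ^ M := by
      refine (hXpow j.1 j.2 z.im B hB).trans ?_
      apply mul_le_mul
      · exact Real.rpow_le_rpow_of_exponent_le (by linarith [abs_nonneg z.im]) (by rw [hM]; linarith)
      · apply Real.rpow_le_rpow_of_exponent_le hX1
        have : 0 ≤ mX * B := by positivity
        rw [hM]; linarith
      · positivity
      · positivity
    have h3 : 0 ≤ X j.1 (j.2 + z.im) ^ B := by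
      have := H.X1 j.1 (j.2 + z.im)
      positivity
    calc C * X j.1 (j.2 + z.im) ^ B ≤ M * ((1 + |z.im|) ^ M * X j.1 j.2 ^ M) := by
          apply mul_le_mul _ h2 h3 (by linarith)
          have : 0 ≤ mX * B := by positivity
          rw [hM]; linarith
      _ = _ := by ring
  · intro δ hδ hδ1 ε hε
    obtain ⟨M, hM1, h⟩ := hright δ hδ ε hε
    refine ⟨M, hM1, fun j z hz => ?_⟩
    show ‖L j.1 (1 / 2 + j.2 * I + z)‖ ≤ _
    rw [hpt, hz]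
    have e1 : (1 / 2 + (1 / 2 + δ)) = 1 + δ := by ring
    rw [e1]
    exact h j.1 j.2 z.im δ le_rfl
  · intro δ hδ hδ1 ε hε
    obtain ⟨M, hM1, h⟩ := hright δ hδ ε hε
    obtain ⟨C, hC, hr⟩ := H.refl
    set M' : ℝ := (1 + C) * M + mQ + M with hM'
    have hM0 : 0 < M := by linarith
    have hM'1 : 1 ≤ M' := by
      have : 0 ≤ (1 + C) * M := by positivity
      linarith
    have hCM : C * M ≤ M' := by
      rw [hM']
      nlinarith
    refine ⟨M', hM'1, fun j z hz => ?_⟩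
    show ‖L j.1 (1 / 2 + j.2 * I + z)‖ ≤ _
    rw [hpt, hz]
    have hX1 := H.X1 j.1 j.2
    have hQ1 := H.Q1 j.1 j.2
    set b : ℝ := 1 / 2 + δ with hb
    have hb0 : 0 ≤ b := by positivity
    have e0 : (1 / 2 + -b) = 1 / 2 - b := by ring
    rw [e0]
    have h1 := hr j.1 b (j.2 + z.im) hb0 (by linarith)
    have h2 := h j.1 j.2 z.im δ le_rfl
    have e1 : (1 / 2 + b) = 1 + δ := by rw [hb]; ring
    rw [e1] at h1
    have h3 := hQpow j.1 j.2 z.im b hb0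
    have h4 : (1 + |z.im|) ^ (mQ * b) * (1 + |z.im|) ^ M ≤ (1 + |z.im|) ^ M' := by
      rw [← Real.rpow_add (by positivity)]
      apply Real.rpow_le_rpow_of_exponent_le (by linarith [abs_nonneg z.im])
      have : mQ * b ≤ mQ := by
        apply mul_le_of_le_one_right hmQ
        linarith
      have : 0 ≤ (1 + C) * M := by positivity
      rw [hM']
      linarith
    calc ‖L j.1 ⟨1 / 2 - b, j.2 + z.im⟩‖
        ≤ C * Q j.1 (j.2 + z.im) ^ b * ‖L j.1 ⟨1 + δ, j.2 + z.im⟩‖ := h1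
      _ ≤ C * ((1 + |z.im|) ^ (mQ * b) * Q j.1 j.2 ^ b) * (M * X j.1 j.2 ^ ε * (1 + |z.im|) ^ M) := by
          gcongr
      _ = (C * M) * X j.1 j.2 ^ ε * Q j.1 j.2 ^ b * ((1 + |z.im|) ^ (mQ * b) * (1 + |z.im|) ^ M) := by
          ring
      _ ≤ M' * X j.1 j.2 ^ ε * Q j.1 j.2 ^ b * (1 + |z.im|) ^ M' := by gcongr
  · intro δ hδ hδ1
    obtain ⟨G, K, hG, hK, hGK⟩ := hrefl δ hδ hδ1
    refine ⟨G, hG, fun ε hε => ?_⟩
    set e : ℝ := min ε (δ / 4) with he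
    have he0 : 0 < e := lt_min hε (by positivity)
    obtain ⟨B, hB⟩ := hlow e he0
    refine ⟨max 1 (|B| * (1 + K)), le_max_left _ _, fun j => ?_⟩
    obtain ⟨γ, hγ, hγK⟩ := hGK j.1 j.2
    refine ⟨γ, hγ, ?_⟩
    obtain ⟨g1, g2⟩ := hG γ hγ
    set M : ℝ := max 1 (|B| * (1 + K)) with hM
    have hX1 := H.X1 j.1 j.2
    have hQ1 := H.Q1 j.1 j.2
    have hXe : X j.1 j.2 ^ e ≤ X j.1 j.2 ^ ε :=
      Real.rpow_le_rpow_of_exponent_le hX1 (min_le_left _ _)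
    have hBM : |B| ≤ M := by
      refine le_trans ?_ (le_max_right _ _)
      nlinarith [abs_nonneg B]
    have hBKM : |B| * K ≤ M := by
      refine le_trans ?_ (le_max_right _ _)
      nlinarith [abs_nonneg B]
    set x0 : ℝ := 1 / 2 + δ - γ with hx0
    have p1 : (1 / 2 + j.2 * I + (x0 : ℂ)) = ⟨1 / 2 + x0, j.2⟩ := by
      apply Complex.ext <;> simp
    have p2 : (1 / 2 + j.2 * I + (-(x0 : ℂ))) = ⟨1 / 2 - x0, j.2⟩ := by
      apply Complex.ext <;> simp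
      ring
    have h1 := hB j.1 ⟨1 / 2 + x0, j.2⟩ (by
      show 1 + e ≤ 1 / 2 + x0
      have := min_le_right ε (δ / 4)
      rw [hx0]; linarith)
    have h2 : 1 ≤ |B| * X j.1 j.2 ^ ε * ‖L j.1 ⟨1 / 2 + x0, j.2⟩‖ := by
      refine h1.trans ?_
      apply mul_le_mul_of_nonneg_right _ (norm_nonneg _)
      calc B * X j.1 j.2 ^ e ≤ |B| * X j.1 j.2 ^ e :=
            mul_le_mul_of_nonneg_right (le_abs_self B) (by positivity)
        _ ≤ _ := mul_le_mul_of_nonneg_left hXe (abs_nonneg _)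
    constructor
    · show 1 ≤ M * X j.1 j.2 ^ ε * ‖L j.1 (1 / 2 + j.2 * I + (x0 : ℂ))‖
      rw [p1]
      refine h2.trans ?_
      gcongr
    · show Q j.1 j.2 ^ x0 ≤ M * X j.1 j.2 ^ ε * ‖L j.1 (1 / 2 + j.2 * I + (-(x0 : ℂ)))‖
      rw [p2]
      have hQp : 0 ≤ Q j.1 j.2 ^ x0 := by positivity
      calc Q j.1 j.2 ^ x0 ≤ Q j.1 j.2 ^ x0 * (|B| * X j.1 j.2 ^ ε * ‖L j.1 ⟨1 / 2 + x0, j.2⟩‖) :=
            le_mul_of_one_le_right hQp h2
        _ = |B| * X j.1 j.2 ^ ε * (Q j.1 j.2 ^ x0 * ‖L j.1 ⟨1 / 2 + x0, j.2⟩‖) := by ring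
        _ ≤ |B| * X j.1 j.2 ^ ε * (K * ‖L j.1 ⟨1 / 2 - x0, j.2⟩‖) :=
            mul_le_mul_of_nonneg_left hγK (by positivity)
        _ = (|B| * K) * X j.1 j.2 ^ ε * ‖L j.1 ⟨1 / 2 - x0, j.2⟩‖ := by ring
        _ ≤ _ := by gcongr

end Pool.Agent.TH809.MZ
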