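import Mathlib
import Pool.Agent.TH809.MZ.GL

/-!
Counting zeros in windows, and the version with a global exponent.
-/

open Complex Filter Topology Set

namespace Pool.Agent.TH809.MZ

open W587.PL

/-- the zeros of `L` with `0 ≤ Re s ≤ 1` and `|Im s - T| ≤ h` -/
def Zw (L : ℂ → ℂ) (T h : ℝ) : Set ℂ := {s : ℂ | L s = 0 ∧ 0 ≤ s.re ∧ s.re ≤ 1 ∧ |s.im - T| ≤ h}

theorem order_shift {L : ℂ → ℂ} (c s : ℂ) :
    analyticOrderNatAt (fun z => L (c + z)) (s - c) = analyticOrderNatAt L s := by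
  unfold analyticOrderNatAt
  congr 1
  have e1 : (fun z => L (c + z)) = L ∘ fun z => c + z := rfl
  rw [e1]
  have h3 : analyticOrderAt (L ∘ fun z => c + z) (s - c) = analyticOrderAt L (c + (s - c)) := by
    apply analyticOrderAt_comp_of_deriv_ne_zero (g := fun z : ℂ => c + z)
    · have : Differentiable ℂ fun z : ℂ => c + z := by fun_prop
      exact this.analyticAt _
    · rw [deriv_const_add, deriv_id'']
      exact one_ne_zero
  rw [h3]
  congr 1
  ring

theorem count_of {L : ℂ → ℂ} (hL : Differentiable ℂ L) (hne : ∃ s, L s ≠ 0) {T h b : ℝ}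
    (H : ∀ S : Finset ℂ, (∀ x ∈ S, |x.re| ≤ 1 / 2 ∧ |x.im| ≤ h) →
      ∑ x ∈ S, (analyticOrderNatAt (fun z => L (1 / 2 + T * I + z)) x : ℝ) ≤ b) :
    (Zw L T h).Finite ∧ ((∑ᶠ s ∈ Zw L T h, analyticOrderNatAt L s : ℕ) : ℝ) ≤ b := by
  classical
  have htop : ∀ s, analyticOrderAt L s ≠ ⊤ := by
    intro s hs
    obtain ⟨s0, hs0⟩ := hne
    have h1 : AnalyticOnNhd ℂ L Set.univ := fun z _ => hL.analyticAt z
    have h2 := h1.analyticOrderAt_ne_top_of_isPreconnected isPreconnected_univ (Set.mem_univ s0)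
      (Set.mem_univ s) (by
        rw [(hL.analyticAt s0).analyticOrderAt_eq_zero.2 hs0]
        exact ENat.zero_ne_top)
    exact h2 hs
  -- finite subsets
  have hfin : ∀ G : Finset ℂ, (G : Set ℂ) ⊆ Zw L T h →
      ∑ s ∈ G, (analyticOrderNatAt L s : ℝ) ≤ b := by
    intro G hG
    have h2 := H (G.image fun s => s - (1 / 2 + T * I)) (by
      intro x hx
      obtain ⟨s, hs, rfl⟩ := Finset.mem_image.1 hx
      have h3 := hG hs
      have e1 : (s - (1 / 2 + T * I)).re = s.re - 1 / 2 := by simp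
      have e2 : (s - (1 / 2 + T * I)).im = s.im - T := by simp
      rw [e1, e2]
      refine ⟨?_, h3.2.2.2⟩
      have h4 := h3.2.1
      have h5 := h3.2.2.1
      rw [abs_le]
      constructor <;> linarith)
    rw [Finset.sum_image (fun x _ y _ hxy => sub_left_injective hxy)] at h2
    refine le_trans (le_of_eq ?_) h2
    apply Finset.sum_congr rfl
    intro s _
    rw [order_shift]
  have hone : ∀ s ∈ Zw L T h, (1:ℝ) ≤ (analyticOrderNatAt L s : ℝ) := by
    intro s hs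
    have h2 : analyticOrderAt L s ≠ 0 := (hL.analyticAt s).analyticOrderAt_ne_zero.2 hs.1
    have h4 : analyticOrderNatAt L s ≠ 0 := by
      intro h5
      apply h2
      rw [← Nat.cast_analyticOrderNatAt (htop s), h5]
      rfl
    exact_mod_cast Nat.one_le_iff_ne_zero.2 h4
  have hZfin : (Zw L T h).Finite := by
    by_contra hinf
    have hinf' : (Zw L T h).Infinite := hinf
    obtain ⟨n, hn⟩ := exists_nat_gt b
    obtain ⟨G, hG, hcard⟩ := hinf'.exists_subset_card_eq n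
    have h2 := hfin G hG
    have h3 : (n:ℝ) ≤ ∑ s ∈ G, (analyticOrderNatAt L s : ℝ) := by
      calc (n:ℝ) = ∑ _s ∈ G, (1:ℝ) := by rw [Finset.sum_const, hcard]; simp
        _ ≤ _ := Finset.sum_le_sum fun s hs => hone s (hG hs)
    linarith
  refine ⟨hZfin, ?_⟩
  rw [finsum_mem_eq_finite_toFinset_sum _ hZfin]
  push_cast
  apply hfin
  intro s hs
  exact (hZfin.mem_toFinset).1 hs

/-- **the law for families** -/
theorem law_fam {ι : Type} {L : ι → ℂ → ℂ} {X Q : ι → ℝ → ℝ}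
    (H : LFam (fun (j : ι × ℝ) (z : ℂ) => L j.1 (1 / 2 + j.2 * I + z)) (fun j => Q j.1 j.2)
      (fun j => X j.1 j.2)) (hL : ∀ i, Differentiable ℂ (L i)) (hne : ∀ i, ∃ s, L i s ≠ 0)
    {ε : ℝ} (hε : 0 < ε) : ∃ h W C : ℝ, 0 < h ∧ 0 ≤ W ∧ ∀ i T, (Zw (L i) T h).Finite ∧
      ((∑ᶠ s ∈ Zw (L i) T h, analyticOrderNatAt (L i) s : ℕ) : ℝ) ≤
        Real.log (Q i T) / (2 * Real.pi) + ε * Real.log (X i T) + C ∧
      ∀ V : ℝ, 1 ≤ V → V ≤ Q i T ^ (1 / 4 : ℝ) →
        (∀ x : ℝ, |x - T| ≤ W → ‖L i (1 / 2 + x * I)‖ ≤ V) →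
        ((∑ᶠ s ∈ Zw (L i) T h, analyticOrderNatAt (L i) s : ℕ) : ℝ) ≤
          cl (Real.log V) (Real.log (Q i T)) + ε * Real.log (X i T) + C := by
  obtain ⟨h, W, C, hh, hW, H1⟩ := local_law H hε
  refine ⟨h, W, C, hh, hW, fun i T => ?_⟩
  have h1 := count_of (hL i) (hne i) (T := T) (h := h) (b := _) fun S hS => (H1 (i, T) S hS).1
  refine ⟨h1.1, h1.2, fun V hV1 hVQ hV => ?_⟩
  refine (count_of (hL i) (hne i) (T := T) (h := h) (b := _) fun S hS =>
    (H1 (i, T) S hS).2 V hV1 hVQ fun y hy => ?_).2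
  show ‖L i (1 / 2 + T * I + y * I)‖ ≤ V
  have e : (1 / 2 + T * I + y * I : ℂ) = 1 / 2 + ((T + y : ℝ) : ℂ) * I := by push_cast; ring
  rw [e]
  apply hV
  rw [add_sub_cancel_left]
  exact hy

/-- **the bound with a global exponent** -/
theorem exp_fam {ι : Type} {L : ι → ℂ → ℂ} {X Q : ι → ℝ → ℝ} (HF : Fam2 L X Q)
    (H : LFam (fun (j : ι × ℝ) (z : ℂ) => L j.1 (1 / 2 + j.2 * I + z)) (fun j => Q j.1 j.2)
      (fun j => X j.1 j.2)) (hne : ∀ i, ∃ s, L i s ≠ 0) {κ : ℝ} (h0 : 0 ≤ κ)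
    (h1 : κ ≤ 1 / 4) (hκ : ∀ ε : ℝ, 0 < ε → ∃ B : ℝ, ∀ (i : ι) (T : ℝ),
      ‖L i (1 / 2 + T * I)‖ ≤ B * X i T ^ ε * Q i T ^ κ)
    {ε : ℝ} (hε : 0 < ε) : ∃ h C : ℝ, 0 < h ∧ ∀ i T, (Zw (L i) T h).Finite ∧
      ((∑ᶠ s ∈ Zw (L i) T h, analyticOrderNatAt (L i) s : ℕ) : ℝ) ≤
        cc κ * Real.log (Q i T) + ε * Real.log (X i T) + C := by
  obtain ⟨k, hk, hQX⟩ := HF.QX
  obtain ⟨e, he0, he1⟩ : ∃ e : ℝ, 0 < e ∧ e * (1 + k) ≤ ε :=
    ⟨ε / (1 + k), by positivity, by rw [div_mul_cancel₀]; positivity⟩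
  obtain ⟨h, lam, hh, hlam, H1⟩ := step H h0 h1 he0
  obtain ⟨mX, hmX, hXs⟩ := HF.Xs
  obtain ⟨mQ, hmQ, hQs⟩ := HF.Qs
  obtain ⟨B, hB⟩ := hκ lam hlam
  set M : ℝ := 1 + |B| + mX * lam + mQ with hM
  have hM1 : 1 ≤ M := by
    have := abs_nonneg B
    have : 0 ≤ mX * lam := by positivity
    linarith
  set M₀ : ℝ := (M * Real.exp (1 + M ^ 2)) ^ 2 with hM₀
  have hM₀1 : 1 ≤ M₀ := by
    have : 1 ≤ Real.exp (1 + M ^ 2) := Real.one_le_exp (by positivity)
    have : 1 ≤ M * Real.exp (1 + M ^ 2) := by nlinarith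
    rw [hM₀]
    nlinarith
  obtain ⟨C, hC⟩ := H1 M₀ hM₀1
  refine ⟨h, C, hh, fun i T => ?_⟩
  have hX1 := HF.X1 i T
  have hQ1 := HF.Q1 i T
  have hX0 : 0 < X i T := by linarith
  have hQ0 : 0 < Q i T := by linarith
  have key : ∀ z : ℂ, z.re = 0 →
      ‖gg (fun (j : ι × ℝ) (z : ℂ) => L j.1 (1 / 2 + j.2 * I + z)) (fun j => X j.1 j.2) lam (i, T) z‖ ≤
        M * Real.exp (1 + M ^ 2) * X i T ^ (2 * lam) * Q i T ^ κ := by
    intro z hz
    have hz34 : |z.re| ≤ 3 / 4 := by rw [hz, abs_zero]; norm_num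
    unfold gg
    rw [norm_mul]
    have e1 : (1 / 2 + T * I + z : ℂ) = 1 / 2 + ((T + z.im : ℝ) : ℂ) * I := by
      apply Complex.ext <;> simp [hz]
    have h2 : ‖L i (1 / 2 + T * I + z)‖ ≤
        (M * X i T ^ lam * Q i T ^ κ) * (1 + |z.im|) ^ M := by
      rw [e1]
      refine (hB i (T + z.im)).trans ?_
      have hXp := HF.X1 i (T + z.im)
      have hQp := HF.Q1 i (T + z.im)
      have g1 : X i (T + z.im) ^ lam ≤ (1 + |z.im|) ^ (mX * lam) * X i T ^ lam := by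
        calc X i (T + z.im) ^ lam ≤ ((1 + |z.im|) ^ mX * X i T) ^ lam :=
              Real.rpow_le_rpow (by linarith) (hXs i T z.im) hlam.le
          _ = ((1 + |z.im|) ^ mX) ^ lam * X i T ^ lam := Real.mul_rpow (by positivity) hX0.le
          _ = _ := by rw [← Real.rpow_mul (by positivity)]
      have g2 : Q i (T + z.im) ^ κ ≤ (1 + |z.im|) ^ mQ * Q i T ^ κ := by
        calc Q i (T + z.im) ^ κ ≤ ((1 + |z.im|) ^ mQ * Q i T) ^ κ :=
              Real.rpow_le_rpow (by linarith) (hQs i T z.im) h0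
          _ = ((1 + |z.im|) ^ mQ) ^ κ * Q i T ^ κ := Real.mul_rpow (by positivity) hQ0.le
          _ = (1 + |z.im|) ^ (mQ * κ) * Q i T ^ κ := by rw [← Real.rpow_mul (by positivity)]
          _ ≤ _ := by
              apply mul_le_mul_of_nonneg_right _ (by positivity)
              apply Real.rpow_le_rpow_of_exponent_le (by linarith [abs_nonneg z.im])
              exact mul_le_of_le_one_right hmQ (by linarith)
      have g3 : (1 + |z.im|) ^ (mX * lam) * (1 + |z.im|) ^ mQ ≤ (1 + |z.im|) ^ M := by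
        rw [← Real.rpow_add (by positivity)]
        apply Real.rpow_le_rpow_of_exponent_le (by linarith [abs_nonneg z.im])
        rw [hM]
        linarith [abs_nonneg B]
      have g4 : B ≤ M := by
        have : 0 ≤ mX * lam := by positivity
        rw [hM]
        linarith [le_abs_self B]
      calc B * X i (T + z.im) ^ lam * Q i (T + z.im) ^ κ
          ≤ M * ((1 + |z.im|) ^ (mX * lam) * X i T ^ lam) * ((1 + |z.im|) ^ mQ * Q i T ^ κ) := by
            gcongr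
        _ = (M * X i T ^ lam * Q i T ^ κ) * ((1 + |z.im|) ^ (mX * lam) * (1 + |z.im|) ^ mQ) := by
            ring
        _ ≤ _ := mul_le_mul_of_nonneg_left g3 (by positivity)
    have h3 := kern_growth (lam := lam) (M := M) hlam.le hX1 hM1 hz34
    have e2 : X i T ^ (2 * lam) = X i T ^ lam * X i T ^ lam := by
      rw [← Real.rpow_add hX0]; ring_nf
    calc ‖L i (1 / 2 + T * I + z)‖ * ‖kern lam (X i T) z‖
        ≤ ((M * X i T ^ lam * Q i T ^ κ) * (1 + |z.im|) ^ M) * ‖kern lam (X i T) z‖ :=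
          mul_le_mul_of_nonneg_right h2 (norm_nonneg _)
      _ = (M * X i T ^ lam * Q i T ^ κ) * ((1 + |z.im|) ^ M * ‖kern lam (X i T) z‖) := by ring
      _ ≤ (M * X i T ^ lam * Q i T ^ κ) * (Real.exp (1 + M ^ 2) * X i T ^ lam) :=
          mul_le_mul_of_nonneg_left h3 (by positivity)
      _ = _ := by rw [e2]; ring
  have hfin := count_of (HF.diff i) (hne i) (T := T) (h := h) (b := _) fun S hS =>
    hC (i, T) (by
      intro z hz
      have c1 := key z hz
      have c2 := key (-z) (by rw [neg_re, hz, neg_zero])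
      have e3 : X i T ^ (4 * lam) = X i T ^ (2 * lam) * X i T ^ (2 * lam) := by
        rw [← Real.rpow_add hX0]; ring_nf
      have e4 : Q i T ^ (2 * κ) = Q i T ^ κ * Q i T ^ κ := by
        rw [← Real.rpow_add hQ0]; ring_nf
      refine (mul_le_mul c1 c2 (norm_nonneg _) (by positivity)).trans (le_of_eq ?_)
      show _ = M₀ * X i T ^ (4 * lam) * Q i T ^ (2 * κ)
      rw [hM₀, e3, e4]
      ring) S hS
  refine ⟨hfin.1, hfin.2.trans ?_⟩
  show (cc κ + e) * Real.log (Q i T) + e * Real.log (X i T) + C ≤ _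
  have h3 : Real.log (Q i T) ≤ k * Real.log (X i T) := by
    have := Real.log_le_log hQ0 (hQX i T)
    rwa [Real.log_rpow hX0] at this
  have h4 : 0 ≤ Real.log (X i T) := Real.log_nonneg hX1
  have h5 : e * Real.log (Q i T) ≤ e * (k * Real.log (X i T)) := mul_le_mul_of_nonneg_left h3 he0.le
  have h6 := mul_le_mul_of_nonneg_right he1 h4
  nlinarith

end Pool.Agent.TH809.MZ
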