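import Mathlib
import Pool.Agent.TH809.MZ.Gam
import Pool.Agent.H855R2.SF.Data

/-!
The lower bound in the functional equation for `GL(m)` data.
-/

open Complex Filter Topology Set

namespace Pool.Agent.TH809.MZ

open H855R2.SF

/-- lower bound for the quotient of the functional equation, away from the pole at `0` -/
theorem gammaR_low2 {w : ℂ} {x c : ℝ} (hc : 0 < c) (hc1 : c ≤ 1) (hx0 : 0 ≤ x) (hx1 : x ≤ 1)
    (hw : -1 ≤ w.re) (hwx : 0 < w.re + 2 * x) (hwc : c ≤ ‖w‖) :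
    (1 + ‖w‖) ^ x ≤ 2000 / c * (‖Gammaℝ (w + 2 * x)‖ * ‖(Gammaℝ w)⁻¹‖) := by
  have hpi := Real.pi_pos
  have hpi4 : Real.pi < 4 := by linarith [Real.pi_lt_d2]
  set u : ℂ := w / 2 with hu
  have hure : u.re = w.re / 2 := by simp [hu]
  have hun : ‖u‖ = ‖w‖ / 2 := by simp [hu]
  have hu0 : u ≠ 0 := by
    rw [← norm_pos_iff, hun]; linarith
  have hu1n : 1 / 2 ≤ ‖u + 1‖ := by
    have h := re_le_norm (u + 1)
    simp only [add_re, one_re] at h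
    linarith
  have hu1 : u + 1 ≠ 0 := by
    rw [← norm_pos_iff]; linarith
  have hux : u + x ≠ 0 := by
    intro h
    have := congrArg re h
    simp only [add_re, ofReal_re, zero_re] at this
    linarith
  have hux1 : u + x + 1 ≠ 0 := by
    intro h
    have := congrArg re h
    simp only [add_re, ofReal_re, one_re, zero_re] at this
    linarith
  have hG : Complex.Gamma (u + 2) = (u + 1) * (u * Complex.Gamma u) := by
    rw [← Complex.Gamma_add_one u hu0, ← Complex.Gamma_add_one (u + 1) hu1]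
    congr 1; ring
  have hGx : Complex.Gamma (u + 2 + x) = (u + 1 + x) * ((u + x) * Complex.Gamma (u + x)) := by
    rw [← Complex.Gamma_add_one (u + x) hux]
    have e : u + (1:ℂ) + x = u + x + 1 := by ring
    rw [e, ← Complex.Gamma_add_one (u + x + 1) hux1]
    congr 1; ring
  have h1 := gamma_low (v := u + 2) hx0 hx1 (by simp; linarith)
  rw [hG, hGx, norm_mul, norm_mul, norm_mul, norm_mul] at h1
  have hu2re : 3 / 2 ≤ ‖u + 2‖ := by
    have h := re_le_norm (u + 2)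
    have e : (u + 2).re = w.re / 2 + 2 := by simp [hure]
    rw [e] at h
    linarith
  have hw6 : 1 + ‖w‖ ≤ 6 * ‖u + 2‖ := by
    have h : ‖u‖ ≤ ‖u + 2‖ + 2 := by
      calc ‖u‖ = ‖(u + 2) - 2‖ := by congr 1; ring
        _ ≤ ‖u + 2‖ + ‖(2:ℂ)‖ := norm_sub_le _ _
        _ = _ := by norm_num
    have e : ‖w‖ = 2 * ‖u‖ := by rw [hun]; ring
    rw [e]
    linarith
  have h3 : (1 + ‖w‖) ^ x ≤ 6 * ‖u + 2‖ ^ x := by
    calc (1 + ‖w‖) ^ x ≤ (6 * ‖u + 2‖) ^ x := Real.rpow_le_rpow (by positivity) hw6 hx0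
      _ = 6 ^ x * ‖u + 2‖ ^ x := Real.mul_rpow (by norm_num) (by positivity)
      _ ≤ 6 ^ (1:ℝ) * ‖u + 2‖ ^ x := by
          apply mul_le_mul_of_nonneg_right _ (by positivity)
          exact Real.rpow_le_rpow_of_exponent_le (by norm_num) hx1
      _ = _ := by rw [Real.rpow_one]
  have hs1 : ‖u + x‖ ≤ 3 / c * ‖u‖ := by
    refine (norm_add_le _ _).trans ?_
    rw [Complex.norm_real, Real.norm_eq_abs, abs_of_nonneg hx0, div_mul_eq_mul_div, le_div_iff₀ hc]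
    have h : c / 2 ≤ ‖u‖ := by rw [hun]; linarith
    have h2 : 0 ≤ ‖u‖ := norm_nonneg _
    nlinarith
  have hs2 : ‖u + 1 + x‖ ≤ 3 * ‖u + 1‖ := by
    refine (norm_add_le _ _).trans ?_
    rw [Complex.norm_real, Real.norm_eq_abs, abs_of_nonneg hx0]
    linarith
  -- `|u+2|^x |Γ(u)| ≤ (36/c) |Γ(u+x)|`
  have h4 : ‖u + 2‖ ^ x * ‖Complex.Gamma u‖ ≤ 36 / c * ‖Complex.Gamma (u + x)‖ := by
    have hpos : 0 < ‖u + 1‖ * ‖u‖ := mul_pos (norm_pos_iff.2 hu1) (norm_pos_iff.2 hu0)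
    have h5 : (‖u + 2‖ ^ x * ‖Complex.Gamma u‖) * (‖u + 1‖ * ‖u‖) ≤
        (36 / c * ‖Complex.Gamma (u + x)‖) * (‖u + 1‖ * ‖u‖) := by
      calc (‖u + 2‖ ^ x * ‖Complex.Gamma u‖) * (‖u + 1‖ * ‖u‖)
          = ‖u + 2‖ ^ x * (‖u + 1‖ * (‖u‖ * ‖Complex.Gamma u‖)) := by ring
        _ ≤ 4 * (‖u + 1 + x‖ * (‖u + x‖ * ‖Complex.Gamma (u + x)‖)) := h1
        _ ≤ 4 * ((3 * ‖u + 1‖) * ((3 / c * ‖u‖) * ‖Complex.Gamma (u + x)‖)) := by gcongr
        _ = _ := by ring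
    exact le_of_mul_le_mul_right h5 hpos
  have hz : Gammaℝ w ≠ 0 := by
    intro hz
    rw [Gammaℝ_eq_zero_iff] at hz
    obtain ⟨n, hn⟩ := hz
    rcases Nat.eq_zero_or_pos n with h | h
    · rw [h] at hn
      rw [hn] at hwc
      simp at hwc
      linarith
    · rw [hn] at hw
      have h2 : (1:ℝ) ≤ n := by exact_mod_cast h
      simp at hw
      linarith
  have hgz : Complex.Gamma u ≠ 0 := by
    intro h
    apply hz
    rw [Gammaℝ_def, ← hu, h, mul_zero]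
  rw [Gammaℝ_def, Gammaℝ_def, norm_inv, norm_mul, norm_mul,
    Complex.norm_cpow_eq_rpow_re_of_pos hpi, Complex.norm_cpow_eq_rpow_re_of_pos hpi]
  have e1 : (w + 2 * (x:ℂ)) / 2 = u + x := by rw [hu]; ring
  rw [e1, ← hu]
  have e2 : (-(w + 2 * (x:ℂ)) / 2).re = (-w / 2).re + -x := by
    simp; ring
  rw [e2, Real.rpow_add hpi]
  have hp1 : 0 < Real.pi ^ ((-w / 2).re) := by positivity
  have hgpos : 0 < ‖Complex.Gamma u‖ := norm_pos_iff.2 hgz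
  have e3 : Real.pi ^ (-w / 2).re * Real.pi ^ (-x) * ‖Complex.Gamma (u + x)‖ *
      (Real.pi ^ (-w / 2).re * ‖Complex.Gamma u‖)⁻¹ =
      Real.pi ^ (-x) * (‖Complex.Gamma (u + x)‖ / ‖Complex.Gamma u‖) := by
    field_simp
  rw [e3]
  have h6 : (1:ℝ) / 4 ≤ Real.pi ^ (-x) := by
    rw [Real.rpow_neg hpi.le, one_div]
    apply inv_anti₀ (by positivity)
    calc Real.pi ^ x ≤ Real.pi ^ (1:ℝ) :=
          Real.rpow_le_rpow_of_exponent_le (by linarith [Real.pi_gt_three]) hx1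
      _ ≤ 4 := by rw [Real.rpow_one]; exact hpi4.le
  have h7 : ‖u + 2‖ ^ x ≤ 36 / c * (‖Complex.Gamma (u + x)‖ / ‖Complex.Gamma u‖) := by
    rw [mul_div_assoc', le_div_iff₀ hgpos]
    exact h4
  have h8 : 0 ≤ ‖Complex.Gamma (u + x)‖ / ‖Complex.Gamma u‖ := by positivity
  have h9 : 0 < 1 / c := by positivity
  calc (1 + ‖w‖) ^ x ≤ 6 * ‖u + 2‖ ^ x := h3
    _ ≤ 6 * (36 / c * (‖Complex.Gamma (u + x)‖ / ‖Complex.Gamma u‖)) := by linarith
    _ = 864 / c * (1 / 4 * (‖Complex.Gamma (u + x)‖ / ‖Complex.Gamma u‖)) := by ring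
    _ ≤ 2000 / c * (1 / 4 * (‖Complex.Gamma (u + x)‖ / ‖Complex.Gamma u‖)) := by
        apply mul_le_mul_of_nonneg_right _ (by positivity)
        exact div_le_div_of_nonneg_right (by norm_num) hc.le
    _ ≤ _ := by
        apply mul_le_mul_of_nonneg_left _ (by positivity)
        exact mul_le_mul_of_nonneg_right h6 h8

/-- lower bound for the product of the gamma quotients -/
theorem gamma_prod_low {m : ℕ} (mu : Fin m → ℂ) (hmu : ∀ j, (mu j).re < 1 / 2) {x t c : ℝ}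
    (hc : 0 < c) (hc1 : c ≤ 1) (hx0 : 0 ≤ x) (hx1 : x ≤ 3 / 4)
    (hcj : ∀ j, c ≤ ‖(⟨1 / 2 - x, t⟩ : ℂ) - mu j‖) :
    (∏ j, (1 + ‖mu j - t * I‖)) ^ x ≤ (4000 / c) ^ m *
      ((∏ j, ‖Gammaℝ (1 - (⟨1 / 2 - x, t⟩ : ℂ) - (starRingEnd ℂ) (mu j))‖) *
        (∏ j, ‖(Gammaℝ ((⟨1 / 2 - x, t⟩ : ℂ) - mu j))⁻¹‖)) := by
  rw [← Finset.prod_mul_distrib, ← Real.finsetProd_rpow _ _ (fun j _ => by positivity)]
  have h16 : (4000 / c) ^ m = ∏ _j : Fin m, (4000 / c) := by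
    rw [Finset.prod_const, Finset.card_univ, Fintype.card_fin]
  rw [h16, ← Finset.prod_mul_distrib]
  apply Finset.prod_le_prod (fun j _ => by positivity)
  intro j _
  set w : ℂ := (⟨1 / 2 - x, t⟩ : ℂ) - mu j with hw
  have hwre : w.re = 1 / 2 - x - (mu j).re := by rw [hw]; simp
  have e1 : 1 - (⟨1 / 2 - x, t⟩ : ℂ) - (starRingEnd ℂ) (mu j) = (starRingEnd ℂ) (w + 2 * x) := by
    apply Complex.ext
    · simp [hw]; ring
    · simp [hw]
  have e2 : ‖Gammaℝ ((starRingEnd ℂ) (w + 2 * x))‖ = ‖Gammaℝ (w + 2 * x)‖ := by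
    rw [Gammaℝ_def, Gammaℝ_def, norm_mul, norm_mul,
      Complex.norm_cpow_eq_rpow_re_of_pos Real.pi_pos, Complex.norm_cpow_eq_rpow_re_of_pos Real.pi_pos]
    have e3 : (-(starRingEnd ℂ) (w + 2 * x) / 2).re = (-(w + 2 * x) / 2).re := by
      simp
    have e4 : (starRingEnd ℂ) (w + 2 * x) / 2 = (starRingEnd ℂ) ((w + 2 * x) / 2) := by
      rw [map_div₀, map_ofNat]
    rw [e3, e4, Complex.Gamma_conj, Complex.norm_conj]
  rw [e1, e2]
  have hm := hmu j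
  have h0 := gammaR_low2 (w := w) hc hc1 hx0 (by linarith) (by rw [hwre]; linarith)
    (by rw [hwre]; linarith) (hcj j)
  have h1 : 1 + ‖mu j - t * I‖ ≤ 2 * (1 + ‖w‖) := by
    have h2 : mu j - t * I = ((1 / 2 - x : ℝ) : ℂ) - w := by
      rw [hw]
      apply Complex.ext <;> simp
    have h3 : ‖mu j - t * I‖ ≤ |1 / 2 - x| + ‖w‖ := by
      rw [h2]
      refine (norm_sub_le _ _).trans ?_
      rw [Complex.norm_real, Real.norm_eq_abs]
    have h4 : |1 / 2 - x| ≤ 1 := by rw [abs_le]; constructor <;> linarith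
    have := norm_nonneg w
    linarith
  calc (1 + ‖mu j - t * I‖) ^ x ≤ (2 * (1 + ‖w‖)) ^ x := Real.rpow_le_rpow (by positivity) h1 hx0
    _ = 2 ^ x * (1 + ‖w‖) ^ x := Real.mul_rpow (by norm_num) (by positivity)
    _ ≤ 2 ^ (1:ℝ) * (1 + ‖w‖) ^ x := by
        apply mul_le_mul_of_nonneg_right _ (by positivity)
        apply Real.rpow_le_rpow_of_exponent_le (by norm_num) (by linarith)
    _ ≤ 2 * (2000 / c * (‖Gammaℝ (w + 2 * x)‖ * ‖(Gammaℝ w)⁻¹‖)) := by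
        rw [Real.rpow_one]
        linarith
    _ = _ := by ring

/-- the lower bound to the left -/
theorem refl_low {m : ℕ} {N : ℕ} (hN : 0 < N) (mu : Fin m → ℂ) (hmu : ∀ j, (mu j).re < 1 / 2)
    {root : ℂ} (hroot : ‖root‖ = 1) {f : ℂ → ℂ}
    (hfe : ∀ s : ℂ, f s * ∏ j, (Gammaℝ (1 - s - (starRingEnd ℂ) (mu j)))⁻¹ =
      root * (N : ℂ) ^ (1 / 2 - s) * (starRingEnd ℂ) (f (1 - (starRingEnd ℂ) s)) *
        ∏ j, (Gammaℝ (s - mu j))⁻¹)
    {x t c : ℝ} (hc : 0 < c) (hc1 : c ≤ 1) (hx0 : 0 ≤ x) (hx1 : x ≤ 3 / 4)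
    (hcj : ∀ j, c ≤ ‖(⟨1 / 2 - x, t⟩ : ℂ) - mu j‖) :
    (N * ∏ j, (1 + ‖mu j - t * I‖)) ^ x * ‖f ⟨1 / 2 + x, t⟩‖ ≤ (4000 / c) ^ m * ‖f ⟨1 / 2 - x, t⟩‖ := by
  set s : ℂ := ⟨1 / 2 - x, t⟩ with hs
  have h := hfe s
  have e1 : 1 - (starRingEnd ℂ) s = ⟨1 / 2 + x, t⟩ := by
    rw [hs]; apply Complex.ext
    · simp; ring
    · simp
  rw [e1] at h
  have hne : ∀ j, Gammaℝ (1 - s - (starRingEnd ℂ) (mu j)) ≠ 0 := by
    intro j
    apply Gammaℝ_ne_zero_of_re_pos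
    rw [hs]
    simp
    linarith [hmu j]
  have hpne : ∏ j, ‖Gammaℝ (1 - s - (starRingEnd ℂ) (mu j))‖ ≠ 0 :=
    Finset.prod_ne_zero_iff.2 fun j _ => norm_ne_zero_iff.2 (hne j)
  have hn := congrArg norm h
  rw [norm_mul, norm_mul, norm_mul, norm_mul, hroot, one_mul, norm_conj, norm_prod, norm_prod] at hn
  have e2 : ∏ j, ‖(Gammaℝ (1 - s - (starRingEnd ℂ) (mu j)))⁻¹‖ =
      (∏ j, ‖Gammaℝ (1 - s - (starRingEnd ℂ) (mu j))‖)⁻¹ := by
    rw [← Finset.prod_inv_distrib]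
    apply Finset.prod_congr rfl
    intro j _
    rw [norm_inv]
  have e3 : ‖(N:ℂ) ^ (1 / 2 - s)‖ = (N:ℝ) ^ x := by
    rw [Complex.norm_natCast_cpow_of_pos hN]
    congr 1
    rw [hs]; simp
  rw [e2, e3, ← div_eq_mul_inv, div_eq_iff hpne] at hn
  have hP : 0 ≤ ∏ j, (1 + ‖mu j - t * I‖) := Finset.prod_nonneg fun j _ => by positivity
  have hg := gamma_prod_low mu hmu (t := t) hc hc1 hx0 hx1 hcj
  rw [hn, Real.mul_rpow (Nat.cast_nonneg _) hP]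
  calc (N:ℝ) ^ x * (∏ j, (1 + ‖mu j - t * I‖)) ^ x * ‖f ⟨1 / 2 + x, t⟩‖
      = ((N:ℝ) ^ x * ‖f ⟨1 / 2 + x, t⟩‖) * (∏ j, (1 + ‖mu j - t * I‖)) ^ x := by ring
    _ ≤ ((N:ℝ) ^ x * ‖f ⟨1 / 2 + x, t⟩‖) * ((4000 / c) ^ m *
        ((∏ j, ‖Gammaℝ (1 - s - (starRingEnd ℂ) (mu j))‖) * (∏ j, ‖(Gammaℝ (s - mu j))⁻¹‖))) :=
        mul_le_mul_of_nonneg_left hg (by positivity)
    _ = _ := by ring

/-- an evaluation point away from the trivial zeros -/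
theorem grid {m : ℕ} {δ : ℝ} (hδ : 0 < δ) : ∃ G : Finset ℝ,
    (∀ γ ∈ G, δ / 4 ≤ γ ∧ γ ≤ 3 / 4 * δ) ∧ ∀ a : Fin m → ℝ, ∃ γ ∈ G, ∀ j,
      δ / (4 * (m + 1)) ≤ |γ - a j| := by
  classical
  set g : Fin (m + 1) → ℝ := fun k => δ / 4 + δ / (2 * (m + 1)) * (k : ℕ) with hg
  refine ⟨Finset.univ.image g, ?_, ?_⟩
  · intro γ hγ
    obtain ⟨k, _, rfl⟩ := Finset.mem_image.1 hγ
    have hk : ((k : ℕ) : ℝ) ≤ m + 1 := by
      have := k.2
      have : (k : ℕ) ≤ m + 1 := by omega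
      exact_mod_cast this
    have hk0 : (0:ℝ) ≤ ((k : ℕ) : ℝ) := Nat.cast_nonneg _
    have hm0 : (0:ℝ) < (m:ℝ) + 1 := by positivity
    simp only [hg]
    constructor
    · have : 0 ≤ δ / (2 * (m + 1)) * (k : ℕ) := by positivity
      linarith
    · have : δ / (2 * ((m:ℝ) + 1)) * (k : ℕ) ≤ δ / (2 * ((m:ℝ) + 1)) * (m + 1) :=
        mul_le_mul_of_nonneg_left hk (by positivity)
      have e : δ / (2 * ((m:ℝ) + 1)) * (m + 1) = δ / 2 := by field_simp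
      linarith
  · intro a
    by_contra hcon
    push Not at hcon
    have h1 : ∀ k : Fin (m + 1), ∃ j : Fin m, |g k - a j| < δ / (4 * (m + 1)) := fun k =>
      hcon (g k) (Finset.mem_image_of_mem g (Finset.mem_univ k))
    choose j hj using h1
    obtain ⟨k1, k2, hne, heq⟩ := Fintype.exists_ne_map_eq_of_card_lt j (by simp)
    have h2 := hj k1
    have h3 := hj k2
    rw [← heq] at h3
    have h4 : |g k1 - g k2| < δ / (2 * (m + 1)) := by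
      have h5 : g k1 - g k2 = (g k1 - a (j k1)) - (g k2 - a (j k1)) := by ring
      rw [h5]
      refine lt_of_le_of_lt (abs_sub _ _) ?_
      have e : δ / (2 * ((m:ℝ) + 1)) = δ / (4 * (m + 1)) + δ / (4 * (m + 1)) := by
        field_simp; ring
      rw [e]
      linarith
    have h5 : g k1 - g k2 = δ / (2 * (m + 1)) * (((k1 : ℕ) : ℝ) - ((k2 : ℕ) : ℝ)) := by
      simp only [hg]; ring
    rw [h5, abs_mul, abs_of_pos (by positivity : 0 < δ / (2 * ((m:ℝ) + 1)))] at h4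
    have h6 : (1:ℝ) ≤ |((k1 : ℕ) : ℝ) - ((k2 : ℕ) : ℝ)| := by
      have h7 : ((k1 : ℕ) : ℤ) - ((k2 : ℕ) : ℤ) ≠ 0 := by
        intro h
        apply hne
        apply Fin.ext
        omega
      have := Int.one_le_abs h7
      exact_mod_cast this
    have h7 : 0 < δ / (2 * ((m:ℝ) + 1)) := by positivity
    nlinarith

end Pool.Agent.TH809.MZ
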