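import Mathlib
import Pool.Agent.TH809.MZ.GLD
import Pool.Agent.TH809.MZ.GL2
import Pool.Agent.H855R2.SF.Dir
import Pool.Agent.H983R4.GL.F2

/-!
Primitive Dirichlet characters: the lower bounds.
-/

open Complex Filter Topology Set

namespace Pool.Agent.TH809.MZ

open H855R2.SF H370.DL H429.GP W587.PL

section

variable {q : ℕ} [NeZero q] {χ : DirichletCharacter ℂ q}

open scoped ArithmeticFunction.Moebius in
theorem low_dir {δ : ℝ} (hδ : 0 < δ) {s : ℂ} (hs : 1 + δ ≤ s.re) :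
    1 ≤ (∑' n : ℕ, 1 / (n : ℝ) ^ (1 + δ)) * ‖DirichletCharacter.LFunction χ s‖ := by
  have hre : 1 < s.re := by linarith
  have h1 := DirichletCharacter.LSeries.mul_mu_eq_one χ hre
  rw [← DirichletCharacter.LFunction_eq_LSeries χ hre] at h1
  have h2 : ‖LSeries ((fun n : ℕ => χ (n : ZMod q)) * fun n : ℕ => ((ArithmeticFunction.moebius n : ℤ) : ℂ)) s‖ ≤ ∑' n : ℕ, 1 / (n : ℝ) ^ (1 + δ) := by
    unfold LSeries
    have hsum : Summable (fun n : ℕ => 1 / (n : ℝ) ^ (1 + δ)) :=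
      Real.summable_one_div_nat_rpow.mpr (by linarith)
    refine tsum_of_norm_bounded hsum.hasSum fun n => ?_
    rcases eq_or_ne n 0 with rfl | hn
    · simp
      positivity
    · have hn1 : (1:ℝ) ≤ n := by exact_mod_cast Nat.one_le_iff_ne_zero.2 hn
      rw [LSeries.term_of_ne_zero hn, norm_div, norm_natCast_cpow_of_pos (Nat.pos_of_ne_zero hn)]
      apply div_le_div₀ zero_le_one _ (by positivity)
      · exact Real.rpow_le_rpow_of_exponent_le hn1 hs
      · simp only [Pi.mul_apply, norm_mul]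
        have h3 := DirichletCharacter.norm_le_one χ (n : ZMod q)
        have h4 : ‖((ArithmeticFunction.moebius n : ℤ) : ℂ)‖ ≤ 1 := by
          rw [Complex.norm_intCast]
          have := ArithmeticFunction.abs_moebius_le_one (n := n)
          exact_mod_cast this
        calc _ ≤ (1:ℝ) * 1 := mul_le_mul h3 h4 (norm_nonneg _) zero_le_one
          _ = 1 := one_mul 1
  have h3 := congrArg norm h1
  rw [norm_mul, norm_one] at h3
  calc (1:ℝ) = ‖LSeries ((fun n : ℕ => χ (n : ZMod q)) * fun n : ℕ => ((ArithmeticFunction.moebius n : ℤ) : ℂ)) s‖ * ‖DirichletCharacter.LFunction χ s‖ := by rw [← h3]; ring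
    _ ≤ _ := mul_le_mul_of_nonneg_right h2 (norm_nonneg _)

theorem refl_dir_low (hq : 1 < q) (hχ : χ.IsPrimitive) {γ δ t : ℝ} (hδ : 0 < δ) (hδ1 : δ ≤ 1 / 4)
    (hγ : γ = δ / 2) :
    ((q:ℝ) * (1 + |t|)) ^ (1 / 2 + δ - γ) *
        ‖DirichletCharacter.LFunction χ ⟨1 / 2 + (1 / 2 + δ - γ), t⟩‖ ≤
      16000 / δ * ‖DirichletCharacter.LFunction χ ⟨1 / 2 - (1 / 2 + δ - γ), t⟩‖ := by
  have hmu : ∀ j : Fin 1, ((fun _ : Fin 1 => -aa χ) j).re < 1 / 2 := by
    intro j
    have := aa_re_nonneg (χ := χ)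
    simp only [neg_re]
    linarith
  have haa : aa χ = 0 ∨ aa χ = 1 := by
    unfold aa
    split_ifs <;> simp
  set x : ℝ := 1 / 2 + δ - γ with hx
  have hc : ∀ j : Fin 1, δ / 4 ≤ ‖(⟨1 / 2 - x, t⟩ : ℂ) - (fun _ : Fin 1 => -aa χ) j‖ := by
    intro _
    refine le_trans ?_ (abs_re_le_norm _)
    rcases haa with h | h
    · rw [h]
      simp only [neg_zero, sub_zero]
      rw [abs_of_nonpos (by rw [hx, hγ]; linarith)]
      rw [hx, hγ]; linarith
    · rw [h]
      simp only [sub_neg_eq_add, add_re, one_re]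
      rw [abs_of_nonneg (by rw [hx, hγ]; linarith)]
      rw [hx, hγ]; linarith
  have h := refl_low (m := 1) (N := q) (by omega) (fun _ : Fin 1 => -aa χ) hmu
    (root := DirichletCharacter.rootNumber χ) (norm_rootNumber hχ)
    (f := DirichletCharacter.LFunction χ) (fe_dir hq hχ) (t := t) (c := δ / 4) (x := x)
    (by positivity) (by linarith) (by rw [hx, hγ]; linarith) (by rw [hx, hγ]; linarith) hc
  simp only [Finset.univ_unique, Finset.prod_singleton, pow_one] at h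
  have e : (4000:ℝ) / (δ / 4) = 16000 / δ := by field_simp; norm_num
  rw [e] at h
  refine le_trans ?_ h
  apply mul_le_mul_of_nonneg_right _ (norm_nonneg _)
  have hq0 : (0:ℝ) ≤ q := Nat.cast_nonneg _
  have ht : |t| ≤ ‖-aa χ - t * I‖ := by
    have h2 := abs_im_le_norm (-aa χ - t * I)
    have h3 : (-aa χ - t * I).im = -t := by
      rcases haa with h | h <;> rw [h] <;> simp
    rwa [h3, abs_neg] at h2
  apply Real.rpow_le_rpow (by positivity) _ (by rw [hx, hγ]; linarith)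
  exact mul_le_mul_of_nonneg_left (by linarith) hq0

end

/-- `Fam2` from `AFam` -/
theorem fam2_of_afam {ι : Type} {m : ℝ} {L : ι → ℂ → ℂ} {Q : ι → ℝ → ℝ} (H : AFam m L Q) :
    Fam2 L Q Q where
  X1 := H.Q1
  Q1 := H.Q1
  Xs := ⟨m, H.m0, H.Qs⟩
  Qs := ⟨m, H.m0, H.Qs⟩
  QX := ⟨1, zero_le_one, fun i t => by rw [Real.rpow_one]⟩
  diff := H.diff
  right := H.right
  refl := H.refl
  crude := by
    obtain ⟨C, hC, h⟩ := Pool.Agent.H983R4.GL.crude H
    exact ⟨C, 1, by linarith, zero_le_one, fun i s hs => by rw [Real.rpow_one]; exact h i s hs⟩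

theorem Fam2.comp {ι ι' : Type} {L : ι → ℂ → ℂ} {X Q : ι → ℝ → ℝ} (H : Fam2 L X Q) (g : ι' → ι) :
    Fam2 (fun i => L (g i)) (fun i => X (g i)) (fun i => Q (g i)) where
  X1 := fun i => H.X1 (g i)
  Q1 := fun i => H.Q1 (g i)
  Xs := by obtain ⟨m, hm, h⟩ := H.Xs; exact ⟨m, hm, fun i => h (g i)⟩
  Qs := by obtain ⟨m, hm, h⟩ := H.Qs; exact ⟨m, hm, fun i => h (g i)⟩
  QX := by obtain ⟨m, hm, h⟩ := H.QX; exact ⟨m, hm, fun i => h (g i)⟩
  diff := fun i => H.diff (g i)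
  right := by intro δ hδ; obtain ⟨B, h⟩ := H.right δ hδ; exact ⟨B, fun i => h (g i)⟩
  refl := by obtain ⟨m, hm, h⟩ := H.refl; exact ⟨m, hm, fun i => h (g i)⟩
  crude := by obtain ⟨C, B, hC, hB, h⟩ := H.crude; exact ⟨C, B, hC, hB, fun i => h (g i)⟩

/-- the family of all primitive Dirichlet characters of modulus `> 1` (as given by `DC`) -/
theorem fam2_dir {ι : Type} (q : ι → ℕ) [∀ i, NeZero (q i)]
    (χ : (i : ι) → DirichletCharacter ℂ (q i)) (h : ∀ i, 1 < q i ∧ (χ i).IsPrimitive) :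
    Fam2 (fun i => DirichletCharacter.LFunction (χ i)) (fun i T => (q i : ℝ) * (1 + |T|))
      (fun i T => (q i : ℝ) * (1 + |T|)) :=
  Fam2.comp (fam2_of_afam (dir_afam (fun _ _ => True)))
    (fun i => (⟨q i, (h i).1, χ i, (h i).2, trivial⟩ : DC (fun _ _ => True)))

theorem lfam_dir {ι : Type} (q : ι → ℕ) [∀ i, NeZero (q i)]
    (χ : (i : ι) → DirichletCharacter ℂ (q i)) (h : ∀ i, 1 < q i ∧ (χ i).IsPrimitive) :
    LFam (fun (j : ι × ℝ) (z : ℂ) => DirichletCharacter.LFunction (χ j.1) (1 / 2 + j.2 * I + z))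
      (fun j => (q j.1 : ℝ) * (1 + |j.2|)) (fun j => (q j.1 : ℝ) * (1 + |j.2|)) := by
  refine lfam_of (fam2_dir q χ h) ?_ ?_
  · intro δ hδ
    refine ⟨∑' n : ℕ, 1 / (n : ℝ) ^ (1 + δ), fun i s hs => ?_⟩
    have h0 : 0 ≤ ∑' n : ℕ, 1 / (n : ℝ) ^ (1 + δ) := tsum_nonneg fun n => by positivity
    refine (low_dir (χ := χ i) hδ hs).trans ?_
    apply mul_le_mul_of_nonneg_right _ (norm_nonneg _)
    apply le_mul_of_one_le_right h0
    apply Real.one_le_rpow _ hδ.le
    have h1 : (1:ℝ) ≤ q i := by exact_mod_cast (h i).1.le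
    nlinarith [abs_nonneg s.im]
  · intro δ hδ hδ1
    refine ⟨{δ / 2}, 16000 / δ, ?_, by positivity, fun i t => ⟨δ / 2, Finset.mem_singleton_self _, ?_⟩⟩
    · intro γ hγ
      rw [Finset.mem_singleton] at hγ
      rw [hγ]
      constructor <;> linarith
    · exact refl_dir_low (h i).1 (h i).2 hδ hδ1 rfl

theorem ne_dir {q : ℕ} [NeZero q] (χ : DirichletCharacter ℂ q) :
    ∃ s, DirichletCharacter.LFunction χ s ≠ 0 := by
  refine ⟨2, fun h => ?_⟩
  have h1 := low_dir (χ := χ) (δ := 1) one_pos (s := 2) (by norm_num)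
  rw [h, norm_zero, mul_zero] at h1
  linarith

end Pool.Agent.TH809.MZ
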