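import Mathlib
import Pool.Agent.TH809.MZ.Lim
import Pool.Agent.TH809.MZ.Gam
import Pool.Agent.H448R2.GC.X2

/-!
The number of zeros of zeta with the same ordinate.
-/

open Complex Filter Topology Set

namespace Pool.Agent.TH809.MZ

/-- crude series bound in `Re s ≥ a > 1` -/
lemma lseries_bound {a : ℝ} (ha : 1 < a) (f : ℕ → ℂ) (hf : ∀ n, ‖f n‖ ≤ 1) {s : ℂ}
    (hs : a ≤ s.re) : ‖LSeries f s‖ ≤ ∑' n : ℕ, 1 / (n:ℝ) ^ a := by
  have hsum : Summable (fun n : ℕ => 1 / (n:ℝ) ^ a) := Real.summable_one_div_nat_rpow.mpr ha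
  unfold LSeries
  refine tsum_of_norm_bounded hsum.hasSum ?_
  intro n
  rcases Nat.eq_zero_or_pos n with rfl | hn
  · simp [LSeries.term]
    positivity
  · rw [LSeries.norm_term_eq]
    rw [if_neg (by omega)]
    have hn1 : (1:ℝ) ≤ n := by exact_mod_cast hn
    have h1 : (n:ℝ) ^ a ≤ (n:ℝ) ^ s.re := Real.rpow_le_rpow_of_exponent_le hn1 hs
    have h2 : 0 < (n:ℝ) ^ a := by positivity
    calc ‖f n‖ / (n:ℝ) ^ s.re ≤ 1 / (n:ℝ) ^ s.re := by
          gcongr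
          exact hf n
      _ ≤ 1 / (n:ℝ) ^ a := by gcongr

/-- crude bounds in `Re s ≥ a > 1` -/
lemma zeta_bounds {a : ℝ} (ha : 1 < a) : ∃ A : ℝ, 1 ≤ A ∧ ∀ s : ℂ, a ≤ s.re →
    ‖riemannZeta s‖ ≤ A ∧ 1 / A ≤ ‖riemannZeta s‖ := by
  set K := ∑' n : ℕ, 1 / (n:ℝ) ^ a with hK
  refine ⟨max K 1, le_max_right _ _, fun s hs => ?_⟩
  have hs1 : 1 < s.re := by linarith
  have hA : 0 < max K 1 := lt_of_lt_of_le one_pos (le_max_right _ _)
  constructor
  · rw [← LSeries_one_eq_riemannZeta hs1]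
    exact (lseries_bound ha 1 (fun n => by simp) hs).trans (le_max_left _ _)
  · have h1 : riemannZeta s * LSeries (fun n => (ArithmeticFunction.moebius n : ℂ)) s = 1 := by
      rw [← LSeries_one_eq_riemannZeta hs1]
      exact LSeries_one_mul_Lseries_moebius hs1
    have h2 : ‖LSeries (fun n => (ArithmeticFunction.moebius n : ℂ)) s‖ ≤ max K 1 := by
      refine (lseries_bound ha _ (fun n => ?_) hs).trans (le_max_left _ _)
      have h : |ArithmeticFunction.moebius n| ≤ 1 := ArithmeticFunction.abs_moebius_le_one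
      rw [Complex.norm_intCast]
      exact_mod_cast h
    have h3 : ‖riemannZeta s‖ * ‖LSeries (fun n => (ArithmeticFunction.moebius n : ℂ)) s‖ = 1 := by
      rw [← norm_mul, h1, norm_one]
    rw [div_le_iff₀ hA]
    calc (1 : ℝ) = ‖riemannZeta s‖ * ‖LSeries (fun n => (ArithmeticFunction.moebius n : ℂ)) s‖ := h3.symm
      _ ≤ ‖riemannZeta s‖ * max K 1 := by gcongr

/-- the functional equation in absolute values -/
theorem fe_norm {x t : ℝ} (hx0 : 1 / 2 < x) (hx1 : x ≤ 3 / 4) :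
    ‖riemannZeta ⟨1 / 2 - x, t⟩‖ = ‖riemannZeta ⟨1 / 2 + x, -t⟩‖ *
      (‖Gammaℝ ((⟨1 / 2 - x, t⟩ : ℂ) + 2 * x)‖ * ‖(Gammaℝ ⟨1 / 2 - x, t⟩)⁻¹‖) := by
  set w : ℂ := ⟨1 / 2 - x, t⟩ with hw
  have hw0 : w ≠ 0 := by
    intro h
    have := congrArg re h
    simp [hw] at this
    linarith
  have e1 : 1 - w = ⟨1 / 2 + x, -t⟩ := by
    apply Complex.ext
    · simp [hw]; ring
    · simp [hw]
  have h1w : 1 - w ≠ 0 := by
    intro h
    have := congrArg re h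
    rw [e1] at this
    simp at this
    linarith
  have hG : Gammaℝ (1 - w) ≠ 0 := by
    apply Gammaℝ_ne_zero_of_re_pos
    rw [e1]
    show 0 < 1 / 2 + x
    linarith
  have h1 := riemannZeta_def_of_ne_zero hw0
  have h2 := riemannZeta_def_of_ne_zero h1w
  rw [completedRiemannZeta_one_sub] at h2
  have h3 : completedRiemannZeta w = riemannZeta (1 - w) * Gammaℝ (1 - w) := by
    rw [h2]; field_simp
  have e2 : 1 - w = (starRingEnd ℂ) (w + 2 * x) := by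
    apply Complex.ext
    · simp [hw]; ring
    · simp [hw]
  have e3 : ‖Gammaℝ ((starRingEnd ℂ) (w + 2 * x))‖ = ‖Gammaℝ (w + 2 * x)‖ := by
    rw [Gammaℝ_def, Gammaℝ_def, norm_mul, norm_mul,
      Complex.norm_cpow_eq_rpow_re_of_pos Real.pi_pos, Complex.norm_cpow_eq_rpow_re_of_pos Real.pi_pos]
    have e3 : (-(starRingEnd ℂ) (w + 2 * x) / 2).re = (-(w + 2 * x) / 2).re := by
      simp
    have e4 : (starRingEnd ℂ) (w + 2 * x) / 2 = (starRingEnd ℂ) ((w + 2 * x) / 2) := by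
      rw [map_div₀, map_ofNat]
    rw [e3, e4, Complex.Gamma_conj, Complex.norm_conj]
  rw [h1, h3, div_eq_mul_inv, norm_mul, norm_mul, ← e1, ← e3, ← e2]
  ring

/-- upper and lower bounds on the left of the strip -/
theorem zeta_left {x : ℝ} (hx0 : 1 / 2 < x) (hx1 : x ≤ 3 / 4) : ∃ A : ℝ, 1 ≤ A ∧
    (∀ t : ℝ, ‖riemannZeta ⟨1 / 2 + x, t⟩‖ ≤ A) ∧
    (∀ t : ℝ, 1 / A ≤ ‖riemannZeta ⟨1 / 2 + x, t⟩‖) ∧
    (∀ t : ℝ, ‖riemannZeta ⟨1 / 2 - x, t⟩‖ ≤ A * (1 + |t|) ^ x) ∧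
    ∀ t : ℝ, 1 ≤ t → t ^ x / A ≤ ‖riemannZeta ⟨1 / 2 - x, t⟩‖ := by
  obtain ⟨A, hA1, hA⟩ := zeta_bounds (a := 1 / 2 + x) (by linarith)
  refine ⟨1000 * A, by linarith, ?_, ?_, ?_, ?_⟩
  · intro t
    have := (hA ⟨1 / 2 + x, t⟩ le_rfl).1
    linarith
  · intro t
    have h1 := (hA ⟨1 / 2 + x, t⟩ le_rfl).2
    refine le_trans ?_ h1
    apply one_div_le_one_div_of_le (by linarith)
    linarith
  · intro t
    rw [fe_norm hx0 hx1]
    have h1 := (hA ⟨1 / 2 + x, -t⟩ le_rfl).1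
    have h2 := H855R2.SF.gammaR_quot (w := ⟨1 / 2 - x, t⟩) (x := x) (by linarith) hx1
      (by show -x < 1 / 2 - x; linarith)
    have h3 : 1 + ‖(⟨1 / 2 - x, t⟩ : ℂ)‖ ≤ 2 * (1 + |t|) := by
      have h4 := Complex.norm_le_abs_re_add_abs_im (⟨1 / 2 - x, t⟩ : ℂ)
      have h5 : |(⟨1 / 2 - x, t⟩ : ℂ).re| ≤ 1 := by
        show |1 / 2 - x| ≤ 1
        rw [abs_le]; constructor <;> linarith
      have h6 : |(⟨1 / 2 - x, t⟩ : ℂ).im| = |t| := rfl
      have := abs_nonneg t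
      linarith
    have h4 : (1 + ‖(⟨1 / 2 - x, t⟩ : ℂ)‖) ^ x ≤ 2 * (1 + |t|) ^ x := by
      calc (1 + ‖(⟨1 / 2 - x, t⟩ : ℂ)‖) ^ x ≤ (2 * (1 + |t|)) ^ x :=
            Real.rpow_le_rpow (by positivity) h3 (by linarith)
        _ = 2 ^ x * (1 + |t|) ^ x := Real.mul_rpow (by norm_num) (by positivity)
        _ ≤ 2 ^ (1:ℝ) * (1 + |t|) ^ x := by
            apply mul_le_mul_of_nonneg_right _ (by positivity)
            exact Real.rpow_le_rpow_of_exponent_le (by norm_num) (by linarith)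
        _ = _ := by rw [Real.rpow_one]
    calc _ ≤ A * (8 * (1 + ‖(⟨1 / 2 - x, t⟩ : ℂ)‖) ^ x) := by
          apply mul_le_mul h1 h2 (by positivity) (by linarith)
      _ ≤ A * (8 * (2 * (1 + |t|) ^ x)) := by gcongr
      _ ≤ 1000 * A * (1 + |t|) ^ x := by
          have : 0 ≤ A * (1 + |t|) ^ x := by positivity
          linarith
  · intro t ht
    rw [fe_norm hx0 hx1]
    have h1 := (hA ⟨1 / 2 + x, -t⟩ le_rfl).2
    have h2 := gammaR_low (w := ⟨1 / 2 - x, t⟩) (x := x) (by linarith) (by linarith)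
      (by show -2 ≤ 1 / 2 - x; linarith) (by show 1 ≤ |t|; rw [abs_of_nonneg (by linarith)]; exact ht)
    have h3 : |(⟨1 / 2 - x, t⟩ : ℂ).im| = t := abs_of_nonneg (by linarith)
    rw [h3] at h2
    rw [div_le_iff₀ (by linarith)]
    have hA0 : 0 < A := by linarith
    rw [div_le_iff₀ hA0] at h1
    set P : ℝ := ‖Gammaℝ ((⟨1 / 2 - x, t⟩ : ℂ) + 2 * x)‖ * ‖(Gammaℝ ⟨1 / 2 - x, t⟩)⁻¹‖ with hP
    have hP0 : 0 ≤ P := by positivity
    calc t ^ x ≤ 1 * (1000 * P) := by linarith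
      _ ≤ (‖riemannZeta ⟨1 / 2 + x, -t⟩‖ * A) * (1000 * P) :=
          mul_le_mul_of_nonneg_right h1 (by positivity)
      _ = _ := by ring

/-- the entire function `(s - 1) ζ(s)` -/
noncomputable def ZE : ℂ → ℂ := Function.update (fun w : ℂ => (w - 1) * riemannZeta w) 1 1

theorem ZE_eq {w : ℂ} (hw : w ≠ 1) : ZE w = (w - 1) * riemannZeta w := by
  unfold ZE
  rw [Function.update_of_ne hw]

/-- the normalised function at height `T` -/
noncomputable def fT (T : ℝ) (z : ℂ) : ℂ := ZE ((1 / 2 + T * I) + z) * (cexp (z ^ 2) / T)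

theorem fT_diff (T : ℝ) : Differentiable ℂ (fT T) := by
  have h : Differentiable ℂ ZE := H448R2.GC.zeta_one_entire
  unfold fT
  apply Differentiable.mul
  · exact h.comp (by fun_prop)
  · fun_prop

theorem norm_exp_sq (z : ℂ) : ‖cexp (z ^ 2)‖ = Real.exp (z.re ^ 2) * Real.exp (-z.im ^ 2) := by
  rw [norm_exp, ← Real.exp_add]
  congr 1
  rw [sq, mul_re]
  ring

theorem norm_mk_le (x y : ℝ) : ‖(⟨x, y⟩ : ℂ)‖ ≤ |x| + |y| := Complex.norm_le_abs_re_add_abs_im _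

/-- the norm of `fT` away from the pole -/
theorem fT_norm {T : ℝ} (hT : 1 ≤ T) {z : ℂ} (hz : z.re ≠ 1 / 2) :
    ‖fT T z‖ = ‖(⟨z.re - 1 / 2, T + z.im⟩ : ℂ)‖ * ‖riemannZeta ⟨1 / 2 + z.re, T + z.im⟩‖ *
      (Real.exp (z.re ^ 2) * Real.exp (-z.im ^ 2) / T) := by
  have e1 : (1 / 2 + T * I) + z = ⟨1 / 2 + z.re, T + z.im⟩ := by
    apply Complex.ext <;> simp
  have hne : (⟨1 / 2 + z.re, T + z.im⟩ : ℂ) ≠ 1 := by
    intro h
    have := congrArg re h
    simp at this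
    apply hz
    linarith
  unfold fT
  rw [e1, ZE_eq hne, norm_mul, norm_mul, norm_div, norm_exp_sq, Complex.norm_real, Real.norm_eq_abs,
    abs_of_nonneg (by linarith : (0:ℝ) ≤ T)]
  congr 3
  apply Complex.ext
  · simp; ring
  · simp

end Pool.Agent.TH809.MZ
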