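import Mathlib
import Pool.Agent.TH809.MZ.ZCount
import Pool.Agent.W22.EH.EX
import Pool.Agent.W903.EH.BK
import Pool.Agent.W347.EH.KT

/-!
The number of zeros of zeta in short windows.
-/

open Complex Filter Topology Set

namespace Pool.Agent.TH809.MZ

theorem growth_of {κ : ℝ} (h0 : 0 ≤ κ) (h : ∀ ε : ℝ, 0 < ε → ∃ T0 C : ℝ, ∀ t : ℝ, T0 ≤ t →
    ‖riemannZeta (1 / 2 + t * I)‖ ≤ C * t ^ (κ + ε)) : Growth κ := by
  intro ε hε
  obtain ⟨T0, C, hC⟩ := h ε hε
  have hcont : Continuous fun t : ℝ => riemannZeta ⟨1 / 2, t⟩ := by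
    rw [continuous_iff_continuousAt]
    intro t
    have h1 : ContinuousAt riemannZeta (⟨1 / 2, t⟩ : ℂ) := by
      apply (differentiableAt_riemannZeta _).continuousAt
      intro h
      have := congrArg re h
      simp at this
    have h2 : Continuous fun t : ℝ => (⟨1 / 2, t⟩ : ℂ) := by
      have e : (fun t : ℝ => (⟨1 / 2, t⟩ : ℂ)) = fun t : ℝ => (1 / 2 : ℂ) + t * I := by
        funext t
        apply Complex.ext <;> simp
      rw [e]
      fun_prop
    exact ContinuousAt.comp (g := riemannZeta) (f := fun t : ℝ => (⟨1 / 2, t⟩ : ℂ)) h1 h2.continuousAt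
  set T1 : ℝ := max T0 1 with hT1
  have hT11 : 1 ≤ T1 := le_max_right _ _
  obtain ⟨D, hD⟩ := (isCompact_Icc (a := -T1) (b := T1)).exists_bound_of_continuousOn hcont.continuousOn
  refine ⟨max (max C D) 0, fun t => ?_⟩
  have hp : 1 ≤ (1 + |t|) ^ (κ + ε) :=
    Real.one_le_rpow (by linarith [abs_nonneg t]) (by positivity)
  have hM0 : 0 ≤ max (max C D) 0 := le_max_right _ _
  by_cases ht : |t| ≤ T1
  · have h1 := hD t (abs_le.1 ht)
    calc ‖riemannZeta ⟨1 / 2, t⟩‖ ≤ D := h1
      _ ≤ max (max C D) 0 := (le_max_right _ _).trans (le_max_left _ _)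
      _ ≤ max (max C D) 0 * (1 + |t|) ^ (κ + ε) := le_mul_of_one_le_right hM0 hp
  · rw [not_le] at ht
    have h1 : ‖riemannZeta ⟨1 / 2, t⟩‖ = ‖riemannZeta (1 / 2 + (|t| : ℝ) * I)‖ := by
      rcases abs_cases t with h2 | h2
      · rw [h2.1]
        congr 2
        apply Complex.ext <;> simp
      · rw [h2.1]
        have e : (1 / 2 + ((-t : ℝ) : ℂ) * I) = (starRingEnd ℂ) ⟨1 / 2, t⟩ := by
          apply Complex.ext <;> simp
        rw [e, riemannZeta_conj, norm_conj]
    rw [h1]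
    have h2 := hC |t| ((le_max_left _ _).trans ht.le)
    calc ‖riemannZeta (1 / 2 + (|t| : ℝ) * I)‖ ≤ C * |t| ^ (κ + ε) := h2
      _ ≤ max (max C D) 0 * |t| ^ (κ + ε) :=
          mul_le_mul_of_nonneg_right ((le_max_left _ _).trans (le_max_left _ _)) (by positivity)
      _ ≤ max (max C D) 0 * (1 + |t|) ^ (κ + ε) := by
          apply mul_le_mul_of_nonneg_left _ hM0
          exact Real.rpow_le_rpow (abs_nonneg _) (by linarith) (by positivity)

/-- the bound of Weyl, Hardy and Littlewood -/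
theorem growth_weyl : Growth (1 / 6) := by
  apply growth_of (by norm_num)
  intro ε hε
  obtain ⟨T0, hT0⟩ := Pool.Agent.W22.EH.ex (Pool.Agent.W903.EH.bk Pool.Agent.W347.EH.kt)
    Pool.Agent.W903.EH.b1 ε hε
  exact ⟨T0, 1, fun t ht => by rw [one_mul]; exact (hT0 t ht).1⟩

/-- the order of `fT` and the order of zeta -/
theorem order_fT {T : ℝ} (hT : 0 < T) {s : ℂ} (hs : s ≠ 1) :
    analyticOrderAt (fT T) (s - (1 / 2 + T * I)) = analyticOrderAt riemannZeta s := by
  set c : ℂ := 1 / 2 + T * I with hc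
  set x : ℂ := s - c with hx
  have hcx : c + x = s := by rw [hx]; ring
  have hZE : Differentiable ℂ ZE := H448R2.GC.zeta_one_entire
  have e1 : fT T = (ZE ∘ fun z => c + z) * fun z => cexp (z ^ 2) / T := by
    funext z
    rfl
  have hTc : (T:ℂ) ≠ 0 := by exact_mod_cast hT.ne'
  have ha1 : AnalyticAt ℂ (ZE ∘ fun z => c + z) x :=
    (hZE.comp (by fun_prop : Differentiable ℂ fun z : ℂ => c + z)).analyticAt x
  have ha2 : AnalyticAt ℂ (fun z => cexp (z ^ 2) / T) x := by
    have : Differentiable ℂ fun z : ℂ => cexp (z ^ 2) / T := by fun_prop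
    exact this.analyticAt x
  have h2 : analyticOrderAt (fun z => cexp (z ^ 2) / T) x = 0 := by
    rw [ha2.analyticOrderAt_eq_zero]
    exact div_ne_zero (exp_ne_zero _) hTc
  rw [e1, analyticOrderAt_mul ha1 ha2, h2, add_zero]
  have h3 : analyticOrderAt (ZE ∘ fun z => c + z) x = analyticOrderAt ZE (c + x) := by
    apply analyticOrderAt_comp_of_deriv_ne_zero (g := fun z : ℂ => c + z)
    · have : Differentiable ℂ fun z : ℂ => c + z := by fun_prop
      exact this.analyticAt x
    · rw [deriv_const_add, deriv_id'']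
      exact one_ne_zero
  rw [h3, hcx]
  have h4 : ZE =ᶠ[𝓝 s] (fun w => w - 1) * riemannZeta := by
    filter_upwards [isOpen_ne.mem_nhds hs] with w hw
    exact ZE_eq hw
  have ha3 : AnalyticAt ℂ (fun w : ℂ => w - 1) s := by fun_prop
  have ha4 : AnalyticAt ℂ riemannZeta s := by
    have : DifferentiableOn ℂ riemannZeta ({1}ᶜ : Set ℂ) := fun z hz =>
      (differentiableAt_riemannZeta hz).differentiableWithinAt
    exact this.analyticAt (isOpen_compl_singleton.mem_nhds hs)
  have h5 : analyticOrderAt (fun w : ℂ => w - 1) s = 0 := by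
    rw [ha3.analyticOrderAt_eq_zero]
    exact sub_ne_zero.2 hs
  rw [analyticOrderAt_congr h4, analyticOrderAt_mul ha3 ha4, h5, zero_add]

theorem order_ne_top {s : ℂ} (hs : s ≠ 1) : analyticOrderAt riemannZeta s ≠ ⊤ := by
  have h1 : AnalyticOnNhd ℂ riemannZeta ({1}ᶜ : Set ℂ) := by
    intro z hz
    have : DifferentiableOn ℂ riemannZeta ({1}ᶜ : Set ℂ) := fun z hz =>
      (differentiableAt_riemannZeta hz).differentiableWithinAt
    exact this.analyticAt (isOpen_compl_singleton.mem_nhds hz)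
  have hpre : IsPreconnected ({1}ᶜ : Set ℂ) := by
    apply IsConnected.isPreconnected
    apply isConnected_compl_singleton_of_one_lt_rank
    rw [Complex.rank_real_complex]
    exact Cardinal.one_lt_two
  have h2 : analyticOrderAt riemannZeta 2 ≠ ⊤ := by
    have h3 : riemannZeta 2 ≠ 0 := riemannZeta_ne_zero_of_one_lt_re (by norm_num)
    rw [(h1 2 (by simp)).analyticOrderAt_eq_zero.2 h3]
    exact ENat.zero_ne_top
  exact h1.analyticOrderAt_ne_top_of_isPreconnected hpre (by simp) hs h2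

/-- the nontrivial zeros of zeta with ordinate in `[T - h, T + h]` -/
def ZZ (T h : ℝ) : Set ℂ := {s : ℂ | riemannZeta s = 0 ∧ 0 < s.re ∧ s.re < 1 ∧ |s.im - T| ≤ h}

/-- **the number of zeros in a short window** -/
theorem window {κ ε : ℝ} (h0 : 0 ≤ κ) (h1 : κ ≤ 1 / 4) (hg : Growth κ) (hε : 0 < ε) :
    ∃ h C : ℝ, 0 < h ∧ ∀ T : ℝ, 1 ≤ T → (ZZ T h).Finite ∧
      ((∑ᶠ s ∈ ZZ T h, analyticOrderNatAt riemannZeta s : ℕ) : ℝ) ≤ (cc κ + ε) * Real.log T + C := by
  classical
  obtain ⟨h, C, hh, H⟩ := zeta_count h0 h1 hg hε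
  refine ⟨h, C, hh, fun T hT => ?_⟩
  have hT0 : 0 < T := by linarith
  have hne : ∀ s ∈ ZZ T h, s ≠ 1 := by
    intro s hs h
    have := hs.2.2.1
    rw [h, one_re] at this
    exact lt_irrefl _ this
  -- finite subsets
  have hfin : ∀ F : Finset ℂ, (F : Set ℂ) ⊆ ZZ T h →
      ∑ s ∈ F, (analyticOrderNatAt riemannZeta s : ℝ) ≤ (cc κ + ε) * Real.log T + C := by
    intro F hF
    have h2 := H T hT (F.image fun s => s - (1 / 2 + T * I)) (by
      intro x hx
      obtain ⟨s, hs, rfl⟩ := Finset.mem_image.1 hx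
      have h3 := hF hs
      have e1 : (s - (1 / 2 + T * I)).re = s.re - 1 / 2 := by simp
      have e2 : (s - (1 / 2 + T * I)).im = s.im - T := by simp
      rw [e1, e2]
      refine ⟨?_, h3.2.2.2⟩
      have h4 := h3.2.1
      have h5 := h3.2.2.1
      rw [abs_le]
      constructor <;> linarith)
    rw [Finset.sum_image (fun x _ y _ hxy => sub_left_injective hxy)] at h2
    refine le_trans (le_of_eq ?_) h2
    apply Finset.sum_congr rfl
    intro s hs
    unfold analyticOrderNatAt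
    rw [order_fT hT0 (hne s (hF hs))]
  have hone : ∀ s ∈ ZZ T h, (1:ℝ) ≤ (analyticOrderNatAt riemannZeta s : ℝ) := by
    intro s hs
    have ha4 : AnalyticAt ℂ riemannZeta s := by
      have : DifferentiableOn ℂ riemannZeta ({1}ᶜ : Set ℂ) := fun z hz =>
        (differentiableAt_riemannZeta hz).differentiableWithinAt
      exact this.analyticAt (isOpen_compl_singleton.mem_nhds (hne s hs))
    have h2 : analyticOrderAt riemannZeta s ≠ 0 := ha4.analyticOrderAt_ne_zero.2 hs.1
    have h3 := order_ne_top (hne s hs)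
    have h4 : analyticOrderNatAt riemannZeta s ≠ 0 := by
      intro h5
      apply h2
      rw [← Nat.cast_analyticOrderNatAt h3, h5]
      rfl
    exact_mod_cast Nat.one_le_iff_ne_zero.2 h4
  have hZfin : (ZZ T h).Finite := by
    by_contra hinf
    have hinf' : (ZZ T h).Infinite := hinf
    obtain ⟨n, hn⟩ := exists_nat_gt ((cc κ + ε) * Real.log T + C)
    obtain ⟨F, hF, hcard⟩ := hinf'.exists_subset_card_eq n
    have h2 := hfin F hF
    have h3 : (n:ℝ) ≤ ∑ s ∈ F, (analyticOrderNatAt riemannZeta s : ℝ) := by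
      calc (n:ℝ) = ∑ _s ∈ F, (1:ℝ) := by rw [Finset.sum_const, hcard]; simp
        _ ≤ _ := Finset.sum_le_sum fun s hs => hone s (hF hs)
    linarith
  refine ⟨hZfin, ?_⟩
  rw [finsum_mem_eq_finite_toFinset_sum _ hZfin]
  push_cast
  apply hfin
  intro s hs
  exact (hZfin.mem_toFinset).1 hs

end Pool.Agent.TH809.MZ
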